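import Mathlib
import Pool.Agent.H95.VG.Targets1

/-!
# VG: basic measurability and continuity facts (helper15)
-/

open MeasureTheory Set Filter Topology
open scoped ENNReal NNReal ContDiff ComplexConjugate

namespace Pool.Agent.H15.VG

open Pool.Agent.H95.VG

variable {n : ℕ} {X : Type} [TopologicalSpace X] {ι : Type}

/-- the domain of `FF A f a` -/
def Ua (A : Atl n X ι) (f : V n → X) (I : Set (V n)) (a : ι) : Set (V n) :=
  {z | z ∈ Dp n \ I ∧ f z ∈ (A.φ a).source}

theorem isOpen_Ua {A : Atl n X ι} {f : V n → X} {I : Set (V n)} (hf : Sing A f I) (a : ι) :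
    IsOpen (Ua A f I a) := by
  have h := hf.cont.isOpen_inter_preimage hf.opn (A.φ a).open_source
  exact h

theorem contOn_jac (hS : T_SMO) {O : Set (V n)} {Y : V n → V n} (hO : IsOpen O)
    (hY : DifferentiableOn ℂ Y O) : ContinuousOn (jac Y) O := by
  have hfd : ∀ v, ContinuousOn (fun y => fderiv ℂ Y y v) O := fun v =>
    ((hS n (V n) _ _ hO hY).2.2 v).continuousOn
  refine continuousOn_pi.2 fun i => continuousOn_pi.2 fun j => ?_
  exact (continuous_apply i).comp_continuousOn (hfd (ek j))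

theorem contOn_det (hS : T_SMO) {O : Set (V n)} {Y : V n → V n} (hO : IsOpen O)
    (hY : DifferentiableOn ℂ Y O) : ContinuousOn (fun z => (jac Y z).det) O :=
  (continuous_id.matrix_det).comp_continuousOn (contOn_jac hS hO hY)

theorem contOn_cf (hS : T_SMO) {O : Set (V n)} {Y : V n → V n} (hO : IsOpen O)
    (hY : DifferentiableOn ℂ Y O) (k : Fin n) : ContinuousOn (cf Y k) O := by
  refine continuousOn_pi.2 fun i => ?_
  exact ((continuous_id.matrix_adjugate).matrix_elem i k).comp_continuousOn (contOn_jac hS hO hY)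

theorem continuous_nsq : Continuous (nsq (n := n)) := by
  unfold nsq
  fun_prop

theorem measurable_lu : Measurable (lu (n := n)) := by
  unfold lu
  exact (Real.measurable_log.comp continuous_nsq.measurable).div_const _

theorem continuousAt_lu {z : V n} (hz : 0 < nsq z) : ContinuousAt lu z := by
  unfold lu
  exact ((Real.continuousAt_log hz.ne').comp continuous_nsq.continuousAt).div_const _

theorem isOpen_Dp : IsOpen (Dp n) := by
  unfold Dp
  exact (isOpen_lt continuous_const continuous_nsq).inter (isOpen_lt continuous_nsq continuous_const)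

theorem norm_sq_le_nsq (z : V n) : ‖z‖ ^ 2 ≤ nsq z := by
  have h : ‖z‖ ≤ Real.sqrt (nsq z) := by
    refine (pi_norm_le_iff_of_nonneg (Real.sqrt_nonneg _)).2 fun i => ?_
    refine Real.le_sqrt_of_sq_le ?_
    unfold nsq
    exact Finset.single_le_sum (f := fun i => ‖z i‖ ^ 2) (fun i _ => sq_nonneg _) (Finset.mem_univ i)
  have h0 : 0 ≤ nsq z := by unfold nsq; positivity
  calc ‖z‖ ^ 2 ≤ (Real.sqrt (nsq z)) ^ 2 := pow_le_pow_left₀ (norm_nonneg _) h 2
    _ = nsq z := Real.sq_sqrt h0

theorem Dp_subset_ball : Dp n ⊆ Metric.ball 0 1 := by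
  intro z hz
  have h1 := norm_sq_le_nsq z
  have h2 : ‖z‖ ^ 2 < 1 := lt_of_le_of_lt h1 hz.2
  rw [mem_ball_zero_iff]
  by_contra hcon
  push Not at hcon
  nlinarith [norm_nonneg z]

theorem volume_Dp_lt_top : volume (Dp n) < ⊤ :=
  lt_of_le_of_lt (measure_mono Dp_subset_ball) measure_ball_lt_top

theorem measurableSet_Cb [T2Space X] (hO : T_OAO) {A : Atl n X ι} {f : V n → X} {I : Set (V n)}
    (hf : Sing A f I) (a : ι) {R : ℝ} (hR : R ≤ 2) :
    MeasurableSet ((Dp n \ I) ∩ Cb A f a R) := by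
  obtain ⟨C, hC, h⟩ := (hO n X ι A f I hf a).2.2.1 R hR
  rw [h]
  exact hf.opn.measurableSet.inter hC.measurableSet

theorem Cb_subset_Ua {A : Atl n X ι} {f : V n → X} {I : Set (V n)} (a : ι) (R : ℝ) :
    (Dp n \ I) ∩ Cb A f a R ⊆ Ua A f I a := fun _ hz => ⟨hz.1, hz.2.1⟩

theorem meas_ind {γ : Type*} [Zero γ] [TopologicalSpace γ] [MeasurableSpace γ] [BorelSpace γ]
    {O : Set (V n)} (hO : MeasurableSet O) {g : V n → γ}
    (hg : ContinuousOn g O) : Measurable (O.indicator g) := by
  classical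
  rw [← piecewise_eq_indicator]
  exact hg.measurable_piecewise continuous_zero.continuousOn hO

theorem Wt_nonneg (A : Atl n X ι) {w : ι → V n → ℝ} (hw : ∀ a y, 0 ≤ w a y) (b : ι) (x : X) :
    0 ≤ Wt A w b x := by
  unfold Wt
  exact indicator_nonneg (fun x _ => hw b _) x

theorem PB_nonneg [Fintype ι] (A : Atl n X ι) {w : ι → V n → ℝ} (hw : ∀ a y, 0 ≤ w a y)
    (f : V n → X) (z : V n) : 0 ≤ PB A f w z :=
  Finset.sum_nonneg fun a _ => mul_nonneg (Wt_nonneg A hw a _) (sq_nonneg _)

end Pool.Agent.H15.VG
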