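import Mathlib
import Pool.Agent.H95.VG.Targets1
import Pool.Agent.H15.VG.Basic

/-!
# VG: continuity, bounds and integrability on `Oa` (helper15)
-/

open MeasureTheory Set Filter Topology
open scoped ENNReal NNReal ContDiff ComplexConjugate

namespace Pool.Agent.H15.VG

open Pool.Agent.H95.VG

variable {n : ℕ}

theorem norm_dr_le (g : V n → ℝ) (z v : V n) : ‖dr g z v‖ ≤ ‖fderiv ℝ g z‖ * ‖v‖ := by
  unfold dr
  have h1 : ‖((fderiv ℝ g z v : ℝ) : ℂ)‖ ≤ ‖fderiv ℝ g z‖ * ‖v‖ := by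
    rw [Complex.norm_real]; exact (fderiv ℝ g z).le_opNorm v
  have h2 : ‖Complex.I * ((fderiv ℝ g z (Complex.I • v) : ℝ) : ℂ)‖ ≤ ‖fderiv ℝ g z‖ * ‖v‖ := by
    rw [norm_mul, Complex.norm_I, one_mul, Complex.norm_real]
    refine ((fderiv ℝ g z).le_opNorm _).trans ?_
    rw [norm_smul, Complex.norm_I, one_mul]
  have h3 := norm_sub_le ((fderiv ℝ g z v : ℝ) : ℂ)
    (Complex.I * ((fderiv ℝ g z (Complex.I • v) : ℝ) : ℂ))
  rw [norm_div, Complex.norm_ofNat, div_le_iff₀ (by norm_num)]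
  linarith

theorem lev_eq {O : Set (V n)} (hO : IsOpen O) {g : V n → ℝ} (hg : ContDiffOn ℝ 2 g O) {z : V n}
    (hz : z ∈ O) (v : V n) : lev g z v = (4 : ℝ)⁻¹ • (fderiv ℝ (fderiv ℝ g) z v v +
      fderiv ℝ (fderiv ℝ g) z (Complex.I • v) (Complex.I • v)) := by
  have hd : DifferentiableAt ℝ (fderiv ℝ g) z := by
    have h1 : ContDiffOn ℝ 1 (fderiv ℝ g) O := hg.fderiv_of_isOpen hO (by norm_num)
    exact (h1.differentiableOn (by norm_num)).differentiableAt (hO.mem_nhds hz)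
  have h2 : ∀ u w : V n, fderiv ℝ (fun x => fderiv ℝ g x u) z w =
      fderiv ℝ (fderiv ℝ g) z w u := by
    intro u w
    rw [fderiv_clm_apply hd (differentiableAt_const u)]
    simp
  unfold lev
  rw [h2, h2]

theorem norm_lev_le {O : Set (V n)} (hO : IsOpen O) {g : V n → ℝ} (hg : ContDiffOn ℝ 2 g O)
    {z : V n} (hz : z ∈ O) (v : V n) : |lev g z v| ≤ ‖fderiv ℝ (fderiv ℝ g) z‖ * ‖v‖ ^ 2 := by
  rw [lev_eq hO hg hz]
  have h1 : ∀ u : V n, |fderiv ℝ (fderiv ℝ g) z u u| ≤ ‖fderiv ℝ (fderiv ℝ g) z‖ * ‖u‖ ^ 2 := by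
    intro u
    have := (fderiv ℝ (fderiv ℝ g) z).le_opNorm₂ u u
    rw [Real.norm_eq_abs] at this
    rw [pow_two, ← mul_assoc]
    exact this
  have h2 := h1 v
  have h3 := h1 (Complex.I • v)
  rw [norm_smul, Complex.norm_I, one_mul] at h3
  rw [smul_eq_mul, abs_mul]
  have h4 := abs_add_le (fderiv ℝ (fderiv ℝ g) z v v)
    (fderiv ℝ (fderiv ℝ g) z (Complex.I • v) (Complex.I • v))
  rw [abs_of_pos (by norm_num : (0:ℝ) < 4⁻¹)]
  have h5 : 0 ≤ ‖fderiv ℝ (fderiv ℝ g) z‖ * ‖v‖ ^ 2 := by positivity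
  linarith

theorem contOn_dr {O : Set (V n)} (hO : IsOpen O) {g : V n → ℝ} (hg : ContDiffOn ℝ 1 g O)
    {W : V n → V n} (hW : ContinuousOn W O) : ContinuousOn (fun z => dr g z (W z)) O := by
  have h1 : ContinuousOn (fderiv ℝ g) O := hg.continuousOn_fderiv_of_isOpen hO (by norm_num)
  have h2 : ContinuousOn (fun z => fderiv ℝ g z (W z)) O := h1.clm_apply hW
  have h3 : ContinuousOn (fun z => fderiv ℝ g z (Complex.I • W z)) O :=
    h1.clm_apply (hW.const_smul Complex.I)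
  unfold dr
  exact ((Complex.continuous_ofReal.comp_continuousOn h2).sub
    (continuousOn_const.mul (Complex.continuous_ofReal.comp_continuousOn h3))).div_const _

theorem contOn_lev {O : Set (V n)} (hO : IsOpen O) {g : V n → ℝ} (hg : ContDiffOn ℝ 2 g O)
    {W : V n → V n} (hW : ContinuousOn W O) : ContinuousOn (fun z => lev g z (W z)) O := by
  have h1 : ContDiffOn ℝ 1 (fderiv ℝ g) O := hg.fderiv_of_isOpen hO (by norm_num)
  have h2 : ContinuousOn (fderiv ℝ (fderiv ℝ g)) O :=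
    h1.continuousOn_fderiv_of_isOpen hO (by norm_num)
  have hIW : ContinuousOn (fun z => Complex.I • W z) O := hW.const_smul Complex.I
  have h3 : ContinuousOn (fun z => (4 : ℝ)⁻¹ * (fderiv ℝ (fderiv ℝ g) z (W z) (W z) +
      fderiv ℝ (fderiv ℝ g) z (Complex.I • W z) (Complex.I • W z))) O :=
    continuousOn_const.mul
      (((h2.clm_apply hW).clm_apply hW).add ((h2.clm_apply hIW).clm_apply hIW))
  exact h3.congr fun z hz => lev_eq hO hg hz (W z)

theorem contDiffOn_dr {O : Set (V n)} (hO : IsOpen O) {g : V n → ℝ} (hg : ContDiffOn ℝ 2 g O)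
    (v : V n) : ContDiffOn ℝ 1 (fun z => dr g z v) O := by
  have h1 : ContDiffOn ℝ 1 (fderiv ℝ g) O := hg.fderiv_of_isOpen hO (by norm_num)
  have h2 : ∀ u : V n, ContDiffOn ℝ 1 (fun z => ((fderiv ℝ g z u : ℝ) : ℂ)) O := fun u =>
    Complex.ofRealCLM.contDiff.comp_contDiffOn (h1.clm_apply contDiffOn_const)
  unfold dr
  exact ((h2 v).sub (contDiffOn_const.mul (h2 _))).div_const _

theorem contOn_dzb {O : Set (V n)} (hO : IsOpen O) {g : V n → ℂ} (hg : ContDiffOn ℝ 1 g O)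
    {W : V n → V n} (hW : ContinuousOn W O) : ContinuousOn (fun z => dzb g z (W z)) O := by
  have h1 : ContinuousOn (fderiv ℝ g) O := hg.continuousOn_fderiv_of_isOpen hO (by norm_num)
  unfold dzb
  exact ((h1.clm_apply hW).add (continuousOn_const.mul
    (h1.clm_apply (hW.const_smul Complex.I)))).div_const _

variable {X : Type} [TopologicalSpace X] {ι : Type}

theorem Oa_subset_Dp (A : Atl n X ι) (f : V n → X) (I : Set (V n)) (a : ι) :
    Oa A f I a ⊆ Dp n := fun _ hz => hz.1.1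

theorem dom_cf (hD : T_DOM) {Y : V n → V n} {z : V n} (hY : DifferentiableAt ℂ Y z) (k : Fin n) :
    ‖cf Y k z‖ ^ 2 ≤ Dm Y z := by
  have h := hD n Y z hY
  have h0 : 0 ≤ Dm Y z := zero_le_one.trans h.1
  have h1 : ‖cf Y k z‖ ≤ Real.sqrt (Dm Y z) := by
    refine (pi_norm_le_iff_of_nonneg (Real.sqrt_nonneg _)).2 fun i => ?_
    exact Real.le_sqrt_of_sq_le (h.2.2.2.2.1 k i)
  calc ‖cf Y k z‖ ^ 2 ≤ (Real.sqrt (Dm Y z)) ^ 2 := pow_le_pow_left₀ (norm_nonneg _) h1 2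
    _ = Dm Y z := Real.sq_sqrt h0

theorem diffAt_FF [T2Space X] (hO : T_OAO) {A : Atl n X ι} {f : V n → X} {I : Set (V n)}
    (hf : Sing A f I) {a : ι} {z : V n} (hz : z ∈ Oa A f I a) :
    DifferentiableAt ℂ (FF A f a) z :=
  ((hO n X ι A f I hf a).2.1 z hz).differentiableAt ((hO n X ι A f I hf a).1.mem_nhds hz)

theorem lintegral_dom [T2Space X] (hO : T_OAO) {A : Atl n X ι} {f : V n → X} {I : Set (V n)}
    (hf : Sing A f I) (a : ι) {K : Set (V n)} (hK : K ⊆ Dp n) (hKc : IsCompact K)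
    {u : V n → ℝ≥0∞} {C : ℝ}
    (hb : ∀ z ∈ Oa A f I a, u z ≠ 0 → z ∈ K ∧ u z ≤ ENNReal.ofReal (C * Dm (FF A f a) z)) :
    ∫⁻ z in Oa A f I a, u z < ⊤ := by
  have hOa := hO n X ι A f I hf a
  have hm : MeasurableSet ((K \ I) ∩ Cb A f a 2) := by
    have h1 : (K \ I) ∩ Cb A f a 2 = K ∩ ((Dp n \ I) ∩ Cb A f a 2) := by
      ext z
      constructor
      · rintro ⟨⟨h2, h3⟩, h4⟩; exact ⟨h2, ⟨hK h2, h3⟩, h4⟩
      · rintro ⟨h2, ⟨_, h3⟩, h4⟩; exact ⟨⟨h2, h3⟩, h4⟩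
    rw [h1]
    exact hKc.measurableSet.inter (measurableSet_Cb hO hf a le_rfl)
  calc ∫⁻ z in Oa A f I a, u z
      ≤ ∫⁻ z in Oa A f I a, ((K \ I) ∩ Cb A f a 2).indicator
          (fun z => ENNReal.ofReal |C| * ENNReal.ofReal (Dm (FF A f a) z)) z := by
        refine setLIntegral_mono' hOa.1.measurableSet fun z hz => ?_
        by_cases h0 : u z = 0
        · rw [h0]; exact zero_le
        · obtain ⟨h1, h2⟩ := hb z hz h0
          rw [indicator_of_mem (show z ∈ (K \ I) ∩ Cb A f a 2 from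
            ⟨⟨h1, hz.1.2⟩, hz.2.1, Metric.ball_subset_closedBall hz.2.2⟩)]
          refine h2.trans ?_
          rw [← ENNReal.ofReal_mul (abs_nonneg _)]
          refine ENNReal.ofReal_le_ofReal ?_
          refine mul_le_mul_of_nonneg_right (le_abs_self C) ?_
          unfold Dm; positivity
    _ ≤ ∫⁻ z, ((K \ I) ∩ Cb A f a 2).indicator
          (fun z => ENNReal.ofReal |C| * ENNReal.ofReal (Dm (FF A f a) z)) z :=
        setLIntegral_le_lintegral _ _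
    _ = ENNReal.ofReal |C| * ∫⁻ z in (K \ I) ∩ Cb A f a 2, ENNReal.ofReal (Dm (FF A f a) z) := by
        rw [lintegral_indicator hm, lintegral_const_mul' _ _ ENNReal.ofReal_ne_top]
    _ < ⊤ := ENNReal.mul_lt_top ENNReal.ofReal_lt_top (hf.s1 K hK hKc a)

theorem integrableOn_dom [T2Space X] (hO : T_OAO) {A : Atl n X ι} {f : V n → X} {I : Set (V n)}
    (hf : Sing A f I) (a : ι) {K : Set (V n)} (hK : K ⊆ Dp n) (hKc : IsCompact K)
    {E : Type*} [NormedAddCommGroup E] [SecondCountableTopology E]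
    {u : V n → E} (hu : ContinuousOn u (Oa A f I a)) {C : ℝ}
    (hb : ∀ z ∈ Oa A f I a, u z ≠ 0 → z ∈ K ∧ ‖u z‖ ≤ C * Dm (FF A f a) z) :
    IntegrableOn u (Oa A f I a) := by
  have hOa := hO n X ι A f I hf a
  refine ⟨hu.aestronglyMeasurable hOa.1.measurableSet, ?_⟩
  refine lintegral_dom hO hf a hK hKc (C := C) fun z hz h0 => ?_
  have h1 : u z ≠ 0 := fun h => h0 (by rw [h]; simp)
  obtain ⟨h2, h3⟩ := hb z hz h1
  refine ⟨h2, ?_⟩
  rw [← ofReal_norm]
  exact ENNReal.ofReal_le_ofReal h3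

end Pool.Agent.H15.VG
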