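import Mathlib
import Pool.Agent.H95.VG.Targets1
import Pool.Agent.H15.VG.Calc

/-!
# VG module ADJ: the adjoint identity (helper15)
-/

open MeasureTheory Set Filter Topology
open scoped ENNReal NNReal ContDiff ComplexConjugate

namespace Pool.Agent.H15.VG

open Pool.Agent.H95.VG

variable {n : ℕ} {X : Type} [TopologicalSpace X] {ι : Type}

theorem fderiv_eq_zero_of_notMem {g : V n → ℝ} {z : V n} (hz : z ∉ tsupport g) :
    fderiv ℝ g z = 0 := by
  by_contra h
  have h1 : z ∈ tsupport (fderiv ℝ g) := subset_tsupport _ h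
  exact hz (tsupport_fderiv_subset ℝ h1)

theorem dr_eq_zero {g : V n → ℝ} {z : V n} (h : fderiv ℝ g z = 0) (v : V n) : dr g z v = 0 := by
  unfold dr; rw [h]; simp

theorem lev_eq_zero {g : V n → ℝ} {z : V n} (hz : z ∉ tsupport g) (v : V n) : lev g z v = 0 := by
  have hev : ∀ᶠ x in 𝓝 z, x ∉ tsupport g := (isClosed_tsupport g).isOpen_compl.mem_nhds hz
  have h1 : ∀ u : V n, fderiv ℝ (fun x => fderiv ℝ g x u) z = 0 := by
    intro u
    have h2 : (fun x => fderiv ℝ g x u) =ᶠ[𝓝 z] fun _ => (0:ℝ) := by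
      filter_upwards [hev] with x hx
      rw [fderiv_eq_zero_of_notMem hx]; simp
    rw [h2.fderiv_eq]; simp
  unfold lev
  rw [h1, h1]
  simp

/-- the weight vanishes (with its derivative) outside the polydisc of radius `3 / 2` -/
theorem w_zero {w : V n → ℝ} (hw : ∀ y, w y ≠ 0 → y ∈ Metric.closedBall (0 : V n) (3 / 2))
    {y : V n} (hy : y ∉ Metric.closedBall (0 : V n) (3 / 2)) : w y = 0 ∧ fderiv ℝ w y = 0 := by
  have h1 : tsupport w ⊆ Metric.closedBall (0 : V n) (3 / 2) :=
    closure_minimal (fun y hy => hw y hy) Metric.isClosed_closedBall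
  refine ⟨by_contra fun h => hy (hw y h), fderiv_eq_zero_of_notMem fun h => hy (h1 h)⟩

section pieces

variable (A : Atl n X ι) (w : ι → V n → ℝ) (f : V n → X) (φ g : V n → ℝ) (a : ι) (k : Fin n)

/-- `w (F) g lev φ (V)` -/
noncomputable def a1 (z : V n) : ℝ :=
  w a (FF A f a z) * (g z * lev φ z (cf (FF A f a) k z))

/-- `w (F) Re (dr φ (V) conj (dr g (V)))` -/
noncomputable def a2 (z : V n) : ℝ :=
  w a (FF A f a z) * (dr φ z (cf (FF A f a) k z) * conj (dr g z (cf (FF A f a) k z))).re

/-- `g Re (dr φ (V) conj (det dr w (F) (ek k)))` -/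
noncomputable def a3 (z : V n) : ℝ :=
  g z * (dr φ z (cf (FF A f a) k z) *
    conj ((jac (FF A f a) z).det * dr (w a) (FF A f a z) (ek k))).re

end pieces

theorem adj (hS : T_SMO) (hLIN : T_LIN) (hPRD : T_PRD) (hLVM : T_LVM) (hCHR : T_CHR)
    (hPIO : T_PIO) (hO : T_OAO) (hD : T_DOM) (hSFO : T_SFO) (hSTA : T_STA) : T_ADJ := by
  intro n X _ _ ι _ A w f I hw hf φ g hφ hφc hφs hg
  set K : Set (V n) := tsupport φ with hK
  have hKc : IsCompact K := hφc
  have hDp : IsOpen (Dp n) := isOpen_Dp
  have hφ' : ContDiffOn ℝ 2 φ (Dp n) := hφ.contDiffOn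
  have hφu : ContDiffOn ℝ 2 φ univ := hφ.contDiffOn
  -- bounds on K
  have bd : ∀ (u : V n → ℝ), ContinuousOn u (Dp n) → ∃ C : ℝ, 0 ≤ C ∧ ∀ z ∈ K, |u z| ≤ C := by
    intro u hu
    obtain ⟨C, hC⟩ := hKc.bddAbove_image ((hu.mono hφs).abs)
    exact ⟨max C 0, le_max_right _ _, fun z hz => (hC (mem_image_of_mem _ hz)).trans
      (le_max_left _ _)⟩
  have hg1 : ContinuousOn (fderiv ℝ g) (Dp n) :=
    hg.continuousOn_fderiv_of_isOpen hDp (by norm_num)
  have hg2 : ContinuousOn (fderiv ℝ (fderiv ℝ g)) (Dp n) :=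
    (hg.fderiv_of_isOpen (m := 1) hDp (by norm_num)).continuousOn_fderiv_of_isOpen hDp (by norm_num)
  have hφ1 : ContinuousOn (fderiv ℝ φ) (Dp n) :=
    hφ'.continuousOn_fderiv_of_isOpen hDp (by norm_num)
  have hφ2 : ContinuousOn (fderiv ℝ (fderiv ℝ φ)) (Dp n) :=
    (hφ'.fderiv_of_isOpen (m := 1) hDp (by norm_num)).continuousOn_fderiv_of_isOpen hDp
      (by norm_num)
  obtain ⟨G0, hG0, hG0b⟩ := bd g hg.continuousOn
  obtain ⟨G1, hG1, hG1b⟩ := bd (fun z => ‖fderiv ℝ g z‖) hg1.norm
  obtain ⟨G2, hG2, hG2b⟩ := bd (fun z => ‖fderiv ℝ (fderiv ℝ g) z‖)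
    (ContinuousOn.norm (E := V n →L[ℝ] V n →L[ℝ] ℝ) hg2)
  obtain ⟨P0, hP0, hP0b⟩ := bd φ hφ'.continuousOn
  obtain ⟨P1, hP1, hP1b⟩ := bd (fun z => ‖fderiv ℝ φ z‖) hφ1.norm
  obtain ⟨P2, hP2, hP2b⟩ := bd (fun z => ‖fderiv ℝ (fderiv ℝ φ) z‖)
    (ContinuousOn.norm (E := V n →L[ℝ] V n →L[ℝ] ℝ) hφ2)
  -- bounds of the weights
  have hwb : ∀ a, ∃ W : ℝ, 0 ≤ W ∧ ∀ y, |w a y| ≤ W ∧ ‖fderiv ℝ (w a) y‖ ≤ W := by
    intro a
    have hc1 : Continuous (w a) := (hw.smooth a).continuous
    have hc2 : Continuous (fderiv ℝ (w a)) :=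
      (hw.smooth a).continuous_fderiv (by simp)
    obtain ⟨W, hW⟩ := (isCompact_closedBall (0 : V n) (3 / 2)).bddAbove_image
      ((hc1.abs.add hc2.norm).continuousOn)
    refine ⟨max W 0, le_max_right _ _, fun y => ?_⟩
    by_cases hy : y ∈ Metric.closedBall (0 : V n) (3 / 2)
    · have h1 : |w a y| + ‖fderiv ℝ (w a) y‖ ≤ W := hW (mem_image_of_mem _ hy)
      have h2 := le_max_left W 0
      constructor
      · linarith [norm_nonneg (fderiv ℝ (w a) y)]
      · linarith [abs_nonneg (w a y)]
    · obtain ⟨h1, h2⟩ := w_zero (hw.supp a) hy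
      rw [h1, h2]
      simp
  choose W hW0 hWb using hwb
  -- facts on Oa
  have hOa : ∀ a, IsOpen (Oa A f I a) := fun a => (hO n X ι A f I hf a).1
  have hOF : ∀ a, DifferentiableOn ℂ (FF A f a) (Oa A f I a) := fun a =>
    (hO n X ι A f I hf a).2.1
  have hsub : ∀ a, Oa A f I a ⊆ Dp n := fun a z hz => hz.1.1
  have hsub' : ∀ a, Oa A f I a ⊆ Dp n \ I := fun a z hz => hz.1
  have hV : ∀ a k, ContinuousOn (cf (FF A f a) k) (Oa A f I a) := fun a k =>
    contOn_cf hS (hOa a) (hOF a) k
  have hdet : ∀ a, ContinuousOn (fun z => (jac (FF A f a) z).det) (Oa A f I a) := fun a =>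
    contOn_det hS (hOa a) (hOF a)
  have hwF : ∀ a, ContinuousOn (fun z => w a (FF A f a z)) (Oa A f I a) := fun a =>
    (hw.smooth a).continuous.comp_continuousOn (hOF a).continuousOn
  have hg' : ∀ a, ContDiffOn ℝ 2 g (Oa A f I a) := fun a => hg.mono (hsub a)
  have hφa : ∀ a, ContDiffOn ℝ 2 φ (Oa A f I a) := fun a => hφ'.mono (hsub a)
  have hdrw : ∀ a k, ContinuousOn (fun z => dr (w a) (FF A f a z) (ek k)) (Oa A f I a) := by
    intro a k
    have h1 : ContinuousOn (fun y => dr (w a) y (ek k)) univ :=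
      contOn_dr isOpen_univ ((hw.smooth a).contDiffOn.of_le (by simp)) continuousOn_const
    exact (continuousOn_univ.1 h1).comp_continuousOn (hOF a).continuousOn
  have hDm : ∀ a, ∀ z ∈ Oa A f I a, 1 ≤ Dm (FF A f a) z ∧
      ‖(jac (FF A f a) z).det‖ ^ 2 ≤ Dm (FF A f a) z ∧
      ∀ k, ‖cf (FF A f a) k z‖ ^ 2 ≤ Dm (FF A f a) z := by
    intro a z hz
    have h1 := diffAt_FF hO hf hz
    have h2 := hD n (FF A f a) z h1
    exact ⟨h2.1, h2.2.1, fun k => dom_cf hD h1 k⟩
  -- vanishing outside K
  have hz1 : ∀ z, z ∉ K → φ z = 0 := fun z hz => image_eq_zero_of_notMem_tsupport hz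
  have hz2 : ∀ z, z ∉ K → ∀ v, dr φ z v = 0 := fun z hz v =>
    dr_eq_zero (fderiv_eq_zero_of_notMem hz) v
  have hz3 : ∀ z, z ∉ K → ∀ v, lev φ z v = 0 := fun z hz v => lev_eq_zero hz v
  -- integrability of the pieces
  have i1 : ∀ a k, IntegrableOn (a1 A w f φ g a k) (Oa A f I a) := by
    intro a k
    refine integrableOn_dom hO hf a hφs hKc (C := W a * (G0 * P2)) ?_ ?_
    · exact (hwF a).mul ((hg' a).continuousOn.mul (contOn_lev (hOa a) (hφa a) (hV a k)))
    · intro z hz h0
      have hzK : z ∈ K := by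
        by_contra hn
        exact h0 (by unfold a1; rw [hz3 z hn]; ring)
      refine ⟨hzK, ?_⟩
      unfold a1
      rw [Real.norm_eq_abs, abs_mul, abs_mul]
      have h1 := norm_lev_le (hOa a) (hφa a) hz (cf (FF A f a) k z)
      have h2 := hP2b z hzK
      replace h2 := (le_abs_self _).trans h2
      have h3 := ((hDm a z hz).2.2 k)
      have h4 : |lev φ z (cf (FF A f a) k z)| ≤ P2 * Dm (FF A f a) z :=
        h1.trans (mul_le_mul h2 h3 (sq_nonneg _) hP2)
      calc |w a (FF A f a z)| * (|g z| * |lev φ z (cf (FF A f a) k z)|)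
          ≤ W a * (G0 * (P2 * Dm (FF A f a) z)) := by
            refine mul_le_mul (hWb a _).1 ?_ (by positivity) (hW0 a)
            exact mul_le_mul (hG0b z hzK) h4 (abs_nonneg _) hG0
        _ = _ := by ring
  have i4 : ∀ a k, IntegrableOn (a1 A w f g φ a k) (Oa A f I a) := by
    intro a k
    refine integrableOn_dom hO hf a hφs hKc (C := W a * (P0 * G2)) ?_ ?_
    · exact (hwF a).mul ((hφa a).continuousOn.mul (contOn_lev (hOa a) (hg' a) (hV a k)))
    · intro z hz h0
      have hzK : z ∈ K := by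
        by_contra hn
        exact h0 (by unfold a1; rw [hz1 z hn]; ring)
      refine ⟨hzK, ?_⟩
      unfold a1
      rw [Real.norm_eq_abs, abs_mul, abs_mul]
      have h1 := norm_lev_le (hOa a) (hg' a) hz (cf (FF A f a) k z)
      have h2 := hG2b z hzK
      replace h2 := (le_abs_self _).trans h2
      have h3 := ((hDm a z hz).2.2 k)
      have h4 : |lev g z (cf (FF A f a) k z)| ≤ G2 * Dm (FF A f a) z :=
        h1.trans (mul_le_mul h2 h3 (sq_nonneg _) hG2)
      calc |w a (FF A f a z)| * (|φ z| * |lev g z (cf (FF A f a) k z)|)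
          ≤ W a * (P0 * (G2 * Dm (FF A f a) z)) := by
            refine mul_le_mul (hWb a _).1 ?_ (by positivity) (hW0 a)
            exact mul_le_mul (hP0b z hzK) h4 (abs_nonneg _) hP0
        _ = _ := by ring
  have drb : ∀ a k, ∀ z ∈ Oa A f I a, z ∈ K →
      ‖dr φ z (cf (FF A f a) k z)‖ ≤ P1 * ‖cf (FF A f a) k z‖ ∧
      ‖dr g z (cf (FF A f a) k z)‖ ≤ G1 * ‖cf (FF A f a) k z‖ := by
    intro a k z hz hzK
    have h2 := hP1b z hzK
    have h3 := hG1b z hzK
    replace h2 := (le_abs_self _).trans h2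
    replace h3 := (le_abs_self _).trans h3
    exact ⟨(norm_dr_le _ _ _).trans (mul_le_mul_of_nonneg_right h2 (norm_nonneg _)),
      (norm_dr_le _ _ _).trans (mul_le_mul_of_nonneg_right h3 (norm_nonneg _))⟩
  have i2 : ∀ a k, IntegrableOn (a2 A w f φ g a k) (Oa A f I a) := by
    intro a k
    refine integrableOn_dom hO hf a hφs hKc (C := W a * (P1 * G1)) ?_ ?_
    · refine (hwF a).mul (Complex.continuous_re.comp_continuousOn ?_)
      exact (contOn_dr (hOa a) ((hφa a).of_le (by norm_num)) (hV a k)).mul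
        (Complex.continuous_conj.comp_continuousOn
          (contOn_dr (hOa a) ((hg' a).of_le (by norm_num)) (hV a k)))
    · intro z hz h0
      have hzK : z ∈ K := by
        by_contra hn
        exact h0 (by unfold a2; rw [hz2 z hn]; simp)
      refine ⟨hzK, ?_⟩
      unfold a2
      rw [Real.norm_eq_abs, abs_mul]
      obtain ⟨h1, h2⟩ := drb a k z hz hzK
      have h3 := (hDm a z hz).2.2 k
      have h4 : |(dr φ z (cf (FF A f a) k z) * conj (dr g z (cf (FF A f a) k z))).re| ≤
          P1 * G1 * Dm (FF A f a) z := by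
        refine (Complex.abs_re_le_norm _).trans ?_
        rw [norm_mul, RCLike.norm_conj]
        calc _ ≤ (P1 * ‖cf (FF A f a) k z‖) * (G1 * ‖cf (FF A f a) k z‖) :=
              mul_le_mul h1 h2 (norm_nonneg _) (by positivity)
          _ = P1 * G1 * ‖cf (FF A f a) k z‖ ^ 2 := by ring
          _ ≤ _ := mul_le_mul_of_nonneg_left h3 (by positivity)
      calc _ ≤ W a * (P1 * G1 * Dm (FF A f a) z) :=
            mul_le_mul (hWb a _).1 h4 (abs_nonneg _) (hW0 a)
        _ = _ := by ring
  have i3 : ∀ a k, IntegrableOn (a3 A w f φ g a k) (Oa A f I a) := by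
    intro a k
    refine integrableOn_dom hO hf a hφs hKc (C := G0 * (P1 * (W a * ‖(ek k : V n)‖))) ?_ ?_
    · refine (hg' a).continuousOn.mul (Complex.continuous_re.comp_continuousOn ?_)
      exact (contOn_dr (hOa a) ((hφa a).of_le (by norm_num)) (hV a k)).mul
        (Complex.continuous_conj.comp_continuousOn ((hdet a).mul (hdrw a k)))
    · intro z hz h0
      have hzK : z ∈ K := by
        by_contra hn
        exact h0 (by unfold a3; rw [hz2 z hn]; simp)
      refine ⟨hzK, ?_⟩
      unfold a3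
      rw [Real.norm_eq_abs, abs_mul]
      obtain ⟨h1, -⟩ := drb a k z hz hzK
      have h3 := (hDm a z hz).2.2 k
      have h5 := (hDm a z hz).2.1
      have h6 : ‖dr (w a) (FF A f a z) (ek k)‖ ≤ W a * ‖(ek k : V n)‖ :=
        (norm_dr_le _ _ _).trans (mul_le_mul_of_nonneg_right (hWb a _).2 (norm_nonneg _))
      have h7 : ‖cf (FF A f a) k z‖ * ‖(jac (FF A f a) z).det‖ ≤ Dm (FF A f a) z := by
        nlinarith [sq_nonneg (‖cf (FF A f a) k z‖ - ‖(jac (FF A f a) z).det‖)]
      have h4 : |(dr φ z (cf (FF A f a) k z) *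
          conj ((jac (FF A f a) z).det * dr (w a) (FF A f a z) (ek k))).re| ≤
          P1 * (W a * ‖(ek k : V n)‖) * Dm (FF A f a) z := by
        refine (Complex.abs_re_le_norm _).trans ?_
        rw [norm_mul, RCLike.norm_conj, norm_mul]
        have h8 : 0 ≤ W a * ‖(ek k : V n)‖ := mul_nonneg (hW0 a) (norm_nonneg _)
        calc _ ≤ (P1 * ‖cf (FF A f a) k z‖) *
              (‖(jac (FF A f a) z).det‖ * (W a * ‖(ek k : V n)‖)) :=
              mul_le_mul h1 (mul_le_mul_of_nonneg_left h6 (norm_nonneg _)) (by positivity)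
                (by positivity)
          _ = P1 * (W a * ‖(ek k : V n)‖) *
              (‖cf (FF A f a) k z‖ * ‖(jac (FF A f a) z).det‖) := by ring
          _ ≤ _ := mul_le_mul_of_nonneg_left h7 (mul_nonneg hP1 h8)
      calc _ ≤ G0 * (P1 * (W a * ‖(ek k : V n)‖) * Dm (FF A f a) z) :=
            mul_le_mul (hG0b z hzK) h4 (abs_nonneg _) hG0
        _ = _ := by ring
  -- the key identity
  have key : ∀ a k, ∫ z in Oa A f I a, (a1 A w f φ g a k z + a2 A w f φ g a k z +
      a3 A w f φ g a k z) = 0 := by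
    intro a k
    set F := FF A f a with hF
    have hFc : ContDiffOn ℝ 1 F (Oa A f I a) :=
      ((hS n (V n) _ _ (hOa a) (hOF a)).2.1).of_le (by simp)
    have hmix : mix (fun i => Sum.inr i) F = F := rfl
    -- test functions
    set G : Fin n → V n → ℂ := fun i z => ((w a (F z) : ℝ) : ℂ) * (((g z : ℝ) : ℂ) *
      dr φ z (ek i)) with hG
    have hGc : ∀ i, ContDiffOn ℝ 1 (G i) (Oa A f I a) := by
      intro i
      have c1 : ContDiffOn ℝ 1 (fun z => ((w a (F z) : ℝ) : ℂ)) (Oa A f I a) :=
        Complex.ofRealCLM.contDiff.comp_contDiffOn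
          (((hw.smooth a).of_le (by simp)).comp_contDiffOn hFc)
      have c2 : ContDiffOn ℝ 1 (fun z => ((g z : ℝ) : ℂ)) (Oa A f I a) :=
        Complex.ofRealCLM.contDiff.comp_contDiffOn ((hg' a).of_le (by norm_num))
      exact c1.mul (c2.mul (contDiffOn_dr (hOa a) (hφa a) (ek i)))
    have hform : ∀ i, ∀ z ∈ Oa A f I a, dzb (G i) z (cf F k z) =
        ((w a (F z) : ℝ) : ℂ) * (((g z : ℝ) : ℂ) * dzb (fun x => dr φ x (ek i)) z (cf F k z) +
          dr φ z (ek i) * conj (dr g z (cf F k z))) +
        ((g z : ℝ) : ℂ) * dr φ z (ek i) * conj ((jac F z).det * dr (w a) (F z) (ek k)) := by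
      intro i z hz
      have hn := (hOa a).mem_nhds hz
      have d1 : DifferentiableAt ℝ (fun z => w a (F z)) z :=
        (((ContDiff.of_le (m := 1) (hw.smooth a) (by simp)).comp_contDiffOn hFc).differentiableOn
          (by norm_num)).differentiableAt hn
      have d1' : DifferentiableAt ℝ (fun z => ((w a (F z) : ℝ) : ℂ)) z :=
        Complex.ofRealCLM.differentiableAt.comp z d1
      have d2 : DifferentiableAt ℝ g z :=
        ((hg' a).differentiableOn (by norm_num)).differentiableAt hn
      have d2' : DifferentiableAt ℝ (fun z => ((g z : ℝ) : ℂ)) z :=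
        Complex.ofRealCLM.differentiableAt.comp z d2
      have d3 : DifferentiableAt ℝ (fun z => dr φ z (ek i)) z :=
        ((contDiffOn_dr (hOa a) (hφa a) (ek i)).differentiableOn (by norm_num)).differentiableAt hn
      have e1 := ((hPRD n z (cf F k z)).1 (fun z => ((w a (F z) : ℝ) : ℂ))
        (fun z => ((g z : ℝ) : ℂ) * dr φ z (ek i)) d1' (d2'.mul d3)).2
      have e2 := ((hPRD n z (cf F k z)).1 (fun z => ((g z : ℝ) : ℂ))
        (fun z => dr φ z (ek i)) d2' d3).2
      have e3 := ((hLIN n z).2.2.2.1 g (cf F k z) d2).2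
      have e4 := ((hLIN n z).2.2.2.1 (fun z => w a (F z)) (cf F k z) d1).2
      have e5 := (hCHR n (Oa A f I a) F (hOa a) (hOF a) z hz k).2.2.1 (w a)
        ((ContDiff.of_le (m := 1) (hw.smooth a) (by simp)).differentiable (by norm_num)).differentiableAt
      rw [hG]
      simp only at e1 e2 ⊢
      rw [e1, e2, e3, e4, e5]
    -- sum over i
    have hsum : ∀ z ∈ Oa A f I a, (∑ i, cf F k z i * dzb (G i) z (cf F k z)).re =
        a1 A w f φ g a k z + a2 A w f φ g a k z + a3 A w f φ g a k z := by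
      intro z hz
      have hn := (hOa a).mem_nhds hz
      have hφz : ContDiffAt ℝ 2 φ z := hφ.contDiffAt
      have l1 := ((hLVM n z (cf F k z)).2 φ hφz).2
      have l2 : ∀ i, dzb (fun x => dr φ x (ek i)) z (cf F k z) =
          ∑ j, conj (cf F k z j) * dzb (fun x => dr φ x (ek i)) z (ek j) := fun i =>
        ((hLIN n z).1 (fun x => dr φ x (ek i)) (cf F k z) 0 0).2.2.2.2.2.1 |> fun h => by
          have := ((hLIN n z).1 (fun x => dr φ x (ek i)) 0 (cf F k z) 0).2.2.2.2.2.1
          exact this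
      have l3 : dr φ z (cf F k z) = ∑ i, cf F k z i * dr φ z (ek i) :=
        ((hLIN n z).2.2.2.2 φ (cf F k z)).1
      have l4 : ∑ i, cf F k z i * dzb (G i) z (cf F k z) =
          ((w a (F z) : ℝ) : ℂ) * (((g z : ℝ) : ℂ) * ((lev φ z (cf F k z) : ℝ) : ℂ) +
            dr φ z (cf F k z) * conj (dr g z (cf F k z))) +
          ((g z : ℝ) : ℂ) * (dr φ z (cf F k z) *
            conj ((jac F z).det * dr (w a) (F z) (ek k))) := by
        rw [l1, l3]
        have m1 : ∀ i, cf F k z i * dzb (G i) z (cf F k z) =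
            ((w a (F z) : ℝ) : ℂ) * ((g z : ℝ) : ℂ) * (∑ j, cf F k z i * conj (cf F k z j) *
              dzb (fun x => dr φ x (ek i)) z (ek j)) +
            ((w a (F z) : ℝ) : ℂ) * conj (∑ j, cf F k z j * dr g z (ek j)) *
              (cf F k z i * dr φ z (ek i)) +
            ((g z : ℝ) : ℂ) * conj ((jac F z).det * dr (w a) (F z) (ek k)) *
              (cf F k z i * dr φ z (ek i)) := by
          intro i
          rw [hform i z hz, l2 i, ← ((hLIN n z).2.2.2.2 g (cf F k z)).1]
          have : ∑ j, cf F k z i * conj (cf F k z j) * dzb (fun x => dr φ x (ek i)) z (ek j) =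
              cf F k z i * ∑ j, conj (cf F k z j) * dzb (fun x => dr φ x (ek i)) z (ek j) := by
            rw [Finset.mul_sum]
            exact Finset.sum_congr rfl fun j _ => by ring
          rw [this]
          ring
        rw [Finset.sum_congr rfl fun i _ => m1 i, Finset.sum_add_distrib, Finset.sum_add_distrib,
          ← Finset.mul_sum, ← Finset.mul_sum, ← Finset.mul_sum,
          ← ((hLIN n z).2.2.2.2 g (cf F k z)).1]
        ring
      rw [l4]
      unfold a1 a2 a3
      simp only [Complex.add_re, Complex.re_ofReal_mul, ← Complex.ofReal_mul]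
      rw [← hF]
      simp only [Complex.ofReal_re]
      ring
    -- integrability and vanishing of each term
    have hVi : ∀ i, DifferentiableOn ℂ (fun z => cf F k z i) (Oa A f I a) := by
      intro i
      have h1 := (hPIO n (Oa A f I a) F (hOa a) (hOF a) k).1
      intro z hz
      exact (differentiableWithinAt_pi.1 (h1 z hz)) i
    have hdzc : ∀ i, ContinuousOn (fun z => dzb (G i) z (cf F k z)) (Oa A f I a) := fun i =>
      contOn_dzb (hOa a) (hGc i) (hV a k)
    have hGz : ∀ i z, z ∉ K → G i z = 0 := fun i z hz => by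
      rw [hG]; simp only; rw [hz2 z hz]; ring
    have hint : ∀ i, IntegrableOn (fun z => cf F k z i * dzb (G i) z (cf F k z))
        (Oa A f I a) := by
      intro i
      obtain ⟨Q, hQ0, hQ⟩ : ∃ Q : ℝ, 0 ≤ Q ∧ ∀ z ∈ K, ∀ v : V n,
          ‖dzb (fun x => dr φ x (ek i)) z v‖ ≤ Q * ‖v‖ := by
        have hc : ContinuousOn (fderiv ℝ (fun x => dr φ x (ek i))) (Dp n) :=
          (contDiffOn_dr hDp hφ' (ek i)).continuousOn_fderiv_of_isOpen hDp (by norm_num)
        obtain ⟨Q, hQ0, hQ⟩ := bd (fun z => ‖fderiv ℝ (fun x => dr φ x (ek i)) z‖) hc.norm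
        refine ⟨Q, hQ0, fun z hz v => ?_⟩
        have h1 := hQ z hz
        replace h1 := (le_abs_self _).trans h1
        set L := fderiv ℝ (fun x => dr φ x (ek i)) z with hL
        have h2 : ‖L v‖ ≤ Q * ‖v‖ :=
          (L.le_opNorm v).trans (mul_le_mul_of_nonneg_right h1 (norm_nonneg _))
        have h3 : ‖Complex.I * L (Complex.I • v)‖ ≤ Q * ‖v‖ := by
          rw [norm_mul, Complex.norm_I, one_mul]
          refine (L.le_opNorm _).trans ?_
          rw [norm_smul, Complex.norm_I, one_mul]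
          exact mul_le_mul_of_nonneg_right h1 (norm_nonneg _)
        unfold dzb
        rw [norm_div, Complex.norm_ofNat, div_le_iff₀ (by norm_num)]
        linarith [norm_add_le (L v) (Complex.I * L (Complex.I • v))]
      have hE : ‖(ek i : V n)‖ ≤ 1 := by
        unfold ek
        refine (pi_norm_le_iff_of_nonneg zero_le_one).2 fun j => ?_
        by_cases hj : j = i
        · subst hj; simp
        · rw [Pi.single_eq_of_ne hj]; simp
      have hE' : ‖(ek k : V n)‖ ≤ 1 := by
        unfold ek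
        refine (pi_norm_le_iff_of_nonneg zero_le_one).2 fun j => ?_
        by_cases hj : j = k
        · subst hj; simp
        · rw [Pi.single_eq_of_ne hj]; simp
      refine integrableOn_dom hO hf a hφs hKc
        (C := W a * (G0 * Q + P1 * G1) + G0 * P1 * W a) ?_ ?_
      · exact (hVi i).continuousOn.mul (hdzc i)
      · intro z hz h0
        have hzK : z ∈ K := by
          by_contra hn
          refine h0 ?_
          rw [hform i z hz, hz2 z hn]
          have : dzb (fun x => dr φ x (ek i)) z (cf F k z) = 0 := by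
            have h2 : (fun x => dr φ x (ek i)) =ᶠ[𝓝 z] fun _ => (0:ℂ) := by
              filter_upwards [(isClosed_tsupport φ).isOpen_compl.mem_nhds hn] with x hx
              exact hz2 x hx _
            unfold dzb
            rw [h2.fderiv_eq]
            simp
          rw [this]
          ring
        refine ⟨hzK, ?_⟩
        rw [norm_mul, hform i z hz]
        have hDz := hDm a z hz
        set v := cf F k z with hv
        have hv2 : ‖v‖ ^ 2 ≤ Dm F z := hDz.2.2 k
        have hvd : ‖v‖ * ‖(jac F z).det‖ ≤ Dm F z := by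
          nlinarith [sq_nonneg (‖v‖ - ‖(jac F z).det‖), hDz.2.1]
        have b1 : ‖v i‖ ≤ ‖v‖ := norm_le_pi_norm v i
        have b2 : ‖dr φ z (ek i)‖ ≤ P1 := by
          have h2 := hP1b z hzK
          replace h2 := (le_abs_self _).trans h2
          calc _ ≤ ‖fderiv ℝ φ z‖ * ‖(ek i : V n)‖ := norm_dr_le _ _ _
            _ ≤ P1 * 1 := mul_le_mul h2 hE (norm_nonneg _) hP1
            _ = P1 := mul_one _
        have b3 : ‖dr g z v‖ ≤ G1 * ‖v‖ := (drb a k z hz hzK).2
        have b4 : ‖dr (w a) (F z) (ek k)‖ ≤ W a := by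
          calc _ ≤ ‖fderiv ℝ (w a) (F z)‖ * ‖(ek k : V n)‖ := norm_dr_le _ _ _
            _ ≤ W a * 1 := mul_le_mul (hWb a _).2 hE' (norm_nonneg _) (hW0 a)
            _ = W a := mul_one _
        have b5 := hQ z hzK v
        have b6 : ‖((g z : ℝ) : ℂ)‖ ≤ G0 := by rw [Complex.norm_real]; exact hG0b z hzK
        have b7 : ‖((w a (F z) : ℝ) : ℂ)‖ ≤ W a := by rw [Complex.norm_real]; exact (hWb a _).1
        have c1 : ‖((g z : ℝ) : ℂ) * dzb (fun x => dr φ x (ek i)) z v +
            dr φ z (ek i) * conj (dr g z v)‖ ≤ (G0 * Q + P1 * G1) * ‖v‖ := by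
          refine (norm_add_le _ _).trans ?_
          rw [norm_mul, norm_mul, RCLike.norm_conj]
          have t1 : ‖((g z : ℝ) : ℂ)‖ * ‖dzb (fun x => dr φ x (ek i)) z v‖ ≤ G0 * (Q * ‖v‖) :=
            mul_le_mul b6 b5 (norm_nonneg _) hG0
          have t2 : ‖dr φ z (ek i)‖ * ‖dr g z v‖ ≤ P1 * (G1 * ‖v‖) :=
            mul_le_mul b2 b3 (norm_nonneg _) hP1
          nlinarith
        have c2 : ‖((g z : ℝ) : ℂ) * dr φ z (ek i) * conj ((jac F z).det *
            dr (w a) (F z) (ek k))‖ ≤ G0 * P1 * W a * ‖(jac F z).det‖ := by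
          rw [norm_mul, norm_mul, RCLike.norm_conj, norm_mul]
          have t1 : ‖((g z : ℝ) : ℂ)‖ * ‖dr φ z (ek i)‖ ≤ G0 * P1 :=
            mul_le_mul b6 b2 (norm_nonneg _) hG0
          have t2 : ‖(jac F z).det‖ * ‖dr (w a) (F z) (ek k)‖ ≤ ‖(jac F z).det‖ * W a :=
            mul_le_mul_of_nonneg_left b4 (norm_nonneg _)
          calc _ ≤ (G0 * P1) * (‖(jac F z).det‖ * W a) :=
                mul_le_mul t1 t2 (by positivity) (by positivity)
            _ = _ := by ring
        have c3 : ‖((w a (F z) : ℝ) : ℂ) * (((g z : ℝ) : ℂ) *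
            dzb (fun x => dr φ x (ek i)) z v + dr φ z (ek i) * conj (dr g z v)) +
            ((g z : ℝ) : ℂ) * dr φ z (ek i) * conj ((jac F z).det * dr (w a) (F z) (ek k))‖ ≤
            W a * ((G0 * Q + P1 * G1) * ‖v‖) + G0 * P1 * W a * ‖(jac F z).det‖ := by
          refine (norm_add_le _ _).trans (add_le_add ?_ c2)
          rw [norm_mul]
          exact mul_le_mul b7 c1 (norm_nonneg _) (hW0 a)
        have hc0 : 0 ≤ G0 * Q + P1 * G1 := by positivity
        calc _ ≤ ‖v‖ * (W a * ((G0 * Q + P1 * G1) * ‖v‖) +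
              G0 * P1 * W a * ‖(jac F z).det‖) :=
              mul_le_mul b1 c3 (norm_nonneg _) (norm_nonneg _)
          _ = W a * (G0 * Q + P1 * G1) * ‖v‖ ^ 2 +
              G0 * P1 * W a * (‖v‖ * ‖(jac F z).det‖) := by ring
          _ ≤ W a * (G0 * Q + P1 * G1) * Dm F z + G0 * P1 * W a * Dm F z :=
              add_le_add (mul_le_mul_of_nonneg_left hv2 (mul_nonneg (hW0 a) hc0))
                (mul_le_mul_of_nonneg_left hvd (mul_nonneg (mul_nonneg hG0 hP1) (hW0 a)))
          _ = _ := by ring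
    have hzero : ∀ i, ∫ z in Oa A f I a, cf F k z i * dzb (G i) z (cf F k z) = 0 := by
      intro i
      have h := hSFO n X ι A f I hf a (fun i => Sum.inr i) k K (3 / 2) (G i)
        (fun z => cf F k z i) hφs hKc (by norm_num) (hGc i) ?_ ?_ (hVi i) ?_ ?_
      · rw [← hF, hmix] at h
        exact h
      · intro z hz h0
        refine ⟨by_contra fun hn => h0 (hGz i z hn), hz.2.1, ?_⟩
        by_contra hn
        refine h0 ?_
        rw [hG]
        simp only
        have : w a (F z) = 0 := (w_zero (hw.supp a) hn).1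
        rw [this]
        simp
      · refine ⟨W a * (G0 * (P1 * ‖(ek i : V n)‖)), fun z hz => ?_⟩
        by_cases hzK : z ∈ K
        · rw [hG]
          simp only
          rw [norm_mul, norm_mul, Complex.norm_real, Complex.norm_real]
          have h2 := hP1b z hzK
          replace h2 := (le_abs_self _).trans h2
          refine mul_le_mul (hWb a _).1 (mul_le_mul (hG0b z hzK) ?_ (norm_nonneg _) hG0)
            (by positivity) (hW0 a)
          exact (norm_dr_le _ _ _).trans (mul_le_mul_of_nonneg_right h2 (norm_nonneg _))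
        · rw [hGz i z hzK]
          simp only [norm_zero]
          have := hW0 a
          positivity
      · refine lt_of_le_of_lt ?_ (lintegral_dom hO hf a hφs hKc (C := 1)
          (u := (K ∩ Cb A f a (3 / 2)).indicator
            (fun z => ENNReal.ofReal (‖cf F k z i‖ ^ 2))) ?_)
        · have hmK : MeasurableSet (Oa A f I a ∩ (K ∩ Cb A f a (3 / 2))) := by
            have h1 : Oa A f I a ∩ (K ∩ Cb A f a (3 / 2)) =
                Oa A f I a ∩ (K ∩ ((Dp n \ I) ∩ Cb A f a (3 / 2))) := by
              ext z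
              constructor
              · rintro ⟨h2, h3, h4⟩; exact ⟨h2, h3, h2.1, h4⟩
              · rintro ⟨h2, h3, _, h4⟩; exact ⟨h2, h3, h4⟩
            rw [h1]
            exact (hOa a).measurableSet.inter (hKc.measurableSet.inter
              (measurableSet_Cb hO hf a (by norm_num)))
          calc ∫⁻ z in Oa A f I a ∩ (K ∩ Cb A f a (3 / 2)), ENNReal.ofReal (‖cf F k z i‖ ^ 2)
              = ∫⁻ z in Oa A f I a ∩ (K ∩ Cb A f a (3 / 2)), (K ∩ Cb A f a (3 / 2)).indicator
                (fun z => ENNReal.ofReal (‖cf F k z i‖ ^ 2)) z :=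
                setLIntegral_congr_fun hmK fun z hz => by
                  rw [indicator_of_mem hz.2]
            _ ≤ _ := lintegral_mono_set inter_subset_left
        · intro z hz h0
          have hz' : z ∈ K ∩ Cb A f a (3 / 2) := by
            by_contra hn; exact h0 (indicator_of_notMem hn _)
          refine ⟨hz'.1, ?_⟩
          rw [indicator_of_mem hz', one_mul]
          refine ENNReal.ofReal_le_ofReal (le_trans ?_ ((hDm a z hz).2.2 k))
          exact pow_le_pow_left₀ (norm_nonneg _) (norm_le_pi_norm _ i) 2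
      · rw [← hF, hmix]
        exact hint i
    have htot : ∫ z in Oa A f I a, ∑ i, cf F k z i * dzb (G i) z (cf F k z) = 0 := by
      rw [integral_finsetSum _ fun i _ => hint i]
      exact Finset.sum_eq_zero fun i _ => hzero i
    have hre : ∫ z in Oa A f I a, (∑ i, cf F k z i * dzb (G i) z (cf F k z)).re = 0 := by
      have h1 : IntegrableOn (fun z => ∑ i, cf F k z i * dzb (G i) z (cf F k z)) (Oa A f I a) :=
        integrable_finsetSum _ fun i _ => hint i
      have h2 := integral_re (𝕜 := ℂ) h1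
      rw [htot] at h2
      simpa using h2
    rw [← hre]
    exact setIntegral_congr_fun (hOa a).measurableSet fun z hz => (hsum z hz).symm
  -- consequences
  have key' : ∀ a k, (∫ z in Oa A f I a, a1 A w f φ g a k z) +
      (∫ z in Oa A f I a, a2 A w f φ g a k z) + (∫ z in Oa A f I a, a3 A w f φ g a k z) = 0 := by
    intro a k
    have h1 := integral_add (i1 a k) (i2 a k)
    have h2 := integral_add ((i1 a k).add (i2 a k)) (i3 a k)
    have h3 := key a k
    simp only [Pi.add_apply] at h1 h2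
    linarith
  -- from `Dp \ I` to `Oa`
  have conv : ∀ (a : ι) (u : V n → ℝ), (∀ z ∈ (Dp n \ I) \ Oa A f I a, u z = 0) →
      IntegrableOn u (Oa A f I a) →
      IntegrableOn u (Dp n \ I) ∧ ∫ z in Dp n \ I, u z = ∫ z in Oa A f I a, u z := by
    intro a u hu hi
    refine ⟨?_, ?_⟩
    · refine hi.of_forall_sdiff_eq_zero hf.opn.measurableSet fun z hz => hu z hz
    · exact setIntegral_eq_of_subset_of_forall_sdiff_eq_zero hf.opn.measurableSet (hsub' a) hu
  have hWt0 : ∀ a, ∀ z ∈ (Dp n \ I) \ Oa A f I a, Wt A w a (f z) = 0 := by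
    intro a z hz
    unfold Wt
    by_cases hs : f z ∈ (A.φ a).source
    · rw [indicator_of_mem hs]
      by_contra h0
      exact hz.2 ⟨hz.1, hs, Metric.closedBall_subset_ball (by norm_num) (hw.supp a _ h0)⟩
    · rw [indicator_of_notMem hs]
  have hWt1 : ∀ a, ∀ z ∈ Oa A f I a, Wt A w a (f z) = w a (FF A f a z) := by
    intro a z hz
    unfold Wt
    rw [indicator_of_mem hz.2.1]
    rfl
  -- pieces on `Dp \ I`
  have c1 : ∀ (p q : V n → ℝ), (∀ a k, IntegrableOn (a1 A w f p q a k) (Oa A f I a)) →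
      IntegrableOn (fun z => q z * LL A w f p z) (Dp n \ I) ∧
      ∫ z in Dp n \ I, q z * LL A w f p z = ∑ a, ∑ k, ∫ z in Oa A f I a, a1 A w f p q a k z := by
    intro p q hi
    have e1 : ∀ z, q z * LL A w f p z = ∑ a, ∑ k,
        Wt A w a (f z) * (q z * lev p z (cf (FF A f a) k z)) := by
      intro z
      unfold LL
      rw [Finset.mul_sum]
      refine Finset.sum_congr rfl fun a _ => ?_
      rw [Finset.mul_sum, Finset.mul_sum]
      exact Finset.sum_congr rfl fun k _ => by ring
    have e2 : ∀ a k, IntegrableOn (fun z => Wt A w a (f z) *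
        (q z * lev p z (cf (FF A f a) k z))) (Oa A f I a) := fun a k =>
      (hi a k).congr_fun (fun z hz => by
        simp only [a1]
        rw [hWt1 a z hz]) (hOa a).measurableSet
    have e3 := fun a k => conv a (fun z => Wt A w a (f z) * (q z * lev p z (cf (FF A f a) k z)))
      (fun z hz => by rw [hWt0 a z hz]; ring) (e2 a k)
    constructor
    · refine (integrable_finsetSum Finset.univ fun a _ =>
        integrable_finsetSum Finset.univ fun k _ => (e3 a k).1).congr ?_
      exact Filter.Eventually.of_forall fun z => (e1 z).symm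
    · rw [integral_congr_ae (Filter.Eventually.of_forall e1)]
      rw [integral_finsetSum _ fun a _ => integrable_finsetSum _ fun k _ => (e3 a k).1]
      refine Finset.sum_congr rfl fun a _ => ?_
      rw [integral_finsetSum _ fun k _ => (e3 a k).1]
      refine Finset.sum_congr rfl fun k _ => ?_
      rw [(e3 a k).2]
      exact setIntegral_congr_fun (hOa a).measurableSet fun z hz => by
        simp only [a1]
        rw [hWt1 a z hz]
  obtain ⟨j4, J4⟩ := c1 g φ i4
  obtain ⟨j1, J1⟩ := c1 φ g i1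
  -- the cross term
  have c2 : IntegrableOn (fun z => ∑ a, ∑ k, Wt A w a (f z) *
      (dr φ z (cf (FF A f a) k z) * conj (dr g z (cf (FF A f a) k z))).re) (Dp n \ I) ∧
      ∫ z in Dp n \ I, ∑ a, ∑ k, Wt A w a (f z) *
        (dr φ z (cf (FF A f a) k z) * conj (dr g z (cf (FF A f a) k z))).re
      = ∑ a, ∑ k, ∫ z in Oa A f I a, a2 A w f φ g a k z := by
    have e2 : ∀ a k, IntegrableOn (fun z => Wt A w a (f z) *
        (dr φ z (cf (FF A f a) k z) * conj (dr g z (cf (FF A f a) k z))).re) (Oa A f I a) :=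
      fun a k => (i2 a k).congr_fun (fun z hz => by
        simp only [a2]
        rw [hWt1 a z hz]) (hOa a).measurableSet
    have e3 := fun a k => conv a (fun z => Wt A w a (f z) *
        (dr φ z (cf (FF A f a) k z) * conj (dr g z (cf (FF A f a) k z))).re)
      (fun z hz => by rw [hWt0 a z hz]; ring) (e2 a k)
    refine ⟨integrable_finsetSum Finset.univ fun a _ =>
        integrable_finsetSum Finset.univ fun k _ => (e3 a k).1, ?_⟩
    rw [integral_finsetSum _ fun a _ => integrable_finsetSum _ fun k _ => (e3 a k).1]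
    refine Finset.sum_congr rfl fun a _ => ?_
    rw [integral_finsetSum _ fun k _ => (e3 a k).1]
    refine Finset.sum_congr rfl fun k _ => ?_
    rw [(e3 a k).2]
    exact setIntegral_congr_fun (hOa a).measurableSet fun z hz => by
      simp only [a2]
      rw [hWt1 a z hz]
  obtain ⟨j2, J2⟩ := c2
  -- the third term
  have c3 : IntegrableOn (fun z => ∑ a, ((A.φ a).source).indicator (fun _ => ∑ k,
      g z * (dr φ z (cf (FF A f a) k z) *
        conj ((jac (FF A f a) z).det * dr (w a) (FF A f a z) (ek k))).re) (f z)) (Dp n \ I) ∧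
      ∫ z in Dp n \ I, ∑ a, ((A.φ a).source).indicator (fun _ => ∑ k,
      g z * (dr φ z (cf (FF A f a) k z) *
        conj ((jac (FF A f a) z).det * dr (w a) (FF A f a z) (ek k))).re) (f z)
      = ∑ a, ∑ k, ∫ z in Oa A f I a, a3 A w f φ g a k z := by
    have e2 : ∀ a, IntegrableOn (fun z => ((A.φ a).source).indicator (fun _ => ∑ k,
        g z * (dr φ z (cf (FF A f a) k z) *
          conj ((jac (FF A f a) z).det * dr (w a) (FF A f a z) (ek k))).re) (f z))
          (Oa A f I a) := fun a =>
      (integrable_finsetSum Finset.univ fun k _ => (i3 a k)).congr (by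
        filter_upwards [ae_restrict_mem (hOa a).measurableSet] with z hz
        rw [indicator_of_mem hz.2.1]
        rfl)
    have e3 := fun a => conv a _ (fun z hz => by
      by_cases hs : f z ∈ (A.φ a).source
      · have hn : FF A f a z ∉ Metric.closedBall (0 : V n) (3 / 2) := fun hcon =>
          hz.2 ⟨hz.1, hs, Metric.closedBall_subset_ball (by norm_num) hcon⟩
        have h0 := (w_zero (hw.supp a) hn).2
        rw [indicator_of_mem hs]
        refine Finset.sum_eq_zero fun k _ => ?_
        rw [dr_eq_zero h0]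
        simp
      · exact indicator_of_notMem hs _) (e2 a)
    refine ⟨integrable_finsetSum Finset.univ fun a _ => (e3 a).1, ?_⟩
    rw [integral_finsetSum _ fun a _ => (e3 a).1]
    refine Finset.sum_congr rfl fun a _ => ?_
    rw [(e3 a).2, ← integral_finsetSum _ fun k _ => i3 a k]
    refine setIntegral_congr_fun (hOa a).measurableSet fun z hz => ?_
    rw [indicator_of_mem hz.2.1]
    rfl
  obtain ⟨j3, J3⟩ := c3
  have hLLs : ∀ z, g z * LLs A w f φ z = g z * LL A w f φ z + 2 * ∑ a,
      ((A.φ a).source).indicator (fun _ => ∑ k,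
      g z * (dr φ z (cf (FF A f a) k z) *
        conj ((jac (FF A f a) z).det * dr (w a) (FF A f a z) (ek k))).re) (f z) := by
    intro z
    unfold LLs
    have : ∑ a, ((A.φ a).source).indicator (fun _ => ∑ k,
        g z * (dr φ z (cf (FF A f a) k z) *
        conj ((jac (FF A f a) z).det * dr (w a) (FF A f a z) (ek k))).re) (f z) =
        g z * ∑ a, ((A.φ a).source).indicator (fun _ => ∑ k,
        (dr φ z (cf (FF A f a) k z) *
        conj ((jac (FF A f a) z).det * dr (w a) (FF A f a z) (ek k))).re) (f z) := by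
      rw [Finset.mul_sum]
      refine Finset.sum_congr rfl fun a _ => ?_
      by_cases hs : f z ∈ (A.φ a).source
      · rw [indicator_of_mem hs, indicator_of_mem hs, Finset.mul_sum]
      · rw [indicator_of_notMem hs, indicator_of_notMem hs, mul_zero]
    rw [this]
    ring
  -- the divergence identity for `φ g`
  have hsta : ∫ z in Dp n \ I, LL A w f (fun x => φ x * g x) z = 0 := by
    refine (hSTA n X ι A w f I hw hf (fun x => φ x * g x) ?_ ?_ ?_).2
    · rw [contDiff_iff_contDiffAt]
      intro z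
      by_cases hz : z ∈ Dp n
      · exact hφ.contDiffAt.mul (hg.contDiffAt (hDp.mem_nhds hz))
      · have hzK : z ∉ K := fun h => hz (hφs h)
        have : (fun x => φ x * g x) =ᶠ[𝓝 z] fun _ => (0:ℝ) := by
          filter_upwards [(isClosed_tsupport φ).isOpen_compl.mem_nhds hzK] with x hx
          rw [hz1 x hx, zero_mul]
        exact contDiffAt_const.congr_of_eventuallyEq this
    · exact hφc.mul_right
    · exact (tsupport_mul_subset_left).trans hφs
  have hexp : ∀ z ∈ Dp n \ I, LL A w f (fun x => φ x * g x) z =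
      φ z * LL A w f g z + g z * LL A w f φ z + 2 * ∑ a, ∑ k, Wt A w a (f z) *
        (dr φ z (cf (FF A f a) k z) * conj (dr g z (cf (FF A f a) k z))).re := by
    intro z hz
    have hgz : ContDiffAt ℝ 2 g z := hg.contDiffAt (hDp.mem_nhds hz.1)
    unfold LL
    rw [Finset.mul_sum, Finset.mul_sum, Finset.mul_sum, ← Finset.sum_add_distrib,
      ← Finset.sum_add_distrib]
    refine Finset.sum_congr rfl fun a _ => ?_
    rw [Finset.mul_sum, Finset.mul_sum, Finset.mul_sum, Finset.mul_sum, Finset.mul_sum,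
      Finset.mul_sum, ← Finset.sum_add_distrib, ← Finset.sum_add_distrib]
    refine Finset.sum_congr rfl fun k _ => ?_
    rw [(hPRD n z (cf (FF A f a) k z)).2.2.1 φ g hφ.contDiffAt hgz]
    ring
  rw [setIntegral_congr_fun hf.opn.measurableSet hexp] at hsta
  have hsta' : (∫ z in Dp n \ I, φ z * LL A w f g z) + (∫ z in Dp n \ I, g z * LL A w f φ z) +
      2 * ∫ z in Dp n \ I, ∑ a, ∑ k, Wt A w a (f z) *
        (dr φ z (cf (FF A f a) k z) * conj (dr g z (cf (FF A f a) k z))).re = 0 := by
    have h1 := integral_add j4 j1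
    have h2 := integral_add (j4.add j1) (j2.const_mul 2)
    have h3 := integral_const_mul (μ := volume.restrict (Dp n \ I)) (2:ℝ) (fun z => ∑ a, ∑ k,
      Wt A w a (f z) *
        (dr φ z (cf (FF A f a) k z) * conj (dr g z (cf (FF A f a) k z))).re)
    simp only [Pi.add_apply] at h1 h2
    linarith
  have hfin1 : IntegrableOn (fun z => g z * LLs A w f φ z) (Dp n \ I) := by
    refine (j1.add (j3.const_mul 2)).congr ?_
    exact Filter.Eventually.of_forall fun z => (hLLs z).symm
  refine ⟨j4, hfin1, ?_⟩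
  have hfin2 : ∫ z in Dp n \ I, g z * LLs A w f φ z = (∫ z in Dp n \ I, g z * LL A w f φ z) +
      2 * ∑ a, ∑ k, ∫ z in Oa A f I a, a3 A w f φ g a k z := by
    rw [← J3, ← integral_const_mul, ← integral_add j1 (j3.const_mul 2)]
    exact integral_congr_ae (Filter.Eventually.of_forall hLLs)
  have hkey : (∑ a, ∑ k, ∫ z in Oa A f I a, a1 A w f φ g a k z) +
      (∑ a, ∑ k, ∫ z in Oa A f I a, a2 A w f φ g a k z) +
      (∑ a, ∑ k, ∫ z in Oa A f I a, a3 A w f φ g a k z) = 0 := by
    rw [← Finset.sum_add_distrib, ← Finset.sum_add_distrib]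
    refine Finset.sum_eq_zero fun a _ => ?_
    rw [← Finset.sum_add_distrib, ← Finset.sum_add_distrib]
    exact Finset.sum_eq_zero fun k _ => key' a k
  rw [hfin2]
  rw [J2, J1] at hsta'
  rw [J1]
  linarith

end Pool.Agent.H15.VG
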