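import Mathlib
import Pool.Agent.H95.VG.Targets1

/-!
# VG module CMP: comparison of charts (helper15)
-/

open MeasureTheory Set Filter Topology
open scoped ENNReal NNReal ContDiff ComplexConjugate

namespace Pool.Agent.H15.VG

open Pool.Agent.H95.VG

variable {n : ℕ}

/-- a nonnegative function with the parallelogram bound and homogeneity -/
structure QF (Q : V n → ℝ) : Prop where
  nn : ∀ v, 0 ≤ Q v
  par : ∀ u v, Q (u + v) ≤ 2 * Q u + 2 * Q v
  hom : ∀ (c : ℂ) v, Q (c • v) = ‖c‖ ^ 2 * Q v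

theorem QF.sum {Q : V n → ℝ} (hQ : QF Q) {κ : Type*} [DecidableEq κ] (s : Finset κ) (c : κ → ℂ)
    (v : κ → V n) :
    Q (∑ l ∈ s, c l • v l) ≤ 2 ^ s.card * ∑ l ∈ s, ‖c l‖ ^ 2 * Q (v l) := by
  classical
  induction s using Finset.induction_on with
  | empty =>
    have h0 : Q 0 = 0 := by
      have := hQ.hom 0 0
      simpa using this
    simp [h0]
  | insert a s ha ih =>
    rw [Finset.sum_insert ha, Finset.sum_insert ha, Finset.card_insert_of_notMem ha]
    have h1 := hQ.par (c a • v a) (∑ l ∈ s, c l • v l)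
    rw [hQ.hom] at h1
    have h2 : (0:ℝ) ≤ ‖c a‖ ^ 2 * Q (v a) := mul_nonneg (sq_nonneg _) (hQ.nn _)
    have h3 : (1:ℝ) ≤ 2 ^ s.card := one_le_pow₀ (by norm_num)
    have h4 : (0:ℝ) ≤ 2 ^ s.card * ∑ l ∈ s, ‖c l‖ ^ 2 * Q (v l) :=
      mul_nonneg (by positivity) (Finset.sum_nonneg fun l _ => mul_nonneg (sq_nonneg _) (hQ.nn _))
    have h5 : (0:ℝ) ≤ (2 ^ s.card - 1) * (‖c a‖ ^ 2 * Q (v a)) :=
      mul_nonneg (by linarith) h2
    rw [pow_succ]
    nlinarith

/-- the Levi form is such a function -/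
theorem qf_lev (hL : T_LVM) {g : V n → ℝ} {z : V n} (hg : ContDiffAt ℝ 2 g z)
    (hp : ∀ v, 0 ≤ lev g z v) : QF (lev g z) := by
  have key : ∀ v : V n, ((lev g z v : ℝ) : ℂ) = ∑ i, ∑ j, v i * conj (v j) *
      dzb (fun x => dr g x (ek i)) z (ek j) := fun v => ((hL n z v).2 g hg).2
  constructor
  · exact hp
  · intro u v
    have h : ((lev g z (u + v) : ℝ) : ℂ) + ((lev g z (u + (-1 : ℂ) • v) : ℝ) : ℂ)
        = 2 * ((lev g z u : ℝ) : ℂ) + 2 * ((lev g z v : ℝ) : ℂ) := by
      rw [key, key, key, key, Finset.mul_sum, Finset.mul_sum, ← Finset.sum_add_distrib,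
        ← Finset.sum_add_distrib]
      refine Finset.sum_congr rfl fun i _ => ?_
      rw [Finset.mul_sum, Finset.mul_sum, ← Finset.sum_add_distrib, ← Finset.sum_add_distrib]
      refine Finset.sum_congr rfl fun j _ => ?_
      simp only [Pi.add_apply, Pi.smul_apply, smul_eq_mul, map_add, map_mul, map_neg, map_one]
      ring
    have h' : lev g z (u + v) + lev g z (u + (-1 : ℂ) • v) = 2 * lev g z u + 2 * lev g z v := by
      exact_mod_cast h
    have := hp (u + (-1 : ℂ) • v)
    linarith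
  · intro c v
    have h : ((lev g z (c • v) : ℝ) : ℂ) = ((‖c‖ ^ 2 * lev g z v : ℝ) : ℂ) := by
      rw [key]
      push_cast
      rw [key, Finset.mul_sum]
      refine Finset.sum_congr rfl fun i _ => ?_
      rw [Finset.mul_sum]
      refine Finset.sum_congr rfl fun j _ => ?_
      simp only [Pi.smul_apply, smul_eq_mul, map_mul]
      have : c * conj c = (‖c‖ : ℂ) ^ 2 := by
        rw [Complex.mul_conj, Complex.normSq_eq_norm_sq]; push_cast; ring
      rw [← this]; ring
    exact_mod_cast h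

theorem dr_add (g : V n → ℝ) (z u v : V n) : dr g z (u + v) = dr g z u + dr g z v := by
  unfold dr
  rw [smul_add, map_add, map_add]
  push_cast
  ring

theorem dr_smul (g : V n → ℝ) (z : V n) (c : ℂ) (v : V n) : dr g z (c • v) = c * dr g z v := by
  unfold dr
  have h1 : c • v = c.re • v + c.im • (Complex.I • v) := by
    ext i
    simp only [Pi.smul_apply, Pi.add_apply, smul_eq_mul, Complex.real_smul]
    conv_lhs => rw [← Complex.re_add_im c]
    ring
  have h2 : Complex.I • c • v = c.re • (Complex.I • v) + (-c.im) • v := by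
    ext i
    simp only [Pi.smul_apply, Pi.add_apply, smul_eq_mul, Complex.real_smul]
    conv_lhs => rw [← Complex.re_add_im c]
    push_cast
    linear_combination (c.im * v i) * Complex.I_mul_I
  have h3 : fderiv ℝ g z (c • v) = c.re * fderiv ℝ g z v + c.im * fderiv ℝ g z (Complex.I • v) := by
    rw [h1, map_add, (fderiv ℝ g z).map_smul, (fderiv ℝ g z).map_smul]
    rfl
  have h4 : fderiv ℝ g z (Complex.I • c • v) =
      c.re * fderiv ℝ g z (Complex.I • v) + (-c.im) * fderiv ℝ g z v := by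
    rw [h2, map_add, (fderiv ℝ g z).map_smul, (fderiv ℝ g z).map_smul]
    rfl
  rw [h3, h4]
  push_cast
  conv_rhs => rw [← Complex.re_add_im c]
  linear_combination (c.im * (fderiv ℝ g z (Complex.I • v) : ℂ) / 2) * Complex.I_mul_I

/-- the gradient energy is such a function -/
theorem qf_ge (g : V n → ℝ) (z : V n) : QF (ge g z) := by
  constructor
  · intro v; exact sq_nonneg _
  · intro u v
    unfold ge
    rw [dr_add]
    have h := norm_add_le (dr g z u) (dr g z v)
    have h2 : ‖dr g z u + dr g z v‖ ^ 2 ≤ (‖dr g z u‖ + ‖dr g z v‖) ^ 2 :=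
      pow_le_pow_left₀ (norm_nonneg _) h 2
    nlinarith [sq_nonneg (‖dr g z u‖ - ‖dr g z v‖)]
  · intro c v
    unfold ge
    rw [dr_smul, norm_mul, mul_pow]

/-- entries of the cofactor fields of a product -/
theorem cf_mul {Y Y' : V n → V n} {z : V n} {T : Matrix (Fin n) (Fin n) ℂ}
    (h : jac Y z = T * jac Y' z) (k : Fin n) :
    cf Y k z = ∑ l, T.adjugate l k • cf Y' l z := by
  ext i
  unfold cf
  rw [h, Matrix.adjugate_mul_distrib, Matrix.mul_apply, Finset.sum_apply]
  refine Finset.sum_congr rfl fun l _ => ?_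
  simp only [Pi.smul_apply, smul_eq_mul]
  ring

variable {X : Type} [TopologicalSpace X] {ι : Type}

theorem isCompact_Kb [T2Space X] (A : Atl n X ι) (a b : ι) :
    IsCompact ((A.φ a).symm '' Metric.closedBall 0 2 ∩ (A.φ b).symm '' Metric.closedBall 0 2) := by
  have h : ∀ c, IsCompact ((A.φ c).symm '' Metric.closedBall (0 : V n) 2) := by
    intro c
    refine (isCompact_closedBall (0 : V n) 2).image_of_continuousOn ?_
    refine (A.φ c).continuousOn_symm.mono ?_
    exact (Metric.closedBall_subset_closedBall (by norm_num)).trans (A.ball c)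
  exact (h a).inter (h b)

/-- the transition Jacobian depends continuously on the point -/
theorem continuousOn_TT (hS : T_SMO) (A : Atl n X ι) (a b : ι) :
    ContinuousOn (fun x => jac (fun y => A.φ a ((A.φ b).symm y)) (A.φ b x))
      ((A.φ a).source ∩ (A.φ b).source) := by
  have hO : IsOpen ((A.φ b).symm.trans (A.φ a)).source :=
    ((A.φ b).symm.trans (A.φ a)).open_source
  have hY := A.hol b a
  have hm : MapsTo (fun x => A.φ b x) ((A.φ a).source ∩ (A.φ b).source)
      ((A.φ b).symm.trans (A.φ a)).source := by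
    intro x hx
    simp only [OpenPartialHomeomorph.trans_source, mem_inter_iff, mem_preimage,
      OpenPartialHomeomorph.symm_source]
    exact ⟨(A.φ b).map_source hx.2, by rw [(A.φ b).left_inv hx.2]; exact hx.1⟩
  have hfd : ∀ v, ContinuousOn (fun y => fderiv ℂ (fun y => A.φ a ((A.φ b).symm y)) y v)
      ((A.φ b).symm.trans (A.φ a)).source := fun v =>
    ((hS n (V n) _ _ hO hY).2.2 v).continuousOn
  have hc : ContinuousOn (A.φ b) ((A.φ a).source ∩ (A.φ b).source) :=
    (A.φ b).continuousOn.mono inter_subset_right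
  have hJ : ContinuousOn (jac (fun y => A.φ a ((A.φ b).symm y)))
      ((A.φ b).symm.trans (A.φ a)).source := by
    refine continuousOn_pi.2 fun i => continuousOn_pi.2 fun j => ?_
    exact (continuous_apply i).comp_continuousOn (hfd (ek j))
  exact hJ.comp hc hm

/-- continuous functions of the transition Jacobian are bounded -/
theorem exists_bound_TT [T2Space X] [Fintype ι] (hS : T_SMO) (A : Atl n X ι)
    (Ψ : Matrix (Fin n) (Fin n) ℂ → ℝ) (hΨ : Continuous Ψ) :
    ∃ M : ℝ, 1 ≤ M ∧ ∀ a b x, x ∈ (A.φ a).source → x ∈ (A.φ b).source →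
      A.φ a x ∈ Metric.closedBall (0 : V n) 2 → A.φ b x ∈ Metric.closedBall (0 : V n) 2 →
      Ψ (jac (fun y => A.φ a ((A.φ b).symm y)) (A.φ b x)) ≤ M := by
  have h1 : ∀ a b, ∃ M : ℝ, ∀ x ∈ (A.φ a).symm '' Metric.closedBall 0 2 ∩
      (A.φ b).symm '' Metric.closedBall 0 2,
      Ψ (jac (fun y => A.φ a ((A.φ b).symm y)) (A.φ b x)) ≤ M := by
    intro a b
    have hc : ContinuousOn (fun x => Ψ (jac (fun y => A.φ a ((A.φ b).symm y)) (A.φ b x)))
        ((A.φ a).symm '' Metric.closedBall 0 2 ∩ (A.φ b).symm '' Metric.closedBall 0 2) := by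
      refine (hΨ.comp_continuousOn (continuousOn_TT hS A a b)).mono ?_
      rintro x ⟨⟨y, hy, rfl⟩, ⟨y', hy', hyy⟩⟩
      refine ⟨(A.φ a).map_target (A.ball a (Metric.closedBall_subset_closedBall (by norm_num) hy)),
        ?_⟩
      rw [← hyy]
      exact (A.φ b).map_target (A.ball b (Metric.closedBall_subset_closedBall (by norm_num) hy'))
    obtain ⟨M, hM⟩ := (isCompact_Kb A a b).bddAbove_image hc
    exact ⟨M, fun x hx => hM (mem_image_of_mem _ hx)⟩
  choose M hM using h1
  refine ⟨1 + ∑ a, ∑ b, |M a b|, ?_, ?_⟩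
  · have : (0:ℝ) ≤ ∑ a, ∑ b, |M a b| :=
      Finset.sum_nonneg fun a _ => Finset.sum_nonneg fun b _ => abs_nonneg _
    linarith
  · intro a b x ha hb hxa hxb
    have h := hM a b x ⟨⟨A.φ a x, hxa, (A.φ a).left_inv ha⟩, ⟨A.φ b x, hxb, (A.φ b).left_inv hb⟩⟩
    have h2 : |M a b| ≤ ∑ b, |M a b| :=
      Finset.single_le_sum (f := fun b => |M a b|) (fun b _ => abs_nonneg _) (Finset.mem_univ b)
    have h3 : ∑ b, |M a b| ≤ ∑ a, ∑ b, |M a b| :=
      Finset.single_le_sum (f := fun a => ∑ b, |M a b|)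
        (fun a _ => Finset.sum_nonneg fun b _ => abs_nonneg _) (Finset.mem_univ a)
    have h4 := le_abs_self (M a b)
    linarith

/-- lower bound of the weights on the unit polydiscs, upper bound everywhere -/
theorem exists_bounds_w [Fintype ι] (A : Atl n X ι) {w : ι → V n → ℝ} (hw : Gau A w) :
    ∃ c W : ℝ, 0 < c ∧ 1 ≤ W ∧ (∀ a, ∀ y ∈ Metric.closedBall (0 : V n) 1, c ≤ w a y) ∧
      ∀ a y, w a y ≤ W := by
  have h1 : ∀ a, ∃ c : ℝ, 0 < c ∧ ∀ y ∈ Metric.closedBall (0 : V n) 1, c ≤ w a y := by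
    intro a
    obtain ⟨y0, hy0, hmin⟩ := (isCompact_closedBall (0 : V n) 1).exists_isMinOn
      (Metric.nonempty_closedBall.2 (by norm_num)) (hw.smooth a).continuous.continuousOn
    exact ⟨w a y0, hw.pos a y0 hy0, fun y hy => hmin hy⟩
  have h2 : ∀ a, ∃ W : ℝ, 0 ≤ W ∧ ∀ y, w a y ≤ W := by
    intro a
    obtain ⟨W, hW⟩ := (isCompact_closedBall (0 : V n) (3 / 2)).bddAbove_image
      (hw.smooth a).continuous.continuousOn
    refine ⟨max W 0, le_max_right _ _, fun y => ?_⟩
    by_cases hy : w a y = 0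
    · rw [hy]; exact le_max_right _ _
    · exact (hW (mem_image_of_mem _ (hw.supp a y hy))).trans (le_max_left _ _)
  choose c hc hc' using h1
  choose W hW hW' using h2
  by_cases hne : Nonempty ι
  · obtain ⟨a0, -, ha0⟩ := Finset.exists_min_image Finset.univ c
      ⟨hne.some, Finset.mem_univ _⟩
    refine ⟨c a0, 1 + ∑ a, W a, hc a0, ?_, fun a y hy => (ha0 a (Finset.mem_univ a)).trans (hc' a y hy), ?_⟩
    · have := Finset.sum_nonneg fun a (_ : a ∈ Finset.univ) => hW a
      linarith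
    · intro a y
      have := Finset.single_le_sum (fun a _ => hW a) (Finset.mem_univ a)
      linarith [hW' a y]
  · have := not_nonempty_iff.1 hne
    exact ⟨1, 1, by norm_num, le_rfl, fun a => isEmptyElim a, fun a => isEmptyElim a⟩

theorem cmp (hS : T_SMO) (hL : T_LVM) (hO : T_OAO) : T_CMP := by
  intro n X _ _ _ ι _ A w hw
  obtain ⟨D, hD1, hD⟩ := exists_bound_TT hS A (fun T => ‖T.det‖ ^ 2) (by fun_prop)
  obtain ⟨E, hE1, hE⟩ := exists_bound_TT hS A (fun T => ∑ k, ∑ l, ‖T.adjugate l k‖ ^ 2)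
    (by
      refine continuous_finsetSum _ fun k _ => continuous_finsetSum _ fun l _ => ?_
      exact (((continuous_id.matrix_adjugate).matrix_elem l k).norm).pow 2)
  obtain ⟨c, W, hc, hW1, hcw, hWw⟩ := exists_bounds_w A hw
  have hcard : (0:ℝ) ≤ (Fintype.card ι : ℝ) := Nat.cast_nonneg _
  set C : ℝ := D / c + (Fintype.card ι : ℝ) * W * D + 2 ^ n * E / c with hC
  have hC1 : 0 ≤ D / c := by positivity
  have hC2 : 0 ≤ (Fintype.card ι : ℝ) * W * D := by positivity
  have hC3 : 0 ≤ 2 ^ n * E / c := by positivity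
  have hCpos : 0 < C := by
    have : 0 < D / c := by positivity
    rw [hC]; linarith
  refine ⟨C, hCpos, ?_⟩
  intro f I hf z hz a hza
  have hWt : ∀ b x, 0 ≤ Wt A w b x := by
    intro b x
    unfold Wt
    exact indicator_nonneg (fun x _ => hw.nonneg b _) x
  have hWtle : ∀ b x, Wt A w b x ≤ W := by
    intro b x
    unfold Wt
    by_cases hx : x ∈ (A.φ b).source
    · rw [indicator_of_mem hx]; exact hWw b _
    · rw [indicator_of_notMem hx]; linarith
  -- good chart
  obtain ⟨b, hb, hb1⟩ := A.cover (f z)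
  have hb1' : A.φ b (f z) ∈ Metric.closedBall (0 : V n) 1 := Metric.ball_subset_closedBall hb1
  have hb2 : A.φ b (f z) ∈ Metric.closedBall (0 : V n) 2 :=
    Metric.closedBall_subset_closedBall (by norm_num) hb1'
  have hjab := (hO n X ι A f I hf a).2.2.2.2.2 b z hz hza.1 hb
  have hWb : c ≤ Wt A w b (f z) := by
    unfold Wt; rw [indicator_of_mem hb]; exact hcw b _ hb1'
  have hdet := hD a b (f z) hza.1 hb hza.2 hb2
  have hadj := hE a b (f z) hza.1 hb hza.2 hb2
  -- single term bounds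
  have hPBb : c * ‖(jac (FF A f b) z).det‖ ^ 2 ≤ PB A f w z := by
    unfold PB
    refine le_trans ?_ (Finset.single_le_sum (f := fun a => Wt A w a (f z) *
      ‖(jac (FF A f a) z).det‖ ^ 2) (fun a _ => mul_nonneg (hWt a _) (sq_nonneg _))
      (Finset.mem_univ b))
    exact mul_le_mul_of_nonneg_right hWb (sq_nonneg _)
  have hgen : ∀ Q : V n → ℝ, QF Q → ∀ S : ℝ, c * ∑ k, Q (cf (FF A f b) k z) ≤ S →
      ∑ k, Q (cf (FF A f a) k z) ≤ C * S := by
    intro Q hQ S hS'
    have hs0 : 0 ≤ ∑ k, Q (cf (FF A f b) k z) := Finset.sum_nonneg fun k _ => hQ.nn _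
    have hS0 : 0 ≤ S := le_trans (mul_nonneg hc.le hs0) hS'
    have h1 : ∑ k, Q (cf (FF A f a) k z) ≤ 2 ^ n * E * ∑ k, Q (cf (FF A f b) k z) := by
      set T := jac (fun y => A.φ a ((A.φ b).symm y)) (A.φ b (f z)) with hT
      have h2 : ∀ k, Q (cf (FF A f a) k z) ≤
          2 ^ n * ∑ l, ‖T.adjugate l k‖ ^ 2 * ∑ m, Q (cf (FF A f b) m z) := by
        intro k
        rw [cf_mul hjab k]
        have h3 := hQ.sum Finset.univ (fun l => T.adjugate l k) (fun l => cf (FF A f b) l z)
        rw [Finset.card_univ, Fintype.card_fin] at h3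
        refine h3.trans (mul_le_mul_of_nonneg_left ?_ (by positivity))
        refine Finset.sum_le_sum fun l _ => mul_le_mul_of_nonneg_left ?_ (sq_nonneg _)
        exact Finset.single_le_sum (f := fun m => Q (cf (FF A f b) m z)) (fun m _ => hQ.nn _)
          (Finset.mem_univ l)
      calc ∑ k, Q (cf (FF A f a) k z)
          ≤ ∑ k, 2 ^ n * ∑ l, ‖T.adjugate l k‖ ^ 2 * ∑ m, Q (cf (FF A f b) m z) :=
            Finset.sum_le_sum fun k _ => h2 k
        _ = 2 ^ n * (∑ k, ∑ l, ‖T.adjugate l k‖ ^ 2) * ∑ m, Q (cf (FF A f b) m z) := by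
            rw [← Finset.mul_sum, mul_assoc, Finset.sum_mul]
            congr 1
            refine Finset.sum_congr rfl fun k _ => ?_
            rw [Finset.sum_mul]
        _ ≤ 2 ^ n * E * ∑ k, Q (cf (FF A f b) k z) := by
            refine mul_le_mul_of_nonneg_right (mul_le_mul_of_nonneg_left hadj (by positivity)) hs0
    have h4 : ∑ k, Q (cf (FF A f b) k z) ≤ S / c := by
      rw [le_div_iff₀ hc]; linarith
    calc ∑ k, Q (cf (FF A f a) k z) ≤ 2 ^ n * E * (S / c) :=
          h1.trans (mul_le_mul_of_nonneg_left h4 (by positivity))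
      _ = (2 ^ n * E / c) * S := by ring
      _ ≤ C * S := mul_le_mul_of_nonneg_right (by rw [hC]; linarith) hS0
  refine ⟨?_, ?_, ?_, ?_⟩
  · have h1 : ‖(jac (FF A f a) z).det‖ ^ 2 ≤ D * ‖(jac (FF A f b) z).det‖ ^ 2 := by
      rw [hjab, Matrix.det_mul, norm_mul, mul_pow]
      exact mul_le_mul_of_nonneg_right hdet (sq_nonneg _)
    have h2 : ‖(jac (FF A f b) z).det‖ ^ 2 ≤ PB A f w z / c := by
      rw [le_div_iff₀ hc]; linarith
    have h0 : 0 ≤ PB A f w z := le_trans (mul_nonneg hc.le (sq_nonneg _)) hPBb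
    calc ‖(jac (FF A f a) z).det‖ ^ 2 ≤ D * (PB A f w z / c) :=
          h1.trans (mul_le_mul_of_nonneg_left h2 (by positivity))
      _ = (D / c) * PB A f w z := by ring
      _ ≤ C * PB A f w z := mul_le_mul_of_nonneg_right (by rw [hC]; linarith) h0
  · have h1 : ∀ b, Wt A w b (f z) * ‖(jac (FF A f b) z).det‖ ^ 2 ≤
        W * D * ‖(jac (FF A f a) z).det‖ ^ 2 := by
      intro b'
      by_cases h0 : Wt A w b' (f z) = 0
      · rw [h0, zero_mul]; positivity
      · have hbs : f z ∈ (A.φ b').source := by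
          by_contra hn
          exact h0 (by unfold Wt; rw [indicator_of_notMem hn])
        have hbb : A.φ b' (f z) ∈ Metric.closedBall (0 : V n) (3 / 2) := by
          refine hw.supp b' _ fun hn => h0 ?_
          unfold Wt; rw [indicator_of_mem hbs]; exact hn
        have hbb2 : A.φ b' (f z) ∈ Metric.closedBall (0 : V n) 2 :=
          Metric.closedBall_subset_closedBall (by norm_num) hbb
        have hj := (hO n X ι A f I hf b').2.2.2.2.2 a z hz hbs hza.1
        have hd := hD b' a (f z) hbs hza.1 hbb2 hza.2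
        rw [hj, Matrix.det_mul, norm_mul, mul_pow]
        have h2 : ‖(jac (fun y => A.φ b' ((A.φ a).symm y)) (A.φ a (f z))).det‖ ^ 2 *
            ‖(jac (FF A f a) z).det‖ ^ 2 ≤ D * ‖(jac (FF A f a) z).det‖ ^ 2 :=
          mul_le_mul_of_nonneg_right hd (sq_nonneg _)
        calc _ ≤ W * (D * ‖(jac (FF A f a) z).det‖ ^ 2) :=
              mul_le_mul (hWtle b' _) h2 (by positivity) (by linarith)
          _ = _ := by ring
    calc PB A f w z ≤ ∑ _b : ι, W * D * ‖(jac (FF A f a) z).det‖ ^ 2 := by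
          unfold PB
          exact Finset.sum_le_sum fun b _ => h1 b
      _ = ((Fintype.card ι : ℝ) * W * D) * ‖(jac (FF A f a) z).det‖ ^ 2 := by
          rw [Finset.sum_const, Finset.card_univ, nsmul_eq_mul]; ring
      _ ≤ C * ‖(jac (FF A f a) z).det‖ ^ 2 :=
          mul_le_mul_of_nonneg_right (by rw [hC]; linarith) (sq_nonneg _)
  · intro g hg hgp
    refine hgen _ (qf_lev hL hg hgp) _ ?_
    unfold LL
    refine le_trans ?_ (Finset.single_le_sum (f := fun a => Wt A w a (f z) *
      ∑ k, lev g z (cf (FF A f a) k z)) (fun a _ => mul_nonneg (hWt a _)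
        (Finset.sum_nonneg fun k _ => hgp _)) (Finset.mem_univ b))
    exact mul_le_mul_of_nonneg_right hWb (Finset.sum_nonneg fun k _ => hgp _)
  · intro g _
    refine hgen _ (qf_ge g z) _ ?_
    unfold GE
    refine le_trans ?_ (Finset.single_le_sum (f := fun a => Wt A w a (f z) *
      ∑ k, ge g z (cf (FF A f a) k z)) (fun a _ => mul_nonneg (hWt a _)
        (Finset.sum_nonneg fun k _ => sq_nonneg _)) (Finset.mem_univ b))
    exact mul_le_mul_of_nonneg_right hWb (Finset.sum_nonneg fun k _ => sq_nonneg _)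

end Pool.Agent.H15.VG
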