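import Mathlib
import Pool.Agent.H95.VG.Targets1
import Pool.Agent.H15.VG.Basic

/-!
# VG module INV: finite mass sets do not feel the origin (helper15)
-/

open MeasureTheory Set Filter Topology
open scoped ENNReal NNReal ContDiff ComplexConjugate

namespace Pool.Agent.H15.VG

open Pool.Agent.H95.VG

variable {n : ℕ}

theorem dr_rho_eq_zero (hC : T_CUT) {t : ℝ} (ht : 1 ≤ t) {z : V n} (hz : 0 < nsq z)
    (hl : -t < lu z) (v : V n) : dr (rho t) z v = 0 := by
  have h1 : ∀ᶠ x in 𝓝 z, rho t x = (1:ℝ) := by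
    have e1 : ∀ᶠ x in 𝓝 z, 0 < nsq x := continuous_nsq.continuousAt.eventually (lt_mem_nhds hz)
    have e2 : ∀ᶠ x in 𝓝 z, -t < lu x := (continuousAt_lu hz).eventually (lt_mem_nhds hl)
    filter_upwards [e1, e2] with x hx1 hx2
    exact (((hC n).2.2.2.1 t ht).2.1 x).2.2.1 hx1 hx2.le
  have h2 : fderiv ℝ (rho t) z = 0 := by
    have h3 : (rho t : V n → ℝ) =ᶠ[𝓝 z] fun _ => (1:ℝ) := h1
    rw [h3.fderiv_eq]
    simp
  unfold dr
  rw [h2]
  simp

theorem inv (hS : T_SMO) (hC : T_CUT) (hO : T_OAO) (hCMP : T_CMP) (hCST : T_CST) : T_INV := by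
  intro n X _ _ _ ι _ A w f I hw hf S hSm hfin a k
  obtain ⟨C, hCpos, hcmp⟩ := hCMP n X ι A w hw
  obtain ⟨C', hcst, -⟩ := hCST n X ι A w f I hw hf
  set Q : Set (V n) := (Dp n \ I) ∩ S ∩ {z | nsq z ≤ 1 / 4} with hQ
  set E : Set (V n) := (Dp n \ I) ∩ Cb A f a 2 ∩ S ∩ {z | nsq z ≤ 1 / 4} with hE
  have hmQ4 : MeasurableSet {z : V n | nsq z ≤ 1 / 4} :=
    (isClosed_le continuous_nsq continuous_const).measurableSet
  have hmE : MeasurableSet E := ((measurableSet_Cb hO hf a le_rfl).inter hSm).inter hmQ4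
  have hmQ : MeasurableSet Q := (hf.opn.measurableSet.inter hSm).inter hmQ4
  have hEQ : E ⊆ Q := fun z hz => ⟨⟨hz.1.1.1, hz.1.2⟩, hz.2⟩
  -- the tail
  set P : V n → ℝ≥0∞ := fun z => ENNReal.ofReal (PB A f w z) with hP
  set L : ℝ → Set (V n) := fun t => Q ∩ {z | lu z ≤ -t} with hL
  have hmL : ∀ t, MeasurableSet (L t) := fun t =>
    hmQ.inter (measurableSet_le measurable_lu measurable_const)
  have htail : Tendsto (fun t => ∫⁻ z in L t, P z) atTop (𝓝 0) := by
    set ν : Measure (V n) := (volume.restrict Q).withDensity P with hν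
    have hνuniv : ν univ < ⊤ := by
      rw [hν, withDensity_apply _ MeasurableSet.univ, Measure.restrict_univ]
      exact hfin
    have h1 : Tendsto (ν ∘ L) atTop (𝓝 (ν (⋂ t, L t))) := by
      refine tendsto_measure_iInter_atTop (fun t => (hmL t).nullMeasurableSet) ?_
        ⟨0, (lt_of_le_of_lt (measure_mono (subset_univ _)) hνuniv).ne⟩
      intro t t' htt z hz
      exact ⟨hz.1, le_trans hz.2 (neg_le_neg htt)⟩
    have h2 : (⋂ t, L t) = ∅ := by
      refine eq_empty_of_forall_notMem fun z hz => ?_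
      have := (mem_iInter.1 hz (-(lu z) + 1)).2
      have h3 : lu z ≤ -(-(lu z) + 1) := this
      linarith
    rw [h2, measure_empty] at h1
    refine h1.congr fun t => ?_
    simp only [Function.comp_apply]
    rw [hν, withDensity_apply _ (hmL t), Measure.restrict_restrict (hmL t)]
    congr 2
    exact inter_eq_left.2 inter_subset_left
  rw [ENNReal.tendsto_nhds_zero]
  intro δ hδ
  -- choose ε
  obtain ⟨ε, hε, hεδ⟩ : ∃ ε : ℝ, 0 < ε ∧ ENNReal.ofReal (ε * |C'|) ≤ δ / 2 := by
    by_cases hδt : δ = ⊤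
    · refine ⟨1, one_pos, ?_⟩
      rw [hδt, ENNReal.top_div_of_ne_top ENNReal.ofNat_ne_top]
      exact le_top
    · have hδr : 0 < δ.toReal := ENNReal.toReal_pos hδ.ne' hδt
      refine ⟨δ.toReal / (2 * (|C'| + 1)), by positivity, ?_⟩
      have h1 : δ.toReal / (2 * (|C'| + 1)) * |C'| ≤ δ.toReal / 2 := by
        rw [div_mul_eq_mul_div, div_le_div_iff₀ (by positivity) (by norm_num)]
        nlinarith [abs_nonneg C']
      refine (ENNReal.ofReal_le_ofReal h1).trans ?_
      rw [ENNReal.ofReal_div_of_pos (by norm_num), ENNReal.ofReal_toReal hδt]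
      simp
  have hδ2 : (0:ℝ≥0∞) < δ / 2 := ENNReal.half_pos hδ.ne'
  have htail2 : Tendsto (fun t => ENNReal.ofReal (C / ε) * ∫⁻ z in L t, P z) atTop (𝓝 0) := by
    have := ENNReal.Tendsto.const_mul htail (Or.inr (ENNReal.ofReal_ne_top (r := C / ε)))
    simpa using this
  have hev := (ENNReal.tendsto_nhds_zero.1 htail2) (δ / 2) hδ2
  filter_upwards [hev, eventually_ge_atTop (1:ℝ)] with t ht1 ht
  set F := FF A f a with hF
  have hmeas : Measurable (E.indicator (fun z => ENNReal.ofReal (‖(jac F z).det‖ ^ 2 / ε))) := by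
    have hc : ContinuousOn (fun z => ENNReal.ofReal (‖(jac F z).det‖ ^ 2 / ε)) (Ua A f I a) := by
      refine ENNReal.continuous_ofReal.comp_continuousOn ?_
      exact (((contOn_det hS (isOpen_Ua hf a) (hf.hol a)).norm).pow 2).div_const _
    have h1 : Measurable ((Ua A f I a).indicator
        (fun z => ENNReal.ofReal (‖(jac F z).det‖ ^ 2 / ε))) :=
      meas_ind (isOpen_Ua hf a).measurableSet hc
    have h2 : E.indicator (fun z => ENNReal.ofReal (‖(jac F z).det‖ ^ 2 / ε)) =
        E.indicator ((Ua A f I a).indicator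
        (fun z => ENNReal.ofReal (‖(jac F z).det‖ ^ 2 / ε))) := by
      rw [indicator_indicator]
      congr 1
      refine (inter_eq_left.2 ?_).symm
      exact fun z hz => Cb_subset_Ua a 2 hz.1.1
    rw [h2]
    exact h1.indicator hmE
  have hsplit : ∀ z ∈ E, ENNReal.ofReal (‖(jac F z).det‖ * ‖dr (rho t) z (cf F k z)‖) ≤
      {z | lu z ≤ -t}.indicator (E.indicator (fun z => ENNReal.ofReal (‖(jac F z).det‖ ^ 2 / ε))) z
        + ENNReal.ofReal (ε * ge (rho t) z (cf F k z)) := by
    intro z hz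
    by_cases hl : lu z ≤ -t
    · rw [indicator_of_mem (show z ∈ {z | lu z ≤ -t} from hl), indicator_of_mem hz,
        ← ENNReal.ofReal_add (by positivity) (mul_nonneg hε.le (by unfold ge; exact sq_nonneg _))]
      refine ENNReal.ofReal_le_ofReal ?_
      unfold ge
      set x := ‖(jac F z).det‖
      set y := ‖dr (rho t) z (cf F k z)‖
      have h1 : x ^ 2 / ε + ε * y ^ 2 - x * y = ((x - ε * y / 2) ^ 2 + 3 / 4 * (ε * y) ^ 2) / ε := by
        field_simp
        ring
      have h2 : 0 ≤ ((x - ε * y / 2) ^ 2 + 3 / 4 * (ε * y) ^ 2) / ε := by positivity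
      linarith
    · push Not at hl
      rw [dr_rho_eq_zero hC ht hz.1.1.1.1.1 hl]
      simp
  calc ∫⁻ z in E, ENNReal.ofReal (‖(jac F z).det‖ * ‖dr (rho t) z (cf F k z)‖)
      ≤ ∫⁻ z in E, ({z | lu z ≤ -t}.indicator
          (E.indicator (fun z => ENNReal.ofReal (‖(jac F z).det‖ ^ 2 / ε))) z
        + ENNReal.ofReal (ε * ge (rho t) z (cf F k z))) := setLIntegral_mono' hmE hsplit
    _ = (∫⁻ z in E, {z | lu z ≤ -t}.indicator
          (E.indicator (fun z => ENNReal.ofReal (‖(jac F z).det‖ ^ 2 / ε))) z)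
        + ∫⁻ z in E, ENNReal.ofReal (ε * ge (rho t) z (cf F k z)) :=
        lintegral_add_left
          (hmeas.indicator (measurableSet_le measurable_lu measurable_const)) _
    _ ≤ δ / 2 + δ / 2 := by
        refine add_le_add ?_ ?_
        · refine le_trans ?_ ht1
          have hmt : MeasurableSet {z : V n | lu z ≤ -t} :=
            measurableSet_le measurable_lu measurable_const
          rw [lintegral_indicator hmt, Measure.restrict_restrict hmt]
          have h3 : ∀ z ∈ {z | lu z ≤ -t} ∩ E,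
              E.indicator (fun z => ENNReal.ofReal (‖(jac F z).det‖ ^ 2 / ε)) z ≤
                ENNReal.ofReal (C / ε) * P z := by
            intro z hz
            rw [indicator_of_mem hz.2]
            have h4 := (hcmp f I hf z hz.2.1.1.1 a hz.2.1.1.2).1
            rw [hP, ← ENNReal.ofReal_mul (by positivity)]
            refine ENNReal.ofReal_le_ofReal ?_
            rw [div_mul_eq_mul_div]
            exact div_le_div_of_nonneg_right h4 hε.le
          calc _ ≤ ∫⁻ z in {z | lu z ≤ -t} ∩ E, ENNReal.ofReal (C / ε) * P z :=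
                setLIntegral_mono' (hmt.inter hmE) h3
            _ ≤ ∫⁻ z in L t, ENNReal.ofReal (C / ε) * P z := by
                refine lintegral_mono_set ?_
                exact fun z hz => ⟨hEQ hz.2, hz.1⟩
            _ = _ := lintegral_const_mul' _ _ ENNReal.ofReal_ne_top
        · refine le_trans ?_ hεδ
          have h5 : ∀ z, ENNReal.ofReal (ε * ge (rho t) z (cf F k z)) =
              ENNReal.ofReal ε * ENNReal.ofReal (ge (rho t) z (cf F k z)) := fun z =>
            ENNReal.ofReal_mul hε.le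
          simp only [h5]
          rw [lintegral_const_mul' _ _ ENNReal.ofReal_ne_top, ENNReal.ofReal_mul hε.le]
          refine mul_le_mul_right ?_ _
          refine le_trans ?_ ((((hcst t ht a k).2.1)).trans
            (ENNReal.ofReal_le_ofReal (le_abs_self C')))
          exact lintegral_mono_set fun z hz => ⟨hz.1.1, hz.2⟩
    _ = δ := ENNReal.add_halves δ

end Pool.Agent.H15.VG
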