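import Mathlib
import Pool.Agent.H95.VG.Targets1
import Pool.Agent.H95.VG.Targets3
import Pool.Agent.H15.VG.Basic

/-!
# VG module LVB: mass of levels (helper15)
-/

open MeasureTheory Set Filter Topology
open scoped ENNReal NNReal ContDiff ComplexConjugate

namespace Pool.Agent.H15.VG

open Pool.Agent.H95.VG

variable {n : ℕ} {X : Type} [TopologicalSpace X] {ι : Type}

/-- the level `s` of `η - h a (F a)`, over the polydisc of radius `3 / 2`, inside `Dq` -/
def Slv (A : Atl n X ι) (f : V n → X) (I : Set (V n)) (h : ι → V n → ℝ) (η : V n → ℝ)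
    (a : ι) (s : ℝ) : Set (V n) :=
  {z | z ∈ Oa A f I a ∧ nsq z < 1 / 4 ∧ η z - h a (FF A f a z) = s ∧
    FF A f a z ∈ Metric.ball (0 : V n) (3 / 2)}

theorem isOpen_Slv [T2Space X] (hO : T_OAO) {A : Atl n X ι} {f : V n → X} {I : Set (V n)}
    (hf : Sing A f I) {h : ι → V n → ℝ} {η : V n → ℝ} (hη : Eta A f I h η) (a : ι) (s : ℝ) :
    IsOpen (Slv A f I h η a s) := by
  have hOa := (hO n X ι A f I hf a).1
  have hFc : ContinuousOn (FF A f a) (Oa A f I a) := (hO n X ι A f I hf a).2.1.continuousOn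
  rw [isOpen_iff_mem_nhds]
  rintro z ⟨hz, hz4, hzs, hzb⟩
  have e1 : ∀ᶠ x in 𝓝 z, x ∈ Oa A f I a := hOa.mem_nhds hz
  have e2 : ∀ᶠ x in 𝓝 z, nsq x < 1 / 4 :=
    continuous_nsq.continuousAt.eventually (gt_mem_nhds hz4)
  have e3 := hη.loc a z hz
  have e4 : ∀ᶠ x in 𝓝 z, FF A f a x ∈ Metric.ball (0 : V n) (3 / 2) :=
    (hFc.continuousAt (hOa.mem_nhds hz)).eventually (Metric.isOpen_ball.mem_nhds hzb)
  filter_upwards [e1, e2, e3, e4] with x h1 h2 h3 h4
  exact ⟨h1, h2, h3.trans hzs, h4⟩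

theorem fib_eq (A : Atl n X ι) (f : V n → X) (I : Set (V n)) (h : ι → V n → ℝ) (η : V n → ℝ)
    (a : ι) (s : ℝ) {y : V n} (hy : y ∈ Metric.ball (0 : V n) (3 / 2)) :
    fib A f I h η a s y = {z | z ∈ Slv A f I h η a s ∧ FF A f a z = y} := by
  ext z
  constructor
  · rintro ⟨h1, h2, h3, h4⟩
    have h5 : FF A f a z = y := h3
    refine ⟨⟨⟨h1.1, h2, ?_⟩, h1.2, ?_, ?_⟩, h5⟩
    · rw [h3]; exact Metric.ball_subset_ball (by norm_num) hy
    · rw [h5, h4]; ring
    · rw [h5]; exact hy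
  · rintro ⟨⟨h1, h2, h3, h4⟩, h5⟩
    refine ⟨⟨h1.1, h2⟩, h1.2.1, h5, ?_⟩
    rw [h5] at h3
    linarith

/-- the area formula on a level -/
theorem lintegral_Slv [T2Space X] (hO : T_OAO) (hA : T_ARE) {A : Atl n X ι} {f : V n → X}
    {I : Set (V n)} (hf : Sing A f I) {h : ι → V n → ℝ} {η : V n → ℝ} (hη : Eta A f I h η)
    (a : ι) (s : ℝ) :
    ∫⁻ y in Metric.ball (0 : V n) (3 / 2), ((fib A f I h η a s y).encard : ℝ≥0∞) ≤
      ∫⁻ z in Slv A f I h η a s, ENNReal.ofReal (‖(jac (FF A f a) z).det‖ ^ 2) := by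
  have hOa := hO n X ι A f I hf a
  obtain ⟨h1, h2, h3⟩ := hA n (Oa A f I a) (Slv A f I h η a s) (FF A f a) (fun _ => 1) hOa.1
    hOa.2.1 (isOpen_Slv hO hf hη a s).measurableSet (fun z hz => hz.1) measurable_const
  simp only [one_mul] at h2
  rw [h2]
  have hae : ∀ᵐ y ∂(volume.restrict (Metric.ball (0 : V n) (3 / 2))),
      ((fib A f I h η a s y).encard : ℝ≥0∞) =
        ∑' _ : {z // z ∈ Slv A f I h η a s ∧ FF A f a z = y ∧ (jac (FF A f a) z).det ≠ 0},
          (1 : ℝ≥0∞) := by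
    have hnull : ∀ᵐ y ∂(volume.restrict (Metric.ball (0 : V n) (3 / 2))),
        y ∉ FF A f a '' {z ∈ Slv A f I h η a s | (jac (FF A f a) z).det = 0} :=
      ae_restrict_of_ae (measure_eq_zero_iff_ae_notMem.1 h3)
    filter_upwards [hnull, ae_restrict_mem Metric.isOpen_ball.measurableSet] with y hy hyb
    have e1 : fib A f I h η a s y =
        {z | z ∈ Slv A f I h η a s ∧ FF A f a z = y ∧ (jac (FF A f a) z).det ≠ 0} := by
      rw [fib_eq A f I h η a s hyb]
      ext z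
      constructor
      · rintro ⟨h4, h5⟩
        exact ⟨h4, h5, fun h6 => hy ⟨z, ⟨h4, h6⟩, h5⟩⟩
      · rintro ⟨h4, h5, h6⟩
        exact ⟨h4, h5⟩
    rw [e1, ← ENNReal.tsum_set_one]
    rfl
  rw [lintegral_congr_ae hae]
  exact setLIntegral_le_lintegral _ _

theorem exists_H [Fintype ι] {A : Atl n X ι} {h : ι → V n → ℝ} (hh : Clo A h) :
    ∃ H : ℝ, 0 ≤ H ∧ ∀ a, ∀ y ∈ Metric.closedBall (0 : V n) (3 / 2), |h a y| ≤ H := by
  have h1 : ∀ a, ∃ H : ℝ, 0 ≤ H ∧ ∀ y ∈ Metric.closedBall (0 : V n) (3 / 2), |h a y| ≤ H := by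
    intro a
    have hc : ContinuousOn (fun y => |h a y|) (Metric.closedBall (0 : V n) (3 / 2)) :=
      ((hh.smooth a).continuousOn.mono (Metric.closedBall_subset_ball (by norm_num))).abs
    obtain ⟨H, hH⟩ := (isCompact_closedBall (0 : V n) (3 / 2)).bddAbove_image hc
    refine ⟨max H 0, le_max_right _ _, fun y hy => (hH (mem_image_of_mem _ hy)).trans
      (le_max_left _ _)⟩
  choose H hH0 hH using h1
  refine ⟨∑ a, H a, Finset.sum_nonneg fun a _ => hH0 a, fun a y hy => (hH a y hy).trans ?_⟩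
  exact Finset.single_le_sum (fun a _ => hH0 a) (Finset.mem_univ a)

theorem lvb (hO : T_OAO) (hA : T_ARE) (hCMP : T_CMP) : T_LVB := by
  intro n X _ _ _ ι _ A w f I h η hw hf hh hη
  obtain ⟨C, hC, hcmp⟩ := hCMP n X ι A w hw
  obtain ⟨H, hH0, hH⟩ := exists_H hh
  set vb : ℝ := (volume (Metric.ball (0 : V n) (3 / 2))).toReal with hvb
  have hvfin : volume (Metric.ball (0 : V n) (3 / 2)) ≠ ⊤ := measure_ball_lt_top.ne
  have hvpos : 0 < vb := ENNReal.toReal_pos (Metric.measure_ball_pos _ _ (by norm_num)).ne' hvfin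
  refine ⟨vb / C, H, by positivity, hH, ?_⟩
  intro a T N s₀ hT hN
  set S : ℝ → Set (V n) := Slv A f I h η a with hS
  set P : V n → ℝ≥0∞ := fun z => ENNReal.ofReal (PB A f w z) with hP
  have hmS : ∀ s, MeasurableSet (S s) := fun s => (isOpen_Slv hO hf hη a s).measurableSet
  -- one level
  have h1 : ∀ s ∈ T, ENNReal.ofReal (vb / C * N s) ≤ ∫⁻ z in S s, P z := by
    intro s hs
    have e1 : (N s : ℝ≥0∞) * volume (Metric.ball (0 : V n) (3 / 2)) ≤
        ∫⁻ y in Metric.ball (0 : V n) (3 / 2), ((fib A f I h η a s y).encard : ℝ≥0∞) := by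
      rw [← setLIntegral_const]
      refine lintegral_mono_ae ?_
      filter_upwards [hN s hs] with y hy
      calc (N s : ℝ≥0∞) = (((N s : ℕ) : ℕ∞) : ℝ≥0∞) := by simp
        _ ≤ _ := ENat.toENNReal_le.2 hy
    have e2 := e1.trans (lintegral_Slv hO hA hf hη a s)
    have e3 : ∫⁻ z in S s, ENNReal.ofReal (‖(jac (FF A f a) z).det‖ ^ 2) ≤
        ENNReal.ofReal C * ∫⁻ z in S s, P z := by
      rw [← lintegral_const_mul' _ _ ENNReal.ofReal_ne_top]
      refine setLIntegral_mono' (hmS s) fun z hz => ?_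
      rw [hP, ← ENNReal.ofReal_mul hC.le]
      refine ENNReal.ofReal_le_ofReal ?_
      exact (hcmp f I hf z hz.1.1 a ⟨hz.1.2.1, Metric.ball_subset_closedBall hz.1.2.2⟩).1
    have e4 := e2.trans e3
    have e5 : ENNReal.ofReal (vb / C * N s) =
        (ENNReal.ofReal C)⁻¹ * ((N s : ℝ≥0∞) * volume (Metric.ball (0 : V n) (3 / 2))) := by
      rw [← ENNReal.ofReal_toReal hvfin, ← ENNReal.ofReal_natCast, ← ENNReal.ofReal_mul
        (Nat.cast_nonneg _), ← ENNReal.ofReal_inv_of_pos hC, ← ENNReal.ofReal_mul (by positivity)]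
      congr 1
      rw [← hvb]
      field_simp
    rw [e5]
    calc _ ≤ (ENNReal.ofReal C)⁻¹ * (ENNReal.ofReal C * ∫⁻ z in S s, P z) :=
          mul_le_mul_right e4 _
      _ = _ := by
          rw [← mul_assoc, ENNReal.inv_mul_cancel (ENNReal.ofReal_pos.2 hC).ne'
            ENNReal.ofReal_ne_top, one_mul]
  have hdisj : Set.PairwiseDisjoint (↑T) S := by
    intro s _ s' _ hss
    refine Set.disjoint_left.2 fun z hz hz' => hss ?_
    exact hz.2.2.1.symm.trans hz'.2.2.1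
  calc ENNReal.ofReal (vb / C * ∑ s ∈ T, (N s : ℝ))
      = ∑ s ∈ T, ENNReal.ofReal (vb / C * N s) := by
        rw [Finset.mul_sum, ENNReal.ofReal_sum_of_nonneg fun s _ => by positivity]
    _ ≤ ∑ s ∈ T, ∫⁻ z in S s, P z := Finset.sum_le_sum h1
    _ = ∫⁻ z in ⋃ s ∈ T, S s, P z := (lintegral_biUnion_finset hdisj (fun s _ => hmS s) _).symm
    _ ≤ _ := by
        refine lintegral_mono_set ?_
        intro z hz
        simp only [mem_iUnion] at hz
        obtain ⟨s, hs, hzs⟩ := hz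
        refine ⟨hzs.1.1, hzs.2.1, ?_⟩
        have h2 := hT s hs
        have h3 := hH a _ (Metric.ball_subset_closedBall hzs.2.2.2)
        have h4 : η z - s₀ = (s - s₀) + h a (FF A f a z) := by
          have := hzs.2.2.1
          linarith
        rw [h4]
        exact (abs_add_le _ _).trans (add_le_add h2 h3)

end Pool.Agent.H15.VG
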