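import Mathlib
import Pool.Agent.H95.VG.Targets1
import Pool.Agent.H15.VG.Basic

/-!
# VG: push forward of functions along a holomorphic map, through the area formula (helper15)
-/

open MeasureTheory Set Filter Topology
open scoped ENNReal NNReal ContDiff ComplexConjugate

namespace Pool.Agent.H15.VG

open Pool.Agent.H95.VG

variable {n : ℕ}

/-- the nondegenerate part of the fibre over `y` -/
def Fb (S : Set (V n)) (F : V n → V n) (y : V n) : Set (V n) :=
  {z | z ∈ S ∧ F z = y ∧ (jac F z).det ≠ 0}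

/-- the real Jacobian -/
noncomputable def Dj (F : V n → V n) (z : V n) : ℝ := ‖(jac F z).det‖ ^ 2

theorem measurable_Dj (F : V n → V n) : Measurable (Dj F) := by
  have h1 : Measurable (fun z => (fun i j => jac F z i j : Fin n → Fin n → ℂ)) := by
    refine measurable_pi_lambda _ fun i => measurable_pi_lambda _ fun j => ?_
    exact (measurable_pi_apply i).comp (measurable_fderiv_apply_const ℂ F (ek j))
  have h2 : Measurable (fun M : Fin n → Fin n → ℂ => ‖(Matrix.of M).det‖ ^ 2) := by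
    have h3 : Continuous (fun M : Fin n → Fin n → ℂ => (Matrix.of M).det) :=
      Continuous.matrix_det (A := fun M : Fin n → Fin n → ℂ => Matrix.of M) continuous_id
    exact ((h3.norm).pow 2).measurable
  exact h2.comp h1

theorem int3 {μ : Measure (V n)} {f g h : V n → ℂ} (hf : Integrable f μ) (hg : Integrable g μ)
    (hh : Integrable h μ) (a b c : ℂ) :
    ∫ y, (a * f y + b * g y - c * h y) ∂μ =
      a * (∫ y, f y ∂μ) + b * (∫ y, g y ∂μ) - c * ∫ y, h y ∂μ := by
  have h1 := integral_sub ((hf.const_mul a).add (hg.const_mul b)) (hh.const_mul c)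
  have h2 := integral_add (hf.const_mul a) (hg.const_mul b)
  simp only [Pi.add_apply, integral_const_mul] at h1 h2
  rw [h1, h2]

theorem Dj_nonneg (F : V n → V n) (z : V n) : 0 ≤ Dj F z := sq_nonneg _

section

variable (hA : T_ARE) {O S : Set (V n)} {F : V n → V n} (hO : IsOpen O)
  (hF : DifferentiableOn ℂ F O) (hSm : MeasurableSet S) (hSO : S ⊆ O)
  (hfin : ∫⁻ z in S, ENNReal.ofReal (Dj F z) < ⊤)

include hA hO hF hSm hSO

theorem are' (g : V n → ℝ≥0∞) (hg : Measurable g) :
    Measurable (fun y => ∑' z : Fb S F y, g z) ∧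
    ∫⁻ z in S, g z * ENNReal.ofReal (Dj F z) = ∫⁻ y, ∑' z : Fb S F y, g z := by
  obtain ⟨h1, h2, -⟩ := hA n O S F g hO hF hSm hSO hg
  exact ⟨h1, h2⟩

include hfin

theorem fin_ae : ∀ᵐ y : V n, (Fb S F y).Finite := by
  obtain ⟨h1, h2⟩ := are' hA hO hF hSm hSO (fun _ => 1) measurable_const
  simp only [one_mul] at h2
  rw [h2] at hfin
  filter_upwards [ae_lt_top h1 hfin.ne] with y hy
  rw [ENNReal.tsum_set_one] at hy
  by_contra hinf
  rw [Set.encard_eq_top (Set.not_finite.1 hinf)] at hy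
  simp at hy

theorem push_nn {r : V n → ℝ} (hr : Measurable r) (hr0 : ∀ z ∈ S, 0 ≤ r z)
    (hr1 : ∀ z ∈ S, r z ≤ 1) :
    Integrable (fun y => ((∑' z : Fb S F y, ENNReal.ofReal (r z)).toReal : ℝ)) ∧
    ∀ q : V n → ℂ, Continuous q → (∃ C : ℝ, ∀ y, ‖q y‖ ≤ C) →
      IntegrableOn (fun z => ((r z * Dj F z : ℝ) : ℂ) * q (F z)) S ∧
      ∫ y, (((∑' z : Fb S F y, ENNReal.ofReal (r z)).toReal : ℝ) : ℂ) * q y =
        ∫ z in S, ((r z * Dj F z : ℝ) : ℂ) * q (F z) := by
  obtain ⟨hNm, hN⟩ := are' hA hO hF hSm hSO (fun z => ENNReal.ofReal (r z))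
    (ENNReal.measurable_ofReal.comp hr)
  set N : V n → ℝ≥0∞ := fun y => ∑' z : Fb S F y, ENNReal.ofReal (r z) with hNdef
  have hNfin : ∫⁻ y, N y < ⊤ := by
    rw [← hN]
    refine lt_of_le_of_lt ?_ hfin
    refine setLIntegral_mono' hSm fun z hz => ?_
    calc ENNReal.ofReal (r z) * ENNReal.ofReal (Dj F z) ≤ 1 * ENNReal.ofReal (Dj F z) := by
          refine mul_le_mul_left ?_ _
          exact (ENNReal.ofReal_le_ofReal (hr1 z hz)).trans (by simp)
      _ = _ := one_mul _
  have hNlt : ∀ᵐ y, N y < ⊤ := ae_lt_top hNm hNfin.ne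
  refine ⟨integrable_toReal_of_lintegral_ne_top hNm.aemeasurable hNfin.ne, ?_⟩
  intro q hq hqb
  obtain ⟨C, hC⟩ := hqb
  -- measurable version of F
  set F' : V n → V n := O.indicator F with hF'
  have hF'm : Measurable F' := meas_ind hO.measurableSet hF.continuousOn
  have hFF' : ∀ z ∈ S, F' z = F z := fun z hz => indicator_of_mem (hSO hz) _
  set dens : V n → ℝ≥0∞ := fun z => ENNReal.ofReal (r z) * ENNReal.ofReal (Dj F z) with hdens
  have hdm : Measurable dens :=
    (ENNReal.measurable_ofReal.comp hr).mul (ENNReal.measurable_ofReal.comp (measurable_Dj F))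
  set ν : Measure (V n) := (volume.restrict S).withDensity dens with hν
  have hmap : Measure.map F' ν = volume.withDensity N := by
    refine Measure.ext fun B hB => ?_
    rw [Measure.map_apply hF'm hB, withDensity_apply _ hB, hν,
      withDensity_apply _ (hF'm hB)]
    have hBm : MeasurableSet (F' ⁻¹' B) := hF'm hB
    obtain ⟨-, h2⟩ := are' hA hO hF hSm hSO
      ((F' ⁻¹' B).indicator (fun z => ENNReal.ofReal (r z)))
      ((ENNReal.measurable_ofReal.comp hr).indicator hBm)
    have h3 : ∫⁻ y, ∑' z : Fb S F y, (F' ⁻¹' B).indicator (fun z => ENNReal.ofReal (r z)) z =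
        ∫⁻ y in B, N y := by
      rw [← lintegral_indicator hB]
      refine lintegral_congr fun y => ?_
      by_cases hy : y ∈ B
      · rw [indicator_of_mem hy]
        refine tsum_congr fun z => ?_
        rw [indicator_of_mem]
        rw [mem_preimage, hFF' z.1 z.2.1, z.2.2.1]
        exact hy
      · rw [indicator_of_notMem hy]
        rw [ENNReal.tsum_eq_zero]
        intro z
        rw [indicator_of_notMem]
        rw [mem_preimage, hFF' z.1 z.2.1, z.2.2.1]
        exact hy
    rw [← h3, ← h2, ← lintegral_indicator hBm]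
    refine lintegral_congr fun z => ?_
    by_cases hz : z ∈ F' ⁻¹' B
    · rw [indicator_of_mem hz, indicator_of_mem hz]
    · rw [indicator_of_notMem hz, indicator_of_notMem hz, zero_mul]
  have hdlt : ∀ᵐ z ∂(volume.restrict S), dens z < ⊤ :=
    Filter.Eventually.of_forall fun z => ENNReal.mul_lt_top ENNReal.ofReal_lt_top
      ENNReal.ofReal_lt_top
  have hdr : ∀ z ∈ S, (dens z).toReal = r z * Dj F z := by
    intro z hz
    rw [hdens]
    simp only
    rw [ENNReal.toReal_mul, ENNReal.toReal_ofReal (hr0 z hz), ENNReal.toReal_ofReal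
      (Dj_nonneg F z)]
  have e1 : ∫ y, q y ∂(volume.withDensity N) = ∫ y, (((N y).toReal : ℝ) : ℂ) * q y := by
    rw [integral_withDensity_eq_integral_toReal_smul hNm hNlt]
    refine integral_congr_ae (Filter.Eventually.of_forall fun y => ?_)
    simp only [Complex.real_smul]
  have e2 : ∫ y, q y ∂(Measure.map F' ν) = ∫ z in S, ((r z * Dj F z : ℝ) : ℂ) * q (F z) := by
    rw [integral_map hF'm.aemeasurable hq.aestronglyMeasurable, hν,
      integral_withDensity_eq_integral_toReal_smul hdm hdlt]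
    refine setIntegral_congr_fun hSm fun z hz => ?_
    simp only [Complex.real_smul]
    rw [hdr z hz, hFF' z hz]
  refine ⟨?_, ?_⟩
  · -- integrability
    have hC0 : 0 ≤ C := (norm_nonneg _).trans (hC 0)
    have hDint : IntegrableOn (fun z => C * Dj F z) S := by
      have h1 : IntegrableOn (Dj F) S := by
        refine ⟨(measurable_Dj F).aestronglyMeasurable, ?_⟩
        unfold HasFiniteIntegral
        refine lt_of_le_of_lt (lintegral_mono fun z => ?_) hfin
        rw [← ofReal_norm, Real.norm_of_nonneg (Dj_nonneg F z)]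
      exact h1.const_mul C
    refine Integrable.mono' hDint ?_ ?_
    · have h1 : Measurable (fun z => ((r z * Dj F z : ℝ) : ℂ) * q (F' z)) :=
        (Complex.measurable_ofReal.comp (hr.mul (measurable_Dj F))).mul
          (hq.measurable.comp hF'm)
      refine h1.aestronglyMeasurable.congr ?_
      filter_upwards [ae_restrict_mem hSm] with z hz
      rw [hFF' z hz]
    · filter_upwards [ae_restrict_mem hSm] with z hz
      rw [norm_mul, Complex.norm_real, Real.norm_of_nonneg
        (mul_nonneg (hr0 z hz) (Dj_nonneg F z))]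
      calc r z * Dj F z * ‖q (F z)‖ ≤ 1 * Dj F z * C := by
            refine mul_le_mul ?_ (hC _) (norm_nonneg _) (by
              rw [one_mul]; exact Dj_nonneg F z)
            exact mul_le_mul_of_nonneg_right (hr1 z hz) (Dj_nonneg F z)
        _ = C * Dj F z := by ring
  · rw [← e1, ← hmap, e2]

/-- the function `b` is good: its push forward is integrable and satisfies the area formula -/
theorem push (b : V n → ℂ) (hb : Measurable b) (hb1 : ∀ z ∈ S, ‖b z‖ ≤ 1) :
    Integrable (fun y => ∑ᶠ z ∈ Fb S F y, b z) ∧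
    ∀ q : V n → ℂ, Continuous q → (∃ C : ℝ, ∀ y, ‖q y‖ ≤ C) →
      IntegrableOn (fun z => b z * ((Dj F z : ℝ) : ℂ) * q (F z)) S ∧
      ∫ y, (∑ᶠ z ∈ Fb S F y, b z) * q y = ∫ z in S, b z * ((Dj F z : ℝ) : ℂ) * q (F z) := by
  have hfa := fin_ae hA hO hF hSm hSO hfin
  set r0 : V n → ℝ := fun _ => 1 with hr0
  set r1 : V n → ℝ := fun z => (1 + (b z).re) / 2 with hr1
  set r2 : V n → ℝ := fun z => (1 + (b z).im) / 2 with hr2
  have m1 : Measurable r1 := (measurable_const.add (Complex.measurable_re.comp hb)).div_const _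
  have m2 : Measurable r2 := (measurable_const.add (Complex.measurable_im.comp hb)).div_const _
  have b1 : ∀ z ∈ S, 0 ≤ r1 z ∧ r1 z ≤ 1 := by
    intro z hz
    have h1 := (Complex.abs_re_le_norm (b z)).trans (hb1 z hz)
    rw [abs_le] at h1
    simp only [hr1]
    constructor <;> linarith [h1.1, h1.2]
  have b2 : ∀ z ∈ S, 0 ≤ r2 z ∧ r2 z ≤ 1 := by
    intro z hz
    have h1 := (Complex.abs_im_le_norm (b z)).trans (hb1 z hz)
    rw [abs_le] at h1
    simp only [hr2]
    constructor <;> linarith [h1.1, h1.2]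
  obtain ⟨i0, j0⟩ := push_nn hA hO hF hSm hSO hfin (r := r0) measurable_const
    (fun _ _ => zero_le_one) (fun _ _ => le_rfl)
  obtain ⟨i1, j1⟩ := push_nn hA hO hF hSm hSO hfin m1 (fun z hz => (b1 z hz).1)
    (fun z hz => (b1 z hz).2)
  obtain ⟨i2, j2⟩ := push_nn hA hO hF hSm hSO hfin m2 (fun z hz => (b2 z hz).1)
    (fun z hz => (b2 z hz).2)
  set N0 : V n → ℝ := fun y => (∑' z : Fb S F y, ENNReal.ofReal (r0 z)).toReal with hN0
  set N1 : V n → ℝ := fun y => (∑' z : Fb S F y, ENNReal.ofReal (r1 z)).toReal with hN1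
  set N2 : V n → ℝ := fun y => (∑' z : Fb S F y, ENNReal.ofReal (r2 z)).toReal with hN2
  have toR : ∀ (r : V n → ℝ), (∀ z ∈ S, 0 ≤ r z) → ∀ y, ∀ h : (Fb S F y).Finite,
      (∑' z : Fb S F y, ENNReal.ofReal (r z)).toReal = ∑ z ∈ h.toFinset, r z := by
    intro r hr y h
    have : Fintype (Fb S F y) := h.fintype
    rw [tsum_fintype, ENNReal.toReal_sum fun z _ => ENNReal.ofReal_ne_top]
    rw [Finset.sum_congr rfl fun (z : Fb S F y) _ => ENNReal.toReal_ofReal (hr z.1 z.2.1)]
    symm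
    refine Finset.sum_subtype _ (fun x => ?_) r
    simp
  have hdec : (fun y => ∑ᶠ z ∈ Fb S F y, b z) =ᵐ[volume]
      fun y => 2 * ((N1 y : ℝ) : ℂ) + 2 * Complex.I * ((N2 y : ℝ) : ℂ) -
        (1 + Complex.I) * ((N0 y : ℝ) : ℂ) := by
    filter_upwards [hfa] with y hy
    rw [finsum_mem_eq_finite_toFinset_sum _ hy]
    simp only [hN0, hN1, hN2]
    rw [toR r0 (fun _ _ => zero_le_one) y hy, toR r1 (fun z hz => (b1 z hz).1) y hy,
      toR r2 (fun z hz => (b2 z hz).1) y hy]
    push_cast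
    rw [Finset.mul_sum, Finset.mul_sum, Finset.mul_sum, ← Finset.sum_add_distrib,
      ← Finset.sum_sub_distrib]
    refine Finset.sum_congr rfl fun z _ => ?_
    simp only [hr0, hr1, hr2]
    push_cast
    conv_lhs => rw [← Complex.re_add_im (b z)]
    ring
  have c0 : Integrable (fun y => ((N0 y : ℝ) : ℂ)) := i0.ofReal
  have c1 : Integrable (fun y => ((N1 y : ℝ) : ℂ)) := i1.ofReal
  have c2 : Integrable (fun y => ((N2 y : ℝ) : ℂ)) := i2.ofReal
  refine ⟨(((c1.const_mul 2).add (c2.const_mul (2 * Complex.I))).sub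
    (c0.const_mul (1 + Complex.I))).congr hdec.symm, ?_⟩
  intro q hq hqb
  obtain ⟨k0, l0⟩ := j0 q hq hqb
  obtain ⟨k1, l1⟩ := j1 q hq hqb
  obtain ⟨k2, l2⟩ := j2 q hq hqb
  have hpt : ∀ z, b z * ((Dj F z : ℝ) : ℂ) * q (F z) =
      2 * (((r1 z * Dj F z : ℝ) : ℂ) * q (F z)) + 2 * Complex.I *
        (((r2 z * Dj F z : ℝ) : ℂ) * q (F z)) -
        (1 + Complex.I) * (((r0 z * Dj F z : ℝ) : ℂ) * q (F z)) := by
    intro z
    simp only [hr0, hr1, hr2]
    push_cast
    conv_lhs => rw [← Complex.re_add_im (b z)]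
    ring
  have hI : IntegrableOn (fun z => 2 * (((r1 z * Dj F z : ℝ) : ℂ) * q (F z)) + 2 * Complex.I *
        (((r2 z * Dj F z : ℝ) : ℂ) * q (F z)) -
        (1 + Complex.I) * (((r0 z * Dj F z : ℝ) : ℂ) * q (F z))) S :=
    ((k1.const_mul 2).add (k2.const_mul (2 * Complex.I))).sub (k0.const_mul (1 + Complex.I))
  refine ⟨hI.congr (Filter.Eventually.of_forall fun z => (hpt z).symm), ?_⟩
  obtain ⟨C, hC⟩ := hqb
  have hmulq : ∀ N : V n → ℝ, Integrable (fun y => ((N y : ℝ) : ℂ)) →
      Integrable (fun y => ((N y : ℝ) : ℂ) * q y) := by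
    intro N hN
    exact hN.mul_bdd (c := C) hq.aestronglyMeasurable (Filter.Eventually.of_forall hC)
  have d0 := hmulq N0 c0
  have d1 := hmulq N1 c1
  have d2 := hmulq N2 c2
  have lhs : ∫ y, (∑ᶠ z ∈ Fb S F y, b z) * q y =
      2 * (∫ y, ((N1 y : ℝ) : ℂ) * q y) + 2 * Complex.I * (∫ y, ((N2 y : ℝ) : ℂ) * q y) -
        (1 + Complex.I) * (∫ y, ((N0 y : ℝ) : ℂ) * q y) := by
    rw [← int3 d1 d2 d0]
    refine integral_congr_ae ?_
    filter_upwards [hdec] with y hy
    rw [hy]
    ring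
  have rhs : ∫ z in S, b z * ((Dj F z : ℝ) : ℂ) * q (F z) =
      2 * (∫ z in S, ((r1 z * Dj F z : ℝ) : ℂ) * q (F z)) +
      2 * Complex.I * (∫ z in S, ((r2 z * Dj F z : ℝ) : ℂ) * q (F z)) -
        (1 + Complex.I) * (∫ z in S, ((r0 z * Dj F z : ℝ) : ℂ) * q (F z)) := by
    rw [← int3 k1 k2 k0]
    exact integral_congr_ae (Filter.Eventually.of_forall hpt)
  rw [lhs, rhs, l0, l1, l2]

end

end Pool.Agent.H15.VG
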