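import Mathlib
import Pool.Agent.H95.VG.Targets1
import Pool.Agent.H95.VG.Targets3
import Pool.Agent.H15.VG.Inv
import Pool.Agent.H15.VG.Lvb
import Pool.Agent.H15.VG.Push

/-!
# VG module CON: the counting functions of deep levels are constant (helper15)
-/

open MeasureTheory Set Filter Topology
open scoped ENNReal NNReal ContDiff ComplexConjugate

namespace Pool.Agent.H15.VG

open Pool.Agent.H95.VG

variable {n : ℕ} {X : Type} [TopologicalSpace X] {ι : Type}

theorem Slv_subset (A : Atl n X ι) (f : V n → X) (I : Set (V n)) (h : ι → V n → ℝ)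
    (η : V n → ℝ) (a : ι) (s : ℝ) : Slv A f I h η a s ⊆ Oa A f I a := fun _ hz => hz.1

/-- finite mass of a level, from finitely many windows -/
theorem Slv_mass [T2Space X] [Fintype ι] (hO : T_OAO) {A : Atl n X ι} {w : ι → V n → ℝ}
    {f : V n → X} {I : Set (V n)} (hf : Sing A f I) {h : ι → V n → ℝ} {η : V n → ℝ}
    (hη : Eta A f I h η) (hW : Win A w f I η) {H : ℝ}
    (hH : ∀ a, ∀ y ∈ Metric.closedBall (0 : V n) (3 / 2), |h a y| ≤ H) (a : ι) (s : ℝ) :
    ∫⁻ z in Slv A f I h η a s, ENNReal.ofReal (PB A f w z) < ⊤ := by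
  obtain ⟨C, hC⟩ := hW
  obtain ⟨m, hm⟩ := exists_nat_ge H
  set W : Fin (2 * m + 1) → Set (V n) := fun j =>
    (Dp n \ I) ∩ {z | nsq z ≤ 1 / 2 ∧ |η z - (s + ((j : ℕ) : ℝ) - m)| ≤ 1} with hWdef
  have hsub : Slv A f I h η a s ⊆ ⋃ j, W j := by
    rintro z ⟨h1, h2, h3, h4⟩
    have h5 := hH a _ (Metric.ball_subset_closedBall h4)
    have h6 : |η z - s| ≤ m := by
      have : η z - s = h a (FF A f a z) := by linarith
      rw [this]
      exact h5.trans hm
    rw [abs_le] at h6
    -- choose the integer part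
    set x : ℝ := η z - s + m with hx
    have hx0 : 0 ≤ x := by rw [hx]; linarith [h6.1]
    have hx1 : x ≤ 2 * m := by rw [hx]; linarith [h6.2]
    have hfl : ⌊x⌋₊ < 2 * m + 1 := by
      have : ⌊x⌋₊ ≤ 2 * m := by
        have h7 : (⌊x⌋₊ : ℝ) ≤ ((2 * m : ℕ) : ℝ) := by
          push_cast
          exact (Nat.floor_le hx0).trans hx1
        exact_mod_cast h7
      omega
    refine mem_iUnion.2 ⟨⟨⌊x⌋₊, hfl⟩, h1.1, by linarith, ?_⟩
    have h8 := Nat.floor_le hx0
    have h9 := Nat.lt_floor_add_one x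
    rw [abs_le]
    simp only
    constructor <;> linarith
  calc ∫⁻ z in Slv A f I h η a s, ENNReal.ofReal (PB A f w z)
      ≤ ∫⁻ z in ⋃ j, W j, ENNReal.ofReal (PB A f w z) := lintegral_mono_set hsub
    _ ≤ ∑' j, ∫⁻ z in W j, ENNReal.ofReal (PB A f w z) := lintegral_iUnion_le _ _
    _ = ∑ j, ∫⁻ z in W j, ENNReal.ofReal (PB A f w z) := tsum_fintype _
    _ < ⊤ := by
        refine ENNReal.sum_lt_top.2 fun j _ => ?_
        exact lt_of_le_of_lt (hC _) ENNReal.ofReal_lt_top

theorem norm_coord_le {z : V n} (hz : z ∈ Dp n) (i : Fin n) (j : ℕ) : ‖(z i) ^ j‖ ≤ 1 := by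
  rw [norm_pow]
  refine pow_le_one₀ (norm_nonneg _) ?_
  have h1 := Dp_subset_ball hz
  rw [mem_ball_zero_iff] at h1
  exact (norm_le_pi_norm z i).trans h1.le

theorem contDiff_coord (i : Fin n) (j : ℕ) : Differentiable ℂ (fun z : V n => (z i) ^ j) := by
  fun_prop

theorem continuous_dzb {p : V n → ℂ} (hp : ContDiff ℝ ∞ p) (v : V n) :
    Continuous (fun y => dzb p y v) := by
  have h1 : Continuous (fderiv ℝ p) := hp.continuous_fderiv (by simp)
  unfold dzb
  exact (((h1.clm_apply continuous_const)).add (continuous_const.mul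
    (h1.clm_apply continuous_const))).div_const _

theorem dzb_support {p : V n → ℂ} {y : V n} (hy : y ∉ tsupport p) (v : V n) :
    dzb p y v = 0 := by
  have h1 : fderiv ℝ p y = 0 := by
    by_contra h
    exact hy (tsupport_fderiv_subset ℝ (subset_tsupport _ h))
  unfold dzb
  rw [h1]
  simp

theorem dzb_bounded {p : V n → ℂ} (hp : ContDiff ℝ ∞ p) (hc : HasCompactSupport p) (v : V n) :
    ∃ C : ℝ, ∀ y, ‖dzb p y v‖ ≤ C := by
  have h1 : HasCompactSupport (fun y => dzb p y v) := by
    refine HasCompactSupport.intro hc fun y hy => ?_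
    exact dzb_support hy v
  exact (continuous_dzb hp v).bounded_above_of_compact_support h1

/-- the limit of the first order identities: `∫_S b det² ∂bar_k p (F) = 0` -/
theorem level_identity [T2Space X] [CompactSpace X] [Fintype ι] (hS : T_SMO) (hLIN : T_LIN)
    (hC : T_CUT) (hO : T_OAO) (hINV : T_INV) (hFO : T_FO) {A : Atl n X ι} {w : ι → V n → ℝ}
    {f : V n → X} {I : Set (V n)} (hw : Gau A w) (hf : Sing A f I) {h : ι → V n → ℝ}
    {η : V n → ℝ} (hη : Eta A f I h η) {K0 H : ℝ}
    (hK0 : ∀ z ∈ Dp n \ I, 1 / 4 ≤ nsq z → nsq z ≤ 1 / 2 → |η z| ≤ K0)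
    (hH : ∀ a, ∀ y ∈ Metric.closedBall (0 : V n) (3 / 2), |h a y| ≤ H) (a : ι) {s : ℝ}
    (hs : K0 + H < |s|)
    (hmass : ∫⁻ z in Slv A f I h η a s, ENNReal.ofReal (PB A f w z) < ⊤)
    {b : V n → ℂ} (hb : Differentiable ℂ b) (hb1 : ∀ z ∈ Dp n, ‖b z‖ ≤ 1)
    {p : V n → ℂ} (hp : ContDiff ℝ ∞ p) (hpc : HasCompactSupport p)
    (hps : tsupport p ⊆ Metric.ball (0 : V n) (3 / 2)) (k : Fin n)
    (hint : IntegrableOn (fun z => b z * ((Dj (FF A f a) z : ℝ) : ℂ) *
      dzb p (FF A f a z) (ek k)) (Slv A f I h η a s)) :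
    ∫ z in Slv A f I h η a s, b z * ((Dj (FF A f a) z : ℝ) : ℂ) *
      dzb p (FF A f a z) (ek k) = 0 := by
  set F := FF A f a with hF
  set S := Slv A f I h η a s with hSdef
  have hOa := hO n X ι A f I hf a
  have hSo : IsOpen S := isOpen_Slv hO hf hη a s
  have hSm : MeasurableSet S := hSo.measurableSet
  have hSO : S ⊆ Oa A f I a := Slv_subset A f I h η a s
  -- dichotomy for points of the level
  have hdich : ∀ z ∈ Oa A f I a, η z - h a (F z) = s → F z ∈ Metric.ball (0 : V n) (3 / 2) →
      z ∈ S ∨ 1 / 2 < nsq z := by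
    intro z hz hzs hzb
    by_cases h1 : nsq z < 1 / 4
    · exact Or.inl ⟨hz, h1, hzs, hzb⟩
    · right
      by_contra h2
      push Not at h1 h2
      have h3 := hK0 z hz.1 h1 h2
      have h4 := hH a _ (Metric.ball_subset_closedBall hzb)
      have h5 : |s| ≤ |η z| + |h a (F z)| := by
        rw [← hzs]; exact abs_sub _ _
      linarith
  -- the functions of FO
  classical
  set q : V n → ℝ → ℂ := fun y s' => if s' = s then p y else 0 with hq
  set σ : V n → ℝ := fun z => η z - h a (F z) with hσ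
  obtain ⟨P, hP⟩ := hp.continuous.bounded_above_of_compact_support hpc
  have hP0 : 0 ≤ P := (norm_nonneg _).trans (hP 0)
  have hfdc : HasCompactSupport (fderiv ℝ p) := hpc.fderiv (𝕜 := ℝ)
  obtain ⟨P', hP'⟩ := (hp.continuous_fderiv (by simp)).bounded_above_of_compact_support hfdc
  have hP'0 : 0 ≤ P' := (norm_nonneg _).trans (hP' 0)
  have fo : ∀ t : ℝ, 1 ≤ t →
      IntegrableOn (fun z => ((chi z * rho t z : ℝ) : ℂ) * b z * (‖(jac F z).det‖ ^ 2 : ℝ) *
        dzb (fun y => q y (σ z)) (F z) (ek k)) (Oa A f I a) ∧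
      ∫ z in Oa A f I a, ((chi z * rho t z : ℝ) : ℂ) * b z * (‖(jac F z).det‖ ^ 2 : ℝ) *
        dzb (fun y => q y (σ z)) (F z) (ek k)
      = - ∫ z in Oa A f I a, q (F z) (σ z) * b z * (jac F z).det *
        dzb (fun x => ((chi x * rho t x : ℝ) : ℂ)) z (cf F k z) := by
    intro t ht
    have hct := (hC n).2.2.2.1 t ht
    have hsm : ContDiff ℝ ∞ (fun z : V n => chi z * rho t z) := (hC n).1.mul hct.1
    have hcs : HasCompactSupport (fun x : V n => ((chi x * rho t x : ℝ) : ℂ)) :=
      hct.2.2.1.comp_left (g := fun r : ℝ => (r : ℂ)) (by simp)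
    have hts : tsupport (fun x : V n => ((chi x * rho t x : ℝ) : ℂ)) ⊆ Dp n := by
      refine Subset.trans (closure_mono ?_) hct.2.2.2
      intro x hx hx0
      refine hx ?_
      simp only at hx0 ⊢
      rw [hx0]; simp
    have h1 := hFO n X ι A f I hf a k (fun x => ((chi x * rho t x : ℝ) : ℂ)) b q σ (3 / 2)
      (by norm_num) (Complex.ofRealCLM.contDiff.comp (hsm.of_le (by simp))) hcs hts
      hb.differentiableOn ?_ ?_ ?_ ?_
    · exact ⟨h1.1, h1.2.2⟩
    · intro z hz
      exact hη.loc a z hz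
    · intro s'
      simp only [hq]
      by_cases h2 : s' = s
      · simp only [h2, if_true]; exact hp.of_le (by simp)
      · simp only [h2, if_false]; exact contDiff_const
    · intro y s' h2
      simp only [hq] at h2
      by_cases h3 : s' = s
      · simp only [h3, if_true] at h2
        exact Metric.ball_subset_closedBall (hps (subset_tsupport _ h2))
      · simp only [h3, if_false] at h2
        exact absurd rfl h2
    · refine ⟨max P P', fun y s' => ?_⟩
      simp only [hq]
      by_cases h3 : s' = s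
      · simp only [h3, if_true]
        exact ⟨(hP y).trans (le_max_left _ _), (hP' y).trans (le_max_right _ _)⟩
      · simp only [h3, if_false]
        simp [hP0]
  -- left side
  set G : V n → ℂ := fun z => b z * ((Dj F z : ℝ) : ℂ) * dzb p (F z) (ek k) with hG
  have lhs : ∀ t : ℝ, 1 ≤ t → ∫ z in Oa A f I a, ((chi z * rho t z : ℝ) : ℂ) * b z *
      (‖(jac F z).det‖ ^ 2 : ℝ) * dzb (fun y => q y (σ z)) (F z) (ek k) =
      ∫ z in S, ((rho t z : ℝ) : ℂ) * G z := by
    intro t ht
    have hz0 : ∀ z ∈ Oa A f I a \ S, ((chi z * rho t z : ℝ) : ℂ) * b z *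
      (‖(jac F z).det‖ ^ 2 : ℝ) * dzb (fun y => q y (σ z)) (F z) (ek k) = 0 := by
      rintro z ⟨hz, hzS⟩
      by_cases h1 : σ z = s
      · by_cases h2 : F z ∈ Metric.ball (0 : V n) (3 / 2)
        · rcases hdich z hz h1 h2 with h3 | h3
          · exact absurd h3 hzS
          · have : chi z = 0 := ((hC n).2.2.1 z).2.2.2 h3.le
            rw [this]; simp
        · have h3 : F z ∉ tsupport p := fun h4 => h2 (hps h4)
          simp only [hq, h1, if_true]
          rw [dzb_support h3]; simp
      · simp only [hq, h1, if_false]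
        have : dzb (fun _ : V n => (0 : ℂ)) (F z) (ek k) = 0 := by
          unfold dzb; simp
        rw [this]; simp
    rw [setIntegral_eq_of_subset_of_forall_sdiff_eq_zero hOa.1.measurableSet hSO hz0]
    refine setIntegral_congr_fun hSm fun z hz => ?_
    have h1 : σ z = s := hz.2.2.1
    have h2 : chi z = 1 := ((hC n).2.2.1 z).2.2.1 hz.2.1.le
    simp only [hq, h1, if_true, h2, hG, Dj]
    push_cast
    ring
  -- limit of the left side
  have hlim : Tendsto (fun t : ℝ => ∫ z in S, ((rho t z : ℝ) : ℂ) * G z) atTop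
      (𝓝 (∫ z in S, G z)) := by
    refine tendsto_integral_filter_of_dominated_convergence (fun z => ‖G z‖) ?_ ?_ ?_ ?_
    · filter_upwards [eventually_ge_atTop (1:ℝ)] with t ht
      have h1 : Continuous (fun z : V n => ((rho t z : ℝ) : ℂ)) :=
        Complex.continuous_ofReal.comp ((hC n).2.2.2.1 t ht).1.continuous
      exact h1.aestronglyMeasurable.mul hint.aestronglyMeasurable
    · filter_upwards [eventually_ge_atTop (1:ℝ)] with t ht
      refine Filter.Eventually.of_forall fun z => ?_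
      rw [norm_mul, Complex.norm_real]
      have h1 := ((hC n).2.2.2.1 t ht).2.1 z
      rw [Real.norm_of_nonneg h1.1]
      calc rho t z * ‖G z‖ ≤ 1 * ‖G z‖ := mul_le_mul_of_nonneg_right h1.2.1 (norm_nonneg _)
        _ = ‖G z‖ := one_mul _
    · exact hint.norm
    · filter_upwards [ae_restrict_mem hSm] with z hz
      have hev : ∀ᶠ t : ℝ in atTop, ((rho t z : ℝ) : ℂ) * G z = G z := by
        filter_upwards [eventually_ge_atTop (1:ℝ), eventually_ge_atTop (-(lu z))] with t ht ht2
        have h1 := (((hC n).2.2.2.1 t ht).2.1 z).2.2.1 hz.1.1.1.1 (by linarith)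
        rw [h1]; simp
      exact tendsto_const_nhds.congr' (hev.mono fun t ht => ht.symm)
  -- right side
  have rhs : Tendsto (fun t : ℝ => ∫ z in Oa A f I a, q (F z) (σ z) * b z * (jac F z).det *
        dzb (fun x => ((chi x * rho t x : ℝ) : ℂ)) z (cf F k z)) atTop (𝓝 0) := by
    have hinv := hINV n X ι A w f I hw hf S hSm ?_ a k
    · rw [tendsto_zero_iff_norm_tendsto_zero]
      have hI2 : Tendsto (fun t : ℝ => ENNReal.ofReal P * ∫⁻ z in (Dp n \ I) ∩ Cb A f a 2 ∩ S ∩
          {z | nsq z ≤ 1 / 4}, ENNReal.ofReal (‖(jac (FF A f a) z).det‖ *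
            ‖dr (rho t) z (cf (FF A f a) k z)‖)) atTop (𝓝 0) := by
        have := ENNReal.Tendsto.const_mul hinv (Or.inr (ENNReal.ofReal_ne_top (r := P)))
        simpa using this
      have hI3 : Tendsto (fun t : ℝ => (ENNReal.ofReal P * ∫⁻ z in (Dp n \ I) ∩ Cb A f a 2 ∩ S ∩
          {z | nsq z ≤ 1 / 4}, ENNReal.ofReal (‖(jac (FF A f a) z).det‖ *
            ‖dr (rho t) z (cf (FF A f a) k z)‖)).toReal) atTop (𝓝 0) := by
        have := (ENNReal.tendsto_toReal ENNReal.zero_ne_top).comp hI2
        rw [ENNReal.toReal_zero] at this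
        exact this
      have hfinev : ∀ᶠ t : ℝ in atTop, (ENNReal.ofReal P * ∫⁻ z in (Dp n \ I) ∩ Cb A f a 2 ∩ S ∩
          {z | nsq z ≤ 1 / 4}, ENNReal.ofReal (‖(jac (FF A f a) z).det‖ *
            ‖dr (rho t) z (cf (FF A f a) k z)‖)) < ⊤ :=
        hI2.eventually (gt_mem_nhds (by simp))
      refine tendsto_of_tendsto_of_tendsto_of_le_of_le' tendsto_const_nhds hI3
        (Filter.Eventually.of_forall fun t => norm_nonneg _) ?_
      filter_upwards [eventually_ge_atTop (1:ℝ), hfinev] with t ht htfin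
      have hpt : ∀ z ∈ Oa A f I a, ‖q (F z) (σ z) * b z * (jac F z).det *
          dzb (fun x => ((chi x * rho t x : ℝ) : ℂ)) z (cf F k z)‖ₑ ≤
          ((Dp n \ I) ∩ Cb A f a 2 ∩ S ∩ {z | nsq z ≤ 1 / 4}).indicator
          (fun z => ENNReal.ofReal P * ENNReal.ofReal (‖(jac (FF A f a) z).det‖ *
            ‖dr (rho t) z (cf (FF A f a) k z)‖)) z := by
        intro z hz
        by_cases hzS : z ∈ S
        · have hmem : z ∈ (Dp n \ I) ∩ Cb A f a 2 ∩ S ∩ {z | nsq z ≤ 1 / 4} :=
            ⟨⟨⟨hz.1, hz.2.1, Metric.ball_subset_closedBall hz.2.2⟩, hzS⟩, hzS.2.1.le⟩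
          rw [indicator_of_mem hmem, ← ENNReal.ofReal_mul hP0, ← ofReal_norm]
          refine ENNReal.ofReal_le_ofReal ?_
          have h1 : σ z = s := hzS.2.2.1
          -- derivative of the cutoff
          have hct := (hC n).2.2.2.1 t ht
          have hsm : ContDiff ℝ ∞ (fun z : V n => chi z * rho t z) := (hC n).1.mul hct.1
          have hda : DifferentiableAt ℝ (fun z : V n => chi z * rho t z) z :=
            (hsm.differentiable (by simp)).differentiableAt
          have h2 := ((hLIN n z).2.2.2.1 (fun z : V n => chi z * rho t z) (cf F k z) hda).2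
          have h3 : (fun z : V n => chi z * rho t z) =ᶠ[𝓝 z] rho t := by
            have h4 : ∀ᶠ x in 𝓝 z, nsq x < 1 / 4 :=
              continuous_nsq.continuousAt.eventually (gt_mem_nhds hzS.2.1)
            filter_upwards [h4] with x hx
            rw [((hC n).2.2.1 x).2.2.1 hx.le, one_mul]
          have h5 : dr (fun z : V n => chi z * rho t z) z (cf F k z) =
              dr (rho t) z (cf F k z) := by
            unfold dr
            rw [h3.fderiv_eq]
          rw [h2, h5]
          simp only [hq, h1, if_true]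
          rw [norm_mul, norm_mul, norm_mul, RCLike.norm_conj]
          have h6 := hb1 z hz.1.1
          calc ‖p (F z)‖ * ‖b z‖ * ‖(jac F z).det‖ * ‖dr (rho t) z (cf F k z)‖
              ≤ P * 1 * ‖(jac F z).det‖ * ‖dr (rho t) z (cf F k z)‖ := by
                gcongr
                exact hP _
            _ = P * (‖(jac F z).det‖ * ‖dr (rho t) z (cf F k z)‖) := by ring
        · have h0 : q (F z) (σ z) * b z * (jac F z).det *
              dzb (fun x => ((chi x * rho t x : ℝ) : ℂ)) z (cf F k z) = 0 := by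
            by_cases h1 : σ z = s
            · by_cases h2 : F z ∈ Metric.ball (0 : V n) (3 / 2)
              · rcases hdich z hz h1 h2 with h3 | h3
                · exact absurd h3 hzS
                · have h4 : (fun x : V n => ((chi x * rho t x : ℝ) : ℂ)) =ᶠ[𝓝 z]
                      fun _ => (0:ℂ) := by
                    have h5 : ∀ᶠ x in 𝓝 z, 1 / 2 < nsq x :=
                      continuous_nsq.continuousAt.eventually (lt_mem_nhds h3)
                    filter_upwards [h5] with x hx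
                    rw [((hC n).2.2.1 x).2.2.2 hx.le]; simp
                  unfold dzb
                  rw [h4.fderiv_eq]
                  simp
              · have h3 : p (F z) = 0 := by
                  by_contra h4
                  exact h2 (hps (subset_tsupport _ h4))
                simp only [hq, h1, if_true, h3]
                simp
            · simp only [hq, h1, if_false]
              simp
          rw [h0]
          simp
      have h7 : ‖∫ z in Oa A f I a, q (F z) (σ z) * b z * (jac F z).det *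
          dzb (fun x => ((chi x * rho t x : ℝ) : ℂ)) z (cf F k z)‖ₑ ≤
          ENNReal.ofReal P * ∫⁻ z in (Dp n \ I) ∩ Cb A f a 2 ∩ S ∩
          {z | nsq z ≤ 1 / 4}, ENNReal.ofReal (‖(jac (FF A f a) z).det‖ *
            ‖dr (rho t) z (cf (FF A f a) k z)‖) := by
        refine (enorm_integral_le_lintegral_enorm _).trans ?_
        refine (setLIntegral_mono' hOa.1.measurableSet hpt).trans ?_
        refine (setLIntegral_le_lintegral _ _).trans ?_
        have hm4 : MeasurableSet ((Dp n \ I) ∩ Cb A f a 2 ∩ S ∩ {z : V n | nsq z ≤ 1 / 4}) :=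
          ((measurableSet_Cb hO hf a le_rfl).inter hSm).inter
            (isClosed_le continuous_nsq continuous_const).measurableSet
        rw [lintegral_indicator hm4, lintegral_const_mul' _ _ ENNReal.ofReal_ne_top]
      have h8 := (ENNReal.toReal_le_toReal (by simp) htfin.ne).2 h7
      simpa using h8
    · refine lt_of_le_of_lt (lintegral_mono_set ?_) hmass
      intro z hz
      exact hz.1.2
  have hzero : ∫ z in S, G z = 0 := by
    have h1 : Tendsto (fun t : ℝ => ∫ z in S, ((rho t z : ℝ) : ℂ) * G z) atTop (𝓝 (-0)) := by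
      refine rhs.neg.congr' ?_
      filter_upwards [eventually_ge_atTop (1:ℝ)] with t ht
      rw [← lhs t ht, (fo t ht).2]
    rw [neg_zero] at h1
    exact tendsto_nhds_unique hlim h1
  exact hzero

theorem con (hS : T_SMO) (hLIN : T_LIN) (hC : T_CUT) (hO : T_OAO) (hA : T_ARE) (hCMP : T_CMP)
    (hINV : T_INV) (hFO : T_FO) (hWHL : T_WHL) : T_CON := by
  intro n X _ _ _ ι _ A w f I h η hw hf hh hη hW
  obtain ⟨C, hCpos, hcmp⟩ := hCMP n X ι A w hw
  obtain ⟨H, hH0, hH⟩ := exists_H hh
  -- the shell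
  obtain ⟨K0, hK0⟩ : ∃ K0 : ℝ, ∀ z ∈ Dp n \ I, 1 / 4 ≤ nsq z → nsq z ≤ 1 / 2 → |η z| ≤ K0 := by
    have hcl : IsClosed {z : V n | 1 / 4 ≤ nsq z ∧ nsq z ≤ 1 / 2} :=
      (isClosed_le continuous_const continuous_nsq).inter
        (isClosed_le continuous_nsq continuous_const)
    have hsub : {z : V n | 1 / 4 ≤ nsq z ∧ nsq z ≤ 1 / 2} ⊆ Dp n := by
      rintro z ⟨h1, h2⟩
      exact ⟨by linarith, by linarith⟩
    have hcomp : IsCompact {z : V n | 1 / 4 ≤ nsq z ∧ nsq z ≤ 1 / 2} :=
      (isCompact_closedBall (0 : V n) 1).of_isClosed_subset hcl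
        (hsub.trans (Dp_subset_ball.trans Metric.ball_subset_closedBall))
    obtain ⟨K0, hK0⟩ := hf.s3 h η hh hη _ hsub hcomp
    exact ⟨K0, fun z hz h1 h2 => hK0 z ⟨⟨h1, h2⟩, hz.2⟩⟩
  have hn : 0 < n := by have := hf.two; omega
  refine ⟨|K0| + H + 1, by positivity, ?_⟩
  intro a s hs
  have hs' : K0 + H < |s| := by
    have := le_abs_self K0
    linarith
  set F := FF A f a with hF
  set S := Slv A f I h η a s with hSdef
  have hOa := hO n X ι A f I hf a
  have hSm : MeasurableSet S := (isOpen_Slv hO hf hη a s).measurableSet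
  have hSO : S ⊆ Oa A f I a := Slv_subset A f I h η a s
  have hmass := Slv_mass hO hf hη hW hH a s
  have hfin : ∫⁻ z in S, ENNReal.ofReal (Dj F z) < ⊤ := by
    refine lt_of_le_of_lt ?_ (ENNReal.mul_lt_top (ENNReal.ofReal_lt_top (r := C)) hmass)
    rw [← lintegral_const_mul' _ _ ENNReal.ofReal_ne_top]
    refine setLIntegral_mono' hSm fun z hz => ?_
    rw [← ENNReal.ofReal_mul hCpos.le]
    refine ENNReal.ofReal_le_ofReal ?_
    exact (hcmp f I hf z hz.1.1 a ⟨hz.1.2.1, Metric.ball_subset_closedBall hz.1.2.2⟩).1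
  have hfa := fin_ae hA hOa.1 hOa.2.1 hSm hSO hfin
  -- the fibres
  have hfib : ∀ᵐ y ∂(volume.restrict (Metric.ball (0 : V n) (3 / 2))),
      fib A f I h η a s y = Fb S F y := by
    have h3 := (hA n (Oa A f I a) S F (fun _ => 1) hOa.1 hOa.2.1 hSm hSO measurable_const).2.2
    have hnull : ∀ᵐ y ∂(volume.restrict (Metric.ball (0 : V n) (3 / 2))),
        y ∉ F '' {z ∈ S | (jac F z).det = 0} :=
      ae_restrict_of_ae (measure_eq_zero_iff_ae_notMem.1 h3)
    filter_upwards [hnull, ae_restrict_mem Metric.isOpen_ball.measurableSet] with y hy hyb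
    rw [fib_eq A f I h η a s hyb]
    ext z
    constructor
    · rintro ⟨h4, h5⟩
      exact ⟨h4, h5, fun h6 => hy ⟨z, ⟨h4, h6⟩, h5⟩⟩
    · rintro ⟨h4, h5, h6⟩
      exact ⟨h4, h5⟩
  -- the main claim for coordinates powers
  have main : ∀ (i : Fin n) (j : ℕ), IntegrableOn (fun y => ∑ᶠ z ∈ Fb S F y, (z i) ^ j)
      (Metric.ball (0 : V n) (3 / 2)) ∧
      ∀ p : V n → ℂ, ContDiff ℝ ∞ p → HasCompactSupport p →
        tsupport p ⊆ Metric.ball (0 : V n) (3 / 2) →
        ∀ k, ∫ y in Metric.ball (0 : V n) (3 / 2), (∑ᶠ z ∈ Fb S F y, (z i) ^ j) *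
          dzb p y (ek k) = 0 := by
    intro i j
    have hbd : Differentiable ℂ (fun z : V n => (z i) ^ j) := contDiff_coord i j
    obtain ⟨h1, h2⟩ := push hA hOa.1 hOa.2.1 hSm hSO hfin (fun z => (z i) ^ j)
      hbd.continuous.measurable (fun z hz => norm_coord_le hz.1.1.1 i j)
    refine ⟨h1.integrableOn, fun p hp hpc hps k => ?_⟩
    obtain ⟨h3, h4⟩ := h2 (fun y => dzb p y (ek k)) (continuous_dzb hp _) (dzb_bounded hp hpc _)
    have h5 := level_identity hS hLIN hC hO hINV hFO hw hf hη hK0 hH a hs' hmass hbd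
      (fun z hz => norm_coord_le hz i j) hp hpc hps k h3
    rw [setIntegral_eq_integral_of_forall_compl_eq_zero, h4]
    · exact h5
    · intro y hy
      rw [dzb_support (fun h6 => hy (hps h6)), mul_zero]
  refine ⟨?_, ?_⟩
  · -- the number of points
    set i0 : Fin n := ⟨0, hn⟩ with hi0
    obtain ⟨h1, h2⟩ := main i0 0
    have hcard : ∀ y, ∑ᶠ z ∈ Fb S F y, ((z i0) ^ 0 : ℂ) = (((Fb S F y).ncard : ℝ) : ℂ) := by
      intro y
      by_cases hy : (Fb S F y).Finite
      · rw [finsum_mem_eq_finite_toFinset_sum _ hy]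
        simp only [pow_zero, Finset.sum_const, nsmul_eq_mul, mul_one]
        rw [Set.ncard_eq_toFinset_card _ hy]
        simp
      · rw [Set.Infinite.ncard hy]
        rw [finsum_mem_eq_zero_of_infinite]
        · simp
        · simp only [pow_zero]
          rw [show (Function.support fun _ : V n => (1:ℂ)) = univ from by
            ext x; simp, inter_univ]
          exact hy
    have h3 : (fun y => ∑ᶠ z ∈ Fb S F y, ((z i0) ^ 0 : ℂ)) =
        fun y => (((Fb S F y).ncard : ℝ) : ℂ) := funext hcard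
    have h4 := (hWHL n 0 (3 / 2) (fun y => (((Fb S F y).ncard : ℝ) : ℂ)) (by norm_num)
      (by rw [← h3]; exact h1) (fun p hp hpc hps k => by
        have := h2 p hp hpc hps k
        rw [← this]
        refine integral_congr_ae (Filter.Eventually.of_forall fun y => ?_)
        simp only
        rw [hcard y])).2 (fun y => Complex.ofReal_im _)
    obtain ⟨c, hc⟩ := h4
    -- positive measure
    have hne : (volume.restrict (Metric.ball (0 : V n) (3 / 2))) ≠ 0 := by
      rw [Ne, Measure.restrict_eq_zero]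
      exact (Metric.measure_ball_pos _ _ (by norm_num)).ne'
    have : (ae (volume.restrict (Metric.ball (0 : V n) (3 / 2)))).NeBot := ae_neBot.2 hne
    obtain ⟨y0, hy0⟩ := hc.exists
    refine ⟨(Fb S F y0).ncard, ?_⟩
    filter_upwards [hc, hfib, ae_restrict_of_ae hfa] with y hy1 hy2 hy3
    rw [hy2]
    have h5 : (Fb S F y).ncard = (Fb S F y0).ncard := by
      have : (((Fb S F y).ncard : ℝ) : ℂ) = (((Fb S F y0).ncard : ℝ) : ℂ) := by
        rw [hy1, hy0]
      exact_mod_cast this
    rw [← h5]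
    exact (hy3.cast_ncard_eq).symm
  · intro i j
    obtain ⟨h1, h2⟩ := main i j
    obtain ⟨Q, hQ, hQe⟩ := (hWHL n 0 (3 / 2) _ (by norm_num) h1 h2).1
    refine ⟨Q, hQ, ?_⟩
    filter_upwards [hQe, hfib] with y hy1 hy2
    rw [← hy1, hy2]

end Pool.Agent.H15.VG
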