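import Mathlib
import Pool.Agent.H95.VG.Targets1
import Pool.Agent.H95.VG.Targets3
import Pool.Agent.H15.VG.Basic

/-!
# VG module NUL: null sets (helper15)
-/

open MeasureTheory Set Filter Topology
open scoped ENNReal NNReal ContDiff ComplexConjugate

namespace Pool.Agent.H15.VG

open Pool.Agent.H95.VG

variable {n : ℕ} {X : Type} [TopologicalSpace X] {ι : Type}

theorem preim_null (hS : T_SMO) (hA : T_ARE) {O : Set (V n)} {F : V n → V n} (hO : IsOpen O)
    (hF : DifferentiableOn ℂ F O) {E : Set (V n)} (hE : volume E = 0) :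
    volume {y ∈ O | F y ∈ E ∧ (jac F y).det ≠ 0} = 0 := by
  set E' := toMeasurable volume E with hE'
  have hE'0 : volume E' = 0 := by rw [hE', measure_toMeasurable]; exact hE
  have hE'm : MeasurableSet E' := measurableSet_toMeasurable _ _
  set S : Set (V n) := O ∩ F ⁻¹' E' with hS'
  have hSm : MeasurableSet S := by
    have h1 : Measurable (O.indicator F) := meas_ind hO.measurableSet hF.continuousOn
    have h2 : S = O ∩ (O.indicator F) ⁻¹' E' := by
      ext z
      constructor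
      · rintro ⟨h3, h4⟩
        refine ⟨h3, ?_⟩
        rw [mem_preimage, indicator_of_mem h3]; exact h4
      · rintro ⟨h3, h4⟩
        refine ⟨h3, ?_⟩
        rw [mem_preimage, indicator_of_mem h3] at h4; exact h4
    rw [h2]
    exact hO.measurableSet.inter (h1 hE'm)
  obtain ⟨h1, h2, h3⟩ := hA n O S F (fun _ => 1) hO hF hSm (fun z hz => hz.1) measurable_const
  simp only [one_mul] at h2
  have h4 : ∫⁻ y, ∑' _ : {z // z ∈ S ∧ F z = y ∧ (jac F z).det ≠ 0}, (1 : ℝ≥0∞) = 0 := by
    have hae : ∀ᵐ y ∂(volume : Measure (V n)), y ∉ E' := measure_eq_zero_iff_ae_notMem.1 hE'0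
    rw [lintegral_congr_ae (g := fun _ => 0) ?_]
    · simp
    · filter_upwards [hae] with y hy
      have : IsEmpty {z // z ∈ S ∧ F z = y ∧ (jac F z).det ≠ 0} := by
        refine ⟨fun z => hy ?_⟩
        rw [← z.2.2.1]
        exact z.2.1.2
      simp
  rw [h4] at h2
  have hm : Measurable (O.indicator (fun z => ENNReal.ofReal (‖(jac F z).det‖ ^ 2))) := by
    refine meas_ind hO.measurableSet ?_
    exact ENNReal.continuous_ofReal.comp_continuousOn ((contOn_det hS hO hF).norm.pow 2)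
  have h5 : ∫⁻ z in S, O.indicator (fun z => ENNReal.ofReal (‖(jac F z).det‖ ^ 2)) z = 0 := by
    rw [← h2]
    refine setLIntegral_congr_fun hSm fun z hz => ?_
    exact indicator_of_mem hz.1 _
  rw [lintegral_eq_zero_iff hm] at h5
  have h6 : ∀ᵐ z ∂(volume : Measure (V n)), z ∈ S → (jac F z).det = 0 := by
    rw [← ae_restrict_iff' hSm]
    filter_upwards [h5, ae_restrict_mem hSm] with z hz hzS
    rw [indicator_of_mem hzS.1] at hz
    simp only [Pi.zero_apply, ENNReal.ofReal_eq_zero] at hz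
    have h7 : ‖(jac F z).det‖ ^ 2 = 0 := le_antisymm hz (sq_nonneg _)
    simpa using h7
  refine measure_mono_null ?_ (ae_iff.1 h6)
  rintro y ⟨hy1, hy2, hy3⟩
  simp only [Classical.not_imp, mem_ofPred_eq]
  exact ⟨⟨hy1, subset_toMeasurable _ _ hy2⟩, hy3⟩

theorem nul (hS : T_SMO) (hO : T_OAO) (hCMP : T_CMP) (hA : T_ARE) : T_NUL := by
  intro n X _ _ _ ι _ A w f I hw hf hN
  obtain ⟨C, hC, hcmp⟩ := hCMP n X ι A w hw
  have two : ∀ (a : ι) (E : Set (V n)), volume E = 0 →
      volume {y ∈ Dp n \ I | f y ∈ (A.φ a).source ∧ A.φ a (f y) ∈ E} = 0 := by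
    intro a E hE
    have h1 := preim_null hS hA (isOpen_Ua hf a) (hf.hol a) hE
    refine measure_mono_null ?_ (measure_union_null h1 hN)
    rintro y ⟨hy, hya, hyE⟩
    by_cases hd : (jac (FF A f a) y).det = 0
    · right
      refine ⟨hy, ?_⟩
      obtain ⟨b, hb, hb1⟩ := A.cover (f y)
      have hb2 : A.φ b (f y) ∈ Metric.closedBall (0 : V n) 2 :=
        Metric.ball_subset_closedBall (Metric.ball_subset_ball (by norm_num) hb1)
      have h2 := (hcmp f I hf y hy b ⟨hb, hb2⟩).2.1
      have h3 := (hO n X ι A f I hf b).2.2.2.2.2 a y hy hb hya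
      rw [h3, Matrix.det_mul, hd] at h2
      simp only [mul_zero, norm_zero, ne_eq, OfNat.ofNat_ne_zero, not_false_eq_true, zero_pow] at h2
      exact le_antisymm h2 (PB_nonneg A hw.nonneg f y)
    · left
      exact ⟨⟨hy, hya⟩, hyE, hd⟩
  refine ⟨?_, two⟩
  intro Z hZ hZ0
  have h1 : ∀ b : ι, volume {y ∈ Dp n \ I | f y ∈ (A.φ b).source ∧
      A.φ b (f y) ∈ FF A f b '' (Z ∩ Ua A f I b)} = 0 := by
    intro b
    refine two b _ ?_
    refine addHaar_image_eq_zero_of_differentiableOn_of_addHaar_eq_zero volume ?_ ?_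
    · exact ((hf.hol b).restrictScalars ℝ).mono fun z hz => hz.2
    · exact measure_mono_null inter_subset_left hZ0
  refine measure_mono_null ?_ ((measure_iUnion_null_iff (ι := ι)).2 h1)
  rintro y ⟨hy, z, hz, hzy⟩
  obtain ⟨b, hb, hb1⟩ := A.cover (f y)
  refine mem_iUnion.2 ⟨b, hy, hb, z, ⟨hz, hZ hz, ?_⟩, ?_⟩
  · rw [hzy]; exact hb
  · unfold FF; rw [hzy]

end Pool.Agent.H15.VG
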