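import Mathlib
import Pool.Agent.H95.VG.Targets5
import Pool.Agent.H15.VG.Calc
import Pool.Agent.H78.VG.MOP

/-!
# VG module YFO: first order identity across I on the graph (helper15)
-/

open MeasureTheory Set Filter Topology
open scoped ENNReal NNReal ContDiff ComplexConjugate

namespace Pool.Agent.H15.VG

open Pool.Agent.H95.VG

variable {n : ℕ} {X : Type} [TopologicalSpace X] {ι : Type}

theorem mix_diffOn {O : Set (V n)} {F : V n → V n} (hF : DifferentiableOn ℂ F O)
    (Ψ : Fin n → Fin n ⊕ Fin n) : DifferentiableOn ℂ (mix Ψ F) O := by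
  rw [differentiableOn_pi]
  intro i
  unfold mix
  rcases h : Ψ i with j | j
  · simp only [Sum.elim_inl]
    exact (differentiable_pi.1 differentiable_id j).differentiableOn
  · simp only [Sum.elim_inr]
    exact differentiableOn_pi.1 hF j

/-- the closed ball around `append z₀ y₀` in terms of coordinates -/
theorem append_mem_closedBall {z y z₀ y₀ : V n} {r : ℝ}
    (h : Fin.append z y ∈ Metric.closedBall (Fin.append z₀ y₀) r) :
    z ∈ Metric.closedBall z₀ r ∧ y ∈ Metric.closedBall y₀ r := by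
  have hr : 0 ≤ r := dist_nonneg.trans (Metric.mem_closedBall.1 h)
  rw [Metric.mem_closedBall, dist_pi_le_iff hr] at h
  constructor
  · rw [Metric.mem_closedBall, dist_pi_le_iff hr]
    intro i
    have := h (Fin.castAdd n i)
    rwa [Fin.append_left, Fin.append_left] at this
  · rw [Metric.mem_closedBall, dist_pi_le_iff hr]
    intro i
    have := h (Fin.natAdd n i)
    rwa [Fin.append_right, Fin.append_right] at this

theorem append_mem_closedBall' {z y z₀ y₀ : V n} {r : ℝ} (hr : 0 ≤ r)
    (hz : z ∈ Metric.closedBall z₀ r) (hy : y ∈ Metric.closedBall y₀ r) :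
    Fin.append z y ∈ Metric.closedBall (Fin.append z₀ y₀) r := by
  rw [Metric.mem_closedBall, dist_pi_le_iff hr] at hz hy ⊢
  intro i
  refine Fin.addCases (fun i => ?_) (fun i => ?_) i
  · rw [Fin.append_left, Fin.append_left]; exact hz i
  · rw [Fin.append_right, Fin.append_right]; exact hy i

theorem yfo (hS : T_SMO) (hLIN : T_LIN) (hPRD : T_PRD) (hPIO : T_PIO) (hDIV : T_DIV)
    (hMOP : T_MOP) (hJAC : T_JAC) (hYMX : T_YMX) (hS2 : T_S2M) : T_YFO := by
  intro n X _ _ ι _ A f I D hn hM a z₀ y₀ r m G l hy₀ hG r' r'' ε Φ k g b hr' hr'' hε0 hε1 hgc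
    hgs hgb hb hb2 hint
  set P : V (n + n) := Fin.append z₀ y₀ with hP
  set F := FF A f a with hF
  set O := Ug A f I D a P r' with hO
  set Y : V n → V n := fun x => YY l P Φ ε (Zf F x) with hY
  obtain ⟨hop, -, hUg, -⟩ := hMOP n X ι A f I D hM
  have hOo : IsOpen O := hUg a P r'
  have hU : IsOpen {z | z ∈ D \ I ∧ f z ∈ (A.φ a).source} :=
    hM.cont.isOpen_inter_preimage hop (A.φ a).open_source
  have hFd : DifferentiableOn ℂ F O := (hM.hol a).mono fun z hz => ⟨hz.1, hz.2.1⟩
  have hFat : ∀ z ∈ O, DifferentiableAt ℂ F z := fun z hz =>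
    (hFd z hz).differentiableAt (hOo.mem_nhds hz)
  have hsub : Metric.ball P r' ⊆ Metric.ball P r := Metric.ball_subset_ball hr'.le
  have hYd : DifferentiableOn ℂ Y O := fun z hz =>
    ((hJAC n F z P r l (hFat z hz) hG.lhol (hsub hz.2.2) Φ ε).1).differentiableWithinAt
  obtain ⟨hXd, hXdiv⟩ := hPIO n O Y hOo hYd k
  have hXc : ContinuousOn (cf Y k) O := hXd.continuousOn
  have hZc : ContinuousOn (Zf F) O := Pool.Agent.H78.VG.continuousOn_Zf hFd.continuousOn
  -- off the closed set `g` vanishes in a neighbourhood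
  have hoff : ∀ z ∈ O, Zf F z ∉ Metric.closedBall P r'' → g =ᶠ[𝓝 z] fun _ => (0 : ℂ) := by
    intro z hz hzn
    have h1 : ∀ᶠ x in 𝓝 z, Zf F x ∉ Metric.closedBall P r'' :=
      (hZc.continuousAt (hOo.mem_nhds hz)).eventually
        (Metric.isClosed_closedBall.isOpen_compl.mem_nhds hzn)
    filter_upwards [h1, hOo.mem_nhds hz] with x hx hxO
    by_contra h0
    exact hx (hgs x hxO h0)
  have hoff' : ∀ z ∈ O, Zf F z ∉ Metric.closedBall P r'' → ∀ v, dzb g z v = 0 := by
    intro z hz hzn v
    unfold dzb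
    rw [(hoff z hz hzn).fderiv_eq]
    simp
  by_cases hr0 : r'' < 0
  · rw [setIntegral_eq_zero_of_forall_eq_zero]
    intro z hz
    rw [hoff' z hz (by rw [Metric.closedBall_eq_empty.2 hr0]; exact notMem_empty _), mul_zero]
  push Not at hr0
  -- the compact set
  set K : Set (V n) := Metric.closedBall z₀ r'' with hK
  have hKc : IsCompact K := isCompact_closedBall _ _
  have hKD : K ⊆ D := by
    intro z hz
    have h1 : Fin.append z y₀ ∈ Metric.closedBall P r'' :=
      append_mem_closedBall' hr0 hz (Metric.mem_closedBall_self hr0)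
    exact (hG.dom z y₀ (Metric.closedBall_subset_ball (by linarith) h1)).1
  obtain ⟨c, hcs, hc01, hcI, hc1, hcE⟩ := hS2 n X ι A f I D hn hM K hKD hKc
  set S : Set (V n) := {z | z ∈ O ∧ Zf F z ∈ Metric.closedBall P r''} with hSdef
  have hSO : S ⊆ O := fun z hz => hz.1
  have hSm : MeasurableSet S := by
    obtain ⟨W, hW1, hW2⟩ := (continuousOn_iff_isClosed.1 hZc) (Metric.closedBall P r'')
      Metric.isClosed_closedBall
    have h1 : S = W ∩ O := by
      rw [← hW2]
      ext z
      exact ⟨fun h => ⟨h.2, h.1⟩, fun h => ⟨h.2, h.1⟩⟩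
    rw [h1]
    exact hW1.measurableSet.inter hOo.measurableSet
  have hSK : ∀ z ∈ S, z ∈ K \ I ∧ z ∈ Cb A f a (5 / 2) := by
    rintro z ⟨hz, hzc⟩
    obtain ⟨h1, h2⟩ := append_mem_closedBall hzc
    refine ⟨⟨h1, hz.1.2⟩, hz.2.1, ?_⟩
    have h3 : dist (F z) y₀ ≤ r'' := h2
    have h4 : dist y₀ 0 ≤ 2 := hy₀
    have h5 := hG.rle
    have h6 : dist (F z) 0 ≤ 5 / 2 := (dist_triangle _ y₀ _).trans (by linarith)
    exact h6
  -- the cut off functions
  have key : ∀ j, ∫ z in O, (((c j z : ℝ) : ℂ) * (b z * dzb g z (cf Y k z)) +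
      b z * g z * conj (dr (c j) z (cf Y k z))) = 0 := by
    intro j
    classical
    set Gj : V n → ℂ := O.indicator (fun z => ((c j z : ℝ) : ℂ) * g z) with hGj
    -- the compact support
    set L : Set (V n) := closure {z | z ∈ K ∧ c j z ≠ 0} with hL
    have hLK : L ⊆ K := closure_minimal (fun z hz => hz.1) hKc.isClosed
    have hLc : IsCompact L := hKc.of_isClosed_subset isClosed_closure hLK
    have hLI : ∀ z ∈ L, z ∉ I := by
      intro z hz hzI
      have h1 := hcI j z ⟨hLK hz, hzI⟩
      obtain ⟨x, hx1, hx2⟩ := (mem_closure_iff_frequently.1 hz |>.and_eventually h1).exists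
      exact hx1.2 hx2
    set M : Set (V n) := L ∩ f ⁻¹' ((A.φ a).symm '' Metric.closedBall y₀ r'') with hMdef
    have hball : Metric.closedBall y₀ r'' ⊆ (A.φ a).target := by
      intro y hy
      refine A.ball a ?_
      have h3 : dist y y₀ ≤ r'' := hy
      have h4 : dist y₀ 0 ≤ 2 := hy₀
      have h5 := hG.rle
      exact (dist_triangle y y₀ 0).trans (by linarith)
    have hclX : IsClosed ((A.φ a).symm '' Metric.closedBall y₀ r'') :=
      ((isCompact_closedBall y₀ r'').image_of_continuousOn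
        ((A.φ a).continuousOn_symm.mono hball)).isClosed
    have hfL : ContinuousOn f L := hM.cont.mono fun z hz => ⟨hKD (hLK hz), hLI z hz⟩
    have hMclosed : IsClosed M := hfL.preimage_isClosed_of_isClosed isClosed_closure hclX
    have hMcomp : IsCompact M := hLc.of_isClosed_subset hMclosed inter_subset_left
    have hMO : M ⊆ O := by
      rintro z ⟨hzL, y, hy, hyz⟩
      have hsrc : f z ∈ (A.φ a).source := by
        rw [← hyz]; exact (A.φ a).map_target (hball hy)
      have hFz : F z = y := by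
        change A.φ a (f z) = y
        rw [← hyz, (A.φ a).right_inv (hball hy)]
      refine ⟨⟨hKD (hLK hzL), hLI z hzL⟩, hsrc, ?_⟩
      have h1 : Zf F z ∈ Metric.closedBall P r'' := by
        unfold Zf
        rw [hFz]
        exact append_mem_closedBall' hr0 (hLK hzL) hy
      exact Metric.closedBall_subset_ball hr'' h1
    have hsup : ∀ z, Gj z ≠ 0 → z ∈ M := by
      intro z hz
      have hzO : z ∈ O := by
        by_contra hn
        exact hz (indicator_of_notMem hn _)
      rw [hGj, indicator_of_mem hzO] at hz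
      have hc0 : c j z ≠ 0 := by
        intro h0; rw [h0] at hz; simp at hz
      have hg0 : g z ≠ 0 := by
        intro h0; rw [h0] at hz; simp at hz
      have h1 := hgs z hzO hg0
      obtain ⟨h2, h3⟩ := append_mem_closedBall h1
      refine ⟨subset_closure ⟨h2, hc0⟩, F z, h3, ?_⟩
      exact (A.φ a).left_inv hzO.2.1
    have htsup : tsupport Gj ⊆ M := closure_minimal hsup hMclosed
    have hGcomp : HasCompactSupport Gj := hMcomp.of_isClosed_subset (isClosed_tsupport _) htsup
    have hGjO : ∀ z ∈ O, Gj =ᶠ[𝓝 z] fun z => ((c j z : ℝ) : ℂ) * g z := by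
      intro z hz
      filter_upwards [hOo.mem_nhds hz] with x hx
      exact indicator_of_mem hx _
    have hcC : ContDiff ℝ 1 (fun z => ((c j z : ℝ) : ℂ)) :=
      Complex.ofRealCLM.contDiff.comp ((hcs j).of_le (by simp))
    have hGC : ContDiff ℝ 1 Gj := by
      rw [contDiff_iff_contDiffAt]
      intro z
      by_cases hz : z ∈ O
      · exact ((hcC.contDiffAt).mul (hgc.contDiffAt (hOo.mem_nhds hz))).congr_of_eventuallyEq
          (hGjO z hz)
      · have hz' : z ∉ tsupport Gj := fun h => hz (hMO (htsup h))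
        have : Gj =ᶠ[𝓝 z] fun _ => (0:ℂ) := by
          filter_upwards [(isClosed_tsupport Gj).isOpen_compl.mem_nhds hz'] with x hx
          exact image_eq_zero_of_notMem_tsupport hx
        exact contDiffAt_const.congr_of_eventuallyEq this
    have hdiv := hDIV n O (cf Y k) b Gj hOo hXd hXdiv hb hGC hGcomp (htsup.trans hMO)
    rw [← hdiv]
    refine setIntegral_congr_fun hOo.measurableSet fun z hz => ?_
    have hn' := hOo.mem_nhds hz
    have d1 : DifferentiableAt ℝ (c j) z := ((hcs j).differentiable (by simp)).differentiableAt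
    have d1' : DifferentiableAt ℝ (fun z => ((c j z : ℝ) : ℂ)) z :=
      (hcC.differentiable (by norm_num)).differentiableAt
    have d2 : DifferentiableAt ℝ g z := (hgc.differentiableOn (by norm_num)).differentiableAt hn'
    have e1 := ((hPRD n z (cf Y k z)).1 (fun z => ((c j z : ℝ) : ℂ)) g d1' d2).2
    have e2 := ((hLIN n z).2.2.2.1 (c j) (cf Y k z) d1).2
    have e3 : dzb Gj z (cf Y k z) = dzb (fun z => ((c j z : ℝ) : ℂ) * g z) z (cf Y k z) := by
      unfold dzb
      rw [(hGjO z hz).fderiv_eq]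
    rw [e3, e1, e2]
    ring
  -- the two limits
  have hdrc : ∀ j, ContinuousOn (fun z => dr (c j) z (cf Y k z)) O := fun j =>
    contOn_dr hOo (((hcs j).of_le (by simp)).contDiffOn) hXc
  have hlim1 : Tendsto (fun j => ∫ z in O, ((c j z : ℝ) : ℂ) * (b z * dzb g z (cf Y k z))) atTop
      (𝓝 (∫ z in O, b z * dzb g z (cf Y k z))) := by
    refine tendsto_integral_filter_of_dominated_convergence
      (fun z => ‖b z * dzb g z (cf Y k z)‖) ?_ ?_ ?_ ?_
    · refine Filter.Eventually.of_forall fun j => ?_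
      exact ((Complex.continuous_ofReal.comp (hcs j).continuous).aestronglyMeasurable).mul
        hint.aestronglyMeasurable
    · refine Filter.Eventually.of_forall fun j => Filter.Eventually.of_forall fun z => ?_
      rw [norm_mul, Complex.norm_real, Real.norm_of_nonneg (hc01 j z).1]
      calc c j z * ‖b z * dzb g z (cf Y k z)‖ ≤ 1 * ‖b z * dzb g z (cf Y k z)‖ :=
            mul_le_mul_of_nonneg_right (hc01 j z).2 (norm_nonneg _)
        _ = _ := one_mul _
    · exact hint.norm
    · filter_upwards [ae_restrict_mem hOo.measurableSet] with z hz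
      by_cases hzc : Zf F z ∈ Metric.closedBall P r''
      · have h1 := hc1 z (hSK z ⟨hz, hzc⟩).1
        have h2 : Tendsto (fun j => ((c j z : ℝ) : ℂ)) atTop (𝓝 ((1 : ℝ) : ℂ)) :=
          (Complex.continuous_ofReal.tendsto _).comp h1
        have h3 := h2.mul_const (b z * dzb g z (cf Y k z))
        simpa using h3
      · rw [hoff' z hz hzc]
        simp
  obtain ⟨Cg, hCg⟩ := hgb
  have hCg0 : (0:ℝ) ≤ |Cg| := abs_nonneg _
  obtain ⟨C, hC0, hC⟩ := hYMX n P r r' l hG.lhol hr'
  -- energy
  set En : ℕ → ℝ≥0∞ := fun j => ∫⁻ z in S, ENNReal.ofReal (ge (c j) z (cf Y k z)) with hEn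
  have hEnlim : Tendsto En atTop (𝓝 0) := by
    have hbound : ∀ j, En j ≤ ENNReal.ofReal C * ∑ Ψ : Fin n → Fin n ⊕ Fin n, ∑ k' : Fin n,
        ∫⁻ z in (K \ I) ∩ Cb A f a (5 / 2), ENNReal.ofReal (ge (c j) z (cf (mix Ψ F) k' z)) := by
      intro j
      have hmm : ∀ (Ψ : Fin n → Fin n ⊕ Fin n) (k' : Fin n),
          AEMeasurable (fun z => ENNReal.ofReal (ge (c j) z (cf (mix Ψ F) k' z)))
            (volume.restrict S) := by
        intro Ψ k'
        have h1 : ContinuousOn (cf (mix Ψ F) k') O := contOn_cf hS hOo (mix_diffOn hFd Ψ) k'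
        have h2 : ContinuousOn (fun z => dr (c j) z (cf (mix Ψ F) k' z)) O :=
          contOn_dr hOo (((hcs j).of_le (by simp)).contDiffOn) h1
        have h3 : ContinuousOn (fun z => ENNReal.ofReal (ge (c j) z (cf (mix Ψ F) k' z))) S :=
          ENNReal.continuous_ofReal.comp_continuousOn ((h2.norm.pow 2).mono hSO)
        exact h3.aemeasurable hSm
      calc En j ≤ ∫⁻ z in S, ENNReal.ofReal C * ∑ Ψ : Fin n → Fin n ⊕ Fin n, ∑ k' : Fin n,
            ENNReal.ofReal (ge (c j) z (cf (mix Ψ F) k' z)) := by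
            refine setLIntegral_mono' hSm fun z hz => ?_
            have hda : DifferentiableAt ℝ (c j) z :=
              ((hcs j).differentiable (by simp)).differentiableAt
            have h1 := (hC F z (hFat z hz.1)
              (Metric.closedBall_subset_closedBall hr''.le hz.2) Φ ε hε0 hε1 k).2.2 (c j) hda
            refine (ENNReal.ofReal_le_ofReal h1).trans ?_
            rw [ENNReal.ofReal_mul hC0]
            have hge : ∀ (v : V n), 0 ≤ ge (c j) z v := fun v => sq_nonneg _
            rw [ENNReal.ofReal_sum_of_nonneg fun Ψ _ => Finset.sum_nonneg fun k' _ => hge _]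
            refine le_of_eq ?_
            congr 1
            refine Finset.sum_congr rfl fun Ψ _ => ?_
            rw [ENNReal.ofReal_sum_of_nonneg fun k' _ => hge _]
        _ = ENNReal.ofReal C * ∑ Ψ : Fin n → Fin n ⊕ Fin n, ∑ k' : Fin n,
            ∫⁻ z in S, ENNReal.ofReal (ge (c j) z (cf (mix Ψ F) k' z)) := by
            rw [lintegral_const_mul' _ _ ENNReal.ofReal_ne_top]
            congr 1
            rw [lintegral_finsetSum' _ fun Ψ _ => Finset.aemeasurable_fun_sum _ fun k' _ => hmm Ψ k']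
            refine Finset.sum_congr rfl fun Ψ _ => ?_
            rw [lintegral_finsetSum' _ fun k' _ => hmm Ψ k']
        _ ≤ _ := by
            refine mul_le_mul_right ?_ _
            refine Finset.sum_le_sum fun Ψ _ => Finset.sum_le_sum fun k' _ => ?_
            exact lintegral_mono_set fun z hz => hSK z hz
    have hz : Tendsto (fun j => ENNReal.ofReal C * ∑ Ψ : Fin n → Fin n ⊕ Fin n, ∑ k' : Fin n,
        ∫⁻ z in (K \ I) ∩ Cb A f a (5 / 2), ENNReal.ofReal (ge (c j) z (cf (mix Ψ F) k' z))) atTop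
        (𝓝 0) := by
      have h1 : Tendsto (fun j => ∑ Ψ : Fin n → Fin n ⊕ Fin n, ∑ k' : Fin n,
        ∫⁻ z in (K \ I) ∩ Cb A f a (5 / 2), ENNReal.ofReal (ge (c j) z (cf (mix Ψ F) k' z))) atTop
        (𝓝 (∑ _Ψ : Fin n → Fin n ⊕ Fin n, ∑ _k' : Fin n, 0)) :=
        tendsto_finsetSum _ fun Ψ _ => tendsto_finsetSum _ fun k' _ => hcE a Ψ k'
      have h2 := ENNReal.Tendsto.const_mul h1 (Or.inr (ENNReal.ofReal_ne_top (r := C)))
      simpa using h2
    exact tendsto_of_tendsto_of_tendsto_of_le_of_le tendsto_const_nhds hz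
      (fun j => zero_le) hbound
  set B2 : ℝ≥0∞ := ∫⁻ z in S, ENNReal.ofReal (‖b z‖ ^ 2) with hB2
  have hB2fin : B2 < ⊤ := by
    have : S = O ∩ {z | Zf F z ∈ Metric.closedBall P r''} := rfl
    rw [hB2, this]
    exact hb2
  have hrpos : (0:ℝ) < 1 / 2 := by norm_num
  have hsecond : ∀ j, ∫⁻ z in O, ‖b z * g z * conj (dr (c j) z (cf Y k z))‖ₑ ≤
      ENNReal.ofReal |Cg| * (B2 ^ (1 / (2:ℝ)) * En j ^ (1 / (2:ℝ))) := by
    intro j
    have h1 : ∀ z ∈ O, ‖b z * g z * conj (dr (c j) z (cf Y k z))‖ₑ ≤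
        S.indicator (fun z => ENNReal.ofReal |Cg| * (‖b z‖ₑ * ‖dr (c j) z (cf Y k z)‖ₑ)) z := by
      intro z hz
      by_cases hzS : z ∈ S
      · rw [indicator_of_mem hzS, enorm_mul, enorm_mul]
        have h2 : ‖conj (dr (c j) z (cf Y k z))‖ₑ = ‖dr (c j) z (cf Y k z)‖ₑ := by
          rw [← ofReal_norm, ← ofReal_norm, RCLike.norm_conj]
        have h3 : ‖g z‖ₑ ≤ ENNReal.ofReal |Cg| := by
          rw [← ofReal_norm]
          exact ENNReal.ofReal_le_ofReal ((hCg z hz).trans (le_abs_self _))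
        rw [h2]
        calc ‖b z‖ₑ * ‖g z‖ₑ * ‖dr (c j) z (cf Y k z)‖ₑ
            ≤ ‖b z‖ₑ * ENNReal.ofReal |Cg| * ‖dr (c j) z (cf Y k z)‖ₑ := by gcongr
          _ = _ := by ring
      · have h0 : g z = 0 := by
          by_contra h0
          exact hzS ⟨hz, hgs z hz h0⟩
        rw [h0]
        simp
    calc ∫⁻ z in O, ‖b z * g z * conj (dr (c j) z (cf Y k z))‖ₑ
        ≤ ∫⁻ z in O, S.indicator
          (fun z => ENNReal.ofReal |Cg| * (‖b z‖ₑ * ‖dr (c j) z (cf Y k z)‖ₑ)) z :=
          setLIntegral_mono' hOo.measurableSet h1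
      _ ≤ ∫⁻ z, S.indicator
          (fun z => ENNReal.ofReal |Cg| * (‖b z‖ₑ * ‖dr (c j) z (cf Y k z)‖ₑ)) z :=
          setLIntegral_le_lintegral _ _
      _ = ENNReal.ofReal |Cg| * ∫⁻ z in S, ‖b z‖ₑ * ‖dr (c j) z (cf Y k z)‖ₑ := by
          rw [lintegral_indicator hSm, lintegral_const_mul' _ _ ENNReal.ofReal_ne_top]
      _ ≤ _ := by
          refine mul_le_mul_right ?_ _
          have hb' : AEMeasurable (fun z => ‖b z‖ₑ) (volume.restrict S) :=
            ((hb.continuousOn.mono hSO).enorm).aemeasurable hSm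
          have hd' : AEMeasurable (fun z => ‖dr (c j) z (cf Y k z)‖ₑ) (volume.restrict S) :=
            (((hdrc j).mono hSO).enorm).aemeasurable hSm
          have h2 := ENNReal.lintegral_mul_le_Lp_mul_Lq (volume.restrict S)
            (Real.HolderConjugate.two_two) hb' hd'
          refine h2.trans (le_of_eq ?_)
          have e1 : ∀ x : ℂ, ‖x‖ₑ ^ (2:ℝ) = ENNReal.ofReal (‖x‖ ^ 2) := by
            intro x
            rw [← ofReal_norm, ENNReal.ofReal_pow (norm_nonneg _)]
            norm_cast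
          simp only [e1]
          rfl
  have hlim2 : Tendsto (fun j => ∫ z in O, b z * g z * conj (dr (c j) z (cf Y k z))) atTop
      (𝓝 0) := by
    have hb0 : Tendsto (fun j => ENNReal.ofReal |Cg| * (B2 ^ (1 / (2:ℝ)) * En j ^ (1 / (2:ℝ))))
        atTop (𝓝 0) := by
      have h1 : Tendsto (fun j => En j ^ (1 / (2:ℝ))) atTop (𝓝 0) := by
        have := hEnlim.ennrpow_const (1 / (2:ℝ))
        rwa [ENNReal.zero_rpow_of_pos hrpos] at this
      have h2 := ENNReal.Tendsto.const_mul h1
        (Or.inr (ENNReal.rpow_ne_top_of_nonneg hrpos.le hB2fin.ne))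
      have h3 := ENNReal.Tendsto.const_mul h2 (Or.inr (ENNReal.ofReal_ne_top (r := |Cg|)))
      simpa using h3
    rw [tendsto_zero_iff_enorm_tendsto_zero]
    refine tendsto_of_tendsto_of_tendsto_of_le_of_le tendsto_const_nhds hb0
      (fun j => zero_le) fun j => ?_
    exact (enorm_integral_le_lintegral_enorm _).trans (hsecond j)
  -- conclusion
  have hev : ∀ᶠ j in atTop, ∫ z in O, ((c j z : ℝ) : ℂ) * (b z * dzb g z (cf Y k z)) =
      - ∫ z in O, b z * g z * conj (dr (c j) z (cf Y k z)) := by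
    have hfin : ∀ᶠ j in atTop, En j < ⊤ := hEnlim.eventually (gt_mem_nhds (by simp))
    filter_upwards [hfin] with j hj
    have i1 : IntegrableOn (fun z => ((c j z : ℝ) : ℂ) * (b z * dzb g z (cf Y k z))) O := by
      refine hint.norm.mono' (((Complex.continuous_ofReal.comp
        (hcs j).continuous).aestronglyMeasurable).mul hint.aestronglyMeasurable) ?_
      refine Filter.Eventually.of_forall fun z => ?_
      rw [norm_mul, Complex.norm_real, Real.norm_of_nonneg (hc01 j z).1]
      calc c j z * ‖b z * dzb g z (cf Y k z)‖ ≤ 1 * ‖b z * dzb g z (cf Y k z)‖ :=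
            mul_le_mul_of_nonneg_right (hc01 j z).2 (norm_nonneg _)
        _ = _ := one_mul _
    have i2 : IntegrableOn (fun z => b z * g z * conj (dr (c j) z (cf Y k z))) O := by
      refine ⟨?_, ?_⟩
      · refine ContinuousOn.aestronglyMeasurable ?_ hOo.measurableSet
        exact (hb.continuousOn.mul hgc.continuousOn).mul
          (Complex.continuous_conj.comp_continuousOn (hdrc j))
      · refine lt_of_le_of_lt (hsecond j) ?_
        refine ENNReal.mul_lt_top ENNReal.ofReal_lt_top (ENNReal.mul_lt_top ?_ ?_)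
        · exact ENNReal.rpow_lt_top_of_nonneg hrpos.le hB2fin.ne
        · exact ENNReal.rpow_lt_top_of_nonneg hrpos.le hj.ne
    have h1 := key j
    rw [integral_add i1 i2] at h1
    linear_combination h1
  have h1 : Tendsto (fun j => ∫ z in O, ((c j z : ℝ) : ℂ) * (b z * dzb g z (cf Y k z))) atTop
      (𝓝 (-0)) := hlim2.neg.congr' (hev.mono fun j hj => hj.symm)
  rw [neg_zero] at h1
  exact tendsto_nhds_unique hlim1 h1

end Pool.Agent.H15.VG
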