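import Mathlib
import Pool.Agent.H95.VG.Targets2
import Pool.Agent.H95.VG.Targets5
import Pool.Agent.H15.VG.Calc
import Pool.Agent.H15.VG.Push
import Pool.Agent.H15.VG.Yfo
import Pool.Agent.H78.VG.MOP

/-!
# VG module OUT: logarithms of polynomials on the graph (helper15)
-/

open MeasureTheory Set Filter Topology
open scoped ENNReal NNReal ContDiff ComplexConjugate

namespace Pool.Agent.H15.VG

open Pool.Agent.H95.VG

variable {n : ℕ} {X : Type} [TopologicalSpace X] {ι : Type}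

theorem lgd_le_one {P : MvPolynomial (Fin n) ℂ} (hP : Nrm P) {δ : ℝ} (hδ0 : 0 < δ) (hδ : δ ≤ 1)
    {z : V n} (hz : nsq z ≤ 1) : lgd P δ z ≤ 1 := by
  unfold lgd
  have h1 := hP.1 z hz
  have h2 : ‖MvPolynomial.eval z P‖ ^ 2 + δ ^ 2 ≤ 2 := by
    have : ‖MvPolynomial.eval z P‖ ^ 2 ≤ 1 := pow_le_one₀ (norm_nonneg _) h1
    have : δ ^ 2 ≤ 1 := pow_le_one₀ hδ0.le hδ
    linarith
  have h3 : 0 < ‖MvPolynomial.eval z P‖ ^ 2 + δ ^ 2 := by positivity
  have h4 : Real.log (‖MvPolynomial.eval z P‖ ^ 2 + δ ^ 2) ≤ Real.log 2 := Real.log_le_log h3 h2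
  have h5 := Real.log_two_lt_d9
  linarith

theorem continuousOn_YY {l : V (n + n) → V n} {P : V (n + n)} {W : Set (V (n + n))}
    (hl : ContinuousOn l W) (Φ : Fin n → Fin n ⊕ Fin n) (ε : ℝ) : ContinuousOn (YY l P Φ ε) W := by
  refine continuousOn_pi.2 fun i => ?_
  unfold YY
  exact ((continuous_apply i).comp_continuousOn hl).add
    (continuousOn_const.mul (((continuous_apply _).continuousOn).sub continuousOn_const))

theorem norm_YY_le {l : V (n + n) → V n} {P Z : V (n + n)} (Φ : Fin n → Fin n ⊕ Fin n) {ε : ℝ}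
    (h0 : 0 ≤ ε) (h1 : ε ≤ 1) : ‖YY l P Φ ε Z‖ ≤ ‖l Z‖ + ‖Z - P‖ := by
  refine (pi_norm_le_iff_of_nonneg (by positivity)).2 fun i => ?_
  unfold YY
  refine (norm_add_le _ _).trans (add_le_add (norm_le_pi_norm _ i) ?_)
  rw [norm_mul, Complex.norm_real, Real.norm_of_nonneg h0]
  calc ε * ‖Z (finSumFinEquiv (Φ i)) - P (finSumFinEquiv (Φ i))‖
      ≤ 1 * ‖Z (finSumFinEquiv (Φ i)) - P (finSumFinEquiv (Φ i))‖ :=
        mul_le_mul_of_nonneg_right h1 (norm_nonneg _)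
    _ = ‖(Z - P) (finSumFinEquiv (Φ i))‖ := by rw [one_mul]; rfl
    _ ≤ ‖Z - P‖ := norm_le_pi_norm _ _

theorem ej_pos (j : ℕ) : 0 < ej j := by unfold ej; positivity

theorem ej_le_one (j : ℕ) : ej j ≤ 1 := by
  unfold ej
  rw [div_le_one (by positivity)]
  have : (0:ℝ) ≤ j := Nat.cast_nonneg j
  linarith

/-- the estimate for one projection -/
theorem out_one [T2Space X] [Finite ι] (hSMO : T_SMO) (hA : T_ARE) (hMOP : T_MOP) (hJAC : T_JAC)
    (hYMX : T_YMX) (hS1M : T_S1M) (hLGI : T_LGI) (hLGP : T_LGP) (hLSB : T_LSB)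
    {c Cs : ℝ} (hc0 : 0 < c) (hc1 : c < 1) (hCs : 0 < Cs)
    (hSBM : ∀ (R M : ℝ) (g : V n → ℝ) (S : Set (V n)), 0 < R → 0 ≤ M →
      IntegrableOn g (Metric.ball (0 : V n) R) →
      (∀ p : V n → ℝ, ContDiff ℝ ∞ p → HasCompactSupport p → tsupport p ⊆ Metric.ball (0 : V n) R →
        (∀ y, 0 ≤ p y) → 0 ≤ ∫ y in Metric.ball (0 : V n) R, g y * ∑ k, lev p y (ek k)) →
      (∀ᵐ y ∂(volume.restrict (Metric.ball (0 : V n) R)), g y ≤ M) →
      S ⊆ Metric.ball (0 : V n) (c * R) → volume S ≠ 0 → (∀ y ∈ S, -M ≤ g y) →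
      ∫ y in Metric.ball (0 : V n) (c * R), |g y| ≤ Cs * R ^ (2 * n) * M)
    {A : Atl n X ι} {f : V n → X} {I : Set (V n)} (hn : 1 ≤ n) (hM : Mro A f I (Dp n))
    {a : ι} {z₀ y₀ : V n} {r : ℝ} {m : ℕ} {G : V (n + n) → V m} {l : V (n + n) → V n}
    (hy₀ : y₀ ∈ Metric.closedBall (0 : V n) 2)
    (hG : LGr A f I (Dp n) a (Fin.append z₀ y₀) r G l)
    {r' ε₀ δ₁ : ℝ} {D₀ : ℕ} (hF : FBd A f I (Dp n) a (Fin.append z₀ y₀) r G l r' ε₀ δ₁ D₀)
    (Φ : Fin n → Fin n ⊕ Fin n) (j : ℕ) (hj : ej j ≤ ε₀) :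
    ∃ C : ℝ, 0 ≤ C ∧ ∀ (d : ℕ) (P : MvPolynomial (Fin n) ℂ) (δ : ℝ),
      1 ≤ d → P.totalDegree ≤ d → Nrm P → 0 < δ → δ ≤ 1 →
      ∫⁻ z in {z | z ∈ Ug A f I (Dp n) a (Fin.append z₀ y₀) r' ∧
        YY l (Fin.append z₀ y₀) Φ (ej j) (Zf (FF A f a) z) ∈ Metric.ball (0 : V n) (c * δ₁)},
        ENNReal.ofReal |lgd P δ z| *
          ENNReal.ofReal (Dj (fun x => YY l (Fin.append z₀ y₀) Φ (ej j) (Zf (FF A f a) x)) z)
        ≤ ENNReal.ofReal (C * d) := by
  obtain ⟨⟨hr'0, hr'r, hε0, hε1, hδ1⟩, hprp, hcnt⟩ := hF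
  set Pt : V (n + n) := Fin.append z₀ y₀ with hPt
  set F := FF A f a with hFdef
  set O := Ug A f I (Dp n) a Pt r' with hOdef
  set Y : V n → V n := fun x => YY l Pt Φ (ej j) (Zf F x) with hY
  obtain ⟨hop, -, hUg, -⟩ := hMOP n X ι A f I (Dp n) hM
  have hOo : IsOpen O := hUg a Pt r'
  have hODp : O ⊆ Dp n := fun z hz => hz.1.1
  have hFd : DifferentiableOn ℂ F O := (hM.hol a).mono fun z hz => ⟨hz.1, hz.2.1⟩
  have hFat : ∀ z ∈ O, DifferentiableAt ℂ F z := fun z hz =>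
    (hFd z hz).differentiableAt (hOo.mem_nhds hz)
  have hsub : Metric.ball Pt r' ⊆ Metric.ball Pt r := Metric.ball_subset_ball hr'r.le
  have hYd : DifferentiableOn ℂ Y O := fun z hz =>
    ((hJAC n F z Pt r l (hFat z hz) hG.lhol (hsub hz.2.2) Φ (ej j)).1).differentiableWithinAt
  have hZc : ContinuousOn (Zf F) O := Pool.Agent.H78.VG.continuousOn_Zf hFd.continuousOn
  have hYc : ContinuousOn Y O := hYd.continuousOn
  -- points of the graph satisfy G = 0
  have hGz : ∀ z ∈ O, G (Zf F z) = 0 := by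
    intro z hz
    exact (hG.gr z (F z) (hsub hz.2.2) hz.1.2).2 ⟨hz.2.1, rfl⟩
  -- (a) compactness
  obtain ⟨r'', hr''0, hr''1, hr''2⟩ : ∃ r'' : ℝ, 0 ≤ r'' ∧ r'' < r' ∧
      ∀ z ∈ O, ‖Y z‖ ≤ δ₁ → Zf F z ∈ Metric.closedBall Pt r'' := by
    have hcb : Metric.closedBall Pt r' ⊆ Metric.ball Pt r := Metric.closedBall_subset_ball hr'r
    have hGc : ContinuousOn G (Metric.closedBall Pt r') := hG.ghol.continuousOn.mono hcb
    have hYYc : ContinuousOn (YY l Pt Φ (ej j)) (Metric.closedBall Pt r') :=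
      continuousOn_YY (hG.lhol.continuousOn.mono hcb) Φ _
    set KK : Set (V (n + n)) := Metric.closedBall Pt r' ∩
      ((fun Z => (G Z, ‖YY l Pt Φ (ej j) Z‖)) ⁻¹' ({0} ×ˢ Set.Iic δ₁)) with hKK
    have hKKc : IsCompact KK := by
      refine (isCompact_closedBall Pt r').of_isClosed_subset ?_ inter_subset_left
      refine ContinuousOn.preimage_isClosed_of_isClosed (hGc.prodMk hYYc.norm)
        Metric.isClosed_closedBall ?_
      exact isClosed_singleton.prod isClosed_Iic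
    have hmem : ∀ z ∈ O, ‖Y z‖ ≤ δ₁ → Zf F z ∈ KK := fun z hz hY' =>
      ⟨Metric.ball_subset_closedBall hz.2.2, by
        simp only [mem_preimage, mem_prod, mem_singleton_iff, mem_Iic]
        exact ⟨hGz z hz, hY'⟩⟩
    rcases KK.eq_empty_or_nonempty with h0 | hne
    · refine ⟨0, le_rfl, hr'0, fun z hz hY' => ?_⟩
      have := hmem z hz hY'
      rw [h0] at this
      exact absurd this (notMem_empty _)
    · obtain ⟨Z, hZ, hZmax⟩ := hKKc.exists_isMaxOn hne
        (continuous_id.dist (continuous_const (y := Pt))).continuousOn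
      refine ⟨dist Z Pt, dist_nonneg, ?_, fun z hz hY' => ?_⟩
      · refine lt_of_le_of_ne hZ.1 fun h1 => ?_
        have h2 := hprp Φ (ej j) (ej_pos j).le hj Z h1 hZ.2.1
        have h3 : ‖YY l Pt Φ (ej j) Z‖ ≤ δ₁ := hZ.2.2
        linarith
      · exact hZmax (hmem z hz hY')
  -- (b) finiteness
  set Q : Set (V n) := {z | z ∈ O ∧ Zf F z ∈ Metric.closedBall Pt r''} with hQ
  have hQm : MeasurableSet Q := by
    obtain ⟨W, hW1, hW2⟩ := (continuousOn_iff_isClosed.1 hZc) (Metric.closedBall Pt r'')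
      Metric.isClosed_closedBall
    have h1 : Q = W ∩ O := by
      rw [← hW2]
      ext z
      exact ⟨fun h => ⟨h.2, h.1⟩, fun h => ⟨h.2, h.1⟩⟩
    rw [h1]
    exact hW1.measurableSet.inter hOo.measurableSet
  obtain ⟨CY, hCY0, hCY⟩ := hYMX n Pt r r' l hG.lhol hr'r
  have hQfin : ∫⁻ z in Q, ENNReal.ofReal (Dj Y z) < ⊤ := by
    set K : Set (V n) := Metric.closedBall z₀ r'' with hK
    have hKD : K ⊆ Dp n := by
      intro z hz
      have h1 : Fin.append z y₀ ∈ Metric.closedBall Pt r'' :=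
        append_mem_closedBall' hr''0 hz (Metric.mem_closedBall_self hr''0)
      exact (hG.dom z y₀ (Metric.closedBall_subset_ball (by linarith) h1)).1
    have hs1 := hS1M n X ι A f I (Dp n) hn hM K hKD (isCompact_closedBall _ _) a
    have hle : ∫⁻ z in Q, ENNReal.ofReal (Dj Y z) ≤
        ENNReal.ofReal CY * ∫⁻ z in (K \ I) ∩ Cb A f a (5 / 2), ENNReal.ofReal (Dm F z) := by
      rw [← lintegral_const_mul' _ _ ENNReal.ofReal_ne_top]
      calc ∫⁻ z in Q, ENNReal.ofReal (Dj Y z)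
          ≤ ∫⁻ z in Q, ENNReal.ofReal CY * ENNReal.ofReal (Dm F z) := by
            refine setLIntegral_mono' hQm fun z hz => ?_
            rw [← ENNReal.ofReal_mul hCY0]
            refine ENNReal.ofReal_le_ofReal ?_
            exact (hCY F z (hFat z hz.1) (Metric.closedBall_subset_closedBall hr''1.le hz.2) Φ
              (ej j) (ej_pos j).le (ej_le_one j) ⟨0, hn⟩).1
        _ ≤ _ := by
            refine lintegral_mono_set ?_
            rintro z ⟨hz, hzc⟩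
            obtain ⟨h1, h2⟩ := append_mem_closedBall hzc
            refine ⟨⟨h1, hz.1.2⟩, hz.2.1, ?_⟩
            have h3 : dist (F z) y₀ ≤ r'' := h2
            have h4 : dist y₀ 0 ≤ 2 := hy₀
            have h5 := hG.rle
            have h6 : dist (F z) 0 ≤ 5 / 2 := (dist_triangle _ y₀ _).trans (by linarith)
            exact h6
    exact lt_of_le_of_lt hle (ENNReal.mul_lt_top ENNReal.ofReal_lt_top hs1)
  -- the small ball
  set B : Set (V n) := Metric.ball (0 : V n) (c * δ₁) with hB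
  have hBm : MeasurableSet B := Metric.isOpen_ball.measurableSet
  have hcδ : 0 < c * δ₁ := by positivity
  have hvB : 0 < volume B := Metric.measure_ball_pos _ _ hcδ
  have hvBfin : volume B < ⊤ := measure_ball_lt_top
  have hB1 : B ⊆ Metric.ball (0 : V n) δ₁ := Metric.ball_subset_ball (by nlinarith)
  -- (c) absolute continuity
  obtain ⟨η, hη0, hη⟩ := exists_pos_setLIntegral_lt_of_measure_lt (μ := volume.restrict Q)
    (f := fun z => ENNReal.ofReal (Dj Y z)) hQfin.ne (ε := volume B / 2)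
    (ENNReal.half_pos hvB.ne').ne'
  -- (d) the constants
  obtain ⟨CL, hCL⟩ := hLGI n hn
  obtain ⟨Aa, hAa0, hAa⟩ : ∃ Aa : ℝ, 0 < Aa ∧ ENNReal.ofReal (|CL| / Aa) < η := by
    by_cases hηt : η = ⊤
    · exact ⟨1, one_pos, by rw [hηt]; exact ENNReal.ofReal_lt_top⟩
    · have hηr : 0 < η.toReal := ENNReal.toReal_pos hη0.ne' hηt
      refine ⟨(|CL| + 1) / η.toReal, by positivity, ?_⟩
      refine lt_of_lt_of_eq ?_ (ENNReal.ofReal_toReal hηt)
      refine (ENNReal.ofReal_lt_ofReal_iff hηr).2 ?_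
      rw [div_div_eq_mul_div, div_lt_iff₀ (by positivity)]
      nlinarith
  set CC : ℝ := 2 * D₀ * (volume B).toReal + Cs * δ₁ ^ (2 * n) * ((Aa + 1) * D₀) with hCC
  have hCC0 : 0 ≤ CC := by rw [hCC]; positivity
  refine ⟨CC, hCC0, ?_⟩
  intro d P δ hd hPd hPn hδ0 hδle
  have hdr : (1:ℝ) ≤ d := by exact_mod_cast hd
  set g := lgd P δ with hg
  obtain ⟨hgs, hgp⟩ := hLGP n P δ hδ0
  rw [← hg] at hgs hgp
  have hgc : Continuous g := hgs.continuous
  have hg1 : ∀ z ∈ O, g z ≤ 1 := fun z hz => lgd_le_one hPn hδ0 hδle (hODp hz).2.le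
  obtain ⟨u, hui, hufib, husub⟩ := hLSB n X ι A f I (Dp n) hn hM a z₀ y₀ r m G l hy₀ hG
    r' ε₀ δ₁ D₀ ⟨⟨hr'0, hr'r, hε0, hε1, hδ1⟩, hprp, hcnt⟩ Φ j hj g hgs hgp
  -- fibres
  set fb : V n → Set (V n) := fun w => {z | z ∈ O ∧ Y z = w} with hfb
  have hae : ∀ᵐ w ∂(volume.restrict (Metric.ball (0 : V n) δ₁)),
      (fb w).Finite ∧ (fb w).encard ≤ D₀ ∧ u w = ∑ᶠ z ∈ fb w, g z := by
    filter_upwards [hufib, hcnt Φ j hj] with w h1 h2
    exact ⟨h1.1, h2, h1.2⟩
  -- (e) the bad set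
  set E : Set (V n) := {z | z ∈ O ∧ g z < -(Aa * d)} with hE
  have hEo : IsOpen E := hOo.inter (isOpen_lt hgc continuous_const)
  have hEvol : volume E < η := by
    have h1 := (hCL d P δ hd hPd hPn hδ0 hδle).1
    have h2 : E ⊆ {z : V n | nsq z ≤ 1} ∩ {z | ENNReal.ofReal (Aa * d) ≤ ENNReal.ofReal |g z|} := by
      rintro z ⟨hz, hzg⟩
      refine ⟨(hODp hz).2.le, ?_⟩
      refine ENNReal.ofReal_le_ofReal ?_
      have := neg_le_abs (g z)
      linarith
    have hm1 : MeasurableSet {z : V n | nsq z ≤ 1} :=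
      (isClosed_le continuous_nsq continuous_const).measurableSet
    have hAd : 0 < Aa * d := by positivity
    have h3 : volume ({z : V n | nsq z ≤ 1} ∩
        {z | ENNReal.ofReal (Aa * d) ≤ ENNReal.ofReal |g z|}) ≤
        (∫⁻ z in {z : V n | nsq z ≤ 1}, ENNReal.ofReal |g z|) / ENNReal.ofReal (Aa * d) := by
      have h4 := meas_ge_le_lintegral_div (μ := volume.restrict {z : V n | nsq z ≤ 1})
        (f := fun z => ENNReal.ofReal |g z|)
        (ENNReal.continuous_ofReal.comp hgc.abs).measurable.aemeasurable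
        (ENNReal.ofReal_pos.2 hAd).ne' ENNReal.ofReal_ne_top
      rw [Measure.restrict_apply' hm1] at h4
      rw [inter_comm]
      exact h4
    refine lt_of_le_of_lt ((measure_mono h2).trans h3) ?_
    refine lt_of_le_of_lt (ENNReal.div_le_div_right h1 _) ?_
    rw [← ENNReal.ofReal_div_of_pos hAd]
    refine lt_of_le_of_lt (ENNReal.ofReal_le_ofReal ?_) hAa
    rw [mul_comm Aa, ← div_div, mul_div_assoc, div_self (by positivity : (d:ℝ) ≠ 0), mul_one]
    exact div_le_div_of_nonneg_right (le_abs_self _) hAa0.le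
  -- (f) the good set
  set S1 : Set (V n) := {z | z ∈ E ∧ Y z ∈ B} with hS1
  have hYpre : ∀ W : Set (V n), W ⊆ O → MeasurableSet W → MeasurableSet {z | z ∈ W ∧ Y z ∈ B} := by
    intro W hWO hW
    have h1 : IsOpen (O ∩ Y ⁻¹' B) := hYc.isOpen_inter_preimage hOo Metric.isOpen_ball
    have h2 : {z | z ∈ W ∧ Y z ∈ B} = W ∩ (O ∩ Y ⁻¹' B) := by
      ext z
      exact ⟨fun h => ⟨h.1, hWO h.1, h.2⟩, fun h => ⟨h.1, h.2.2⟩⟩
    rw [h2]
    exact hW.inter h1.measurableSet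
  have hS1m : MeasurableSet S1 := hYpre E (fun z hz => hz.1) hEo.measurableSet
  have hS1O : S1 ⊆ O := fun z hz => hz.1.1
  obtain ⟨hN1m, hN1⟩ := are' hA hOo hYd hS1m hS1O (fun _ => 1) measurable_const
  simp only [one_mul] at hN1
  have hS1lt : ∫⁻ z in S1, ENNReal.ofReal (Dj Y z) < volume B / 2 := by
    have h1 := hη E (lt_of_le_of_lt (Measure.restrict_apply_le _ _) hEvol)
    rw [Measure.restrict_restrict hEo.measurableSet] at h1
    refine lt_of_le_of_lt (lintegral_mono_set ?_) h1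
    rintro z ⟨hzE, hzB⟩
    refine ⟨hzE, hzE.1, hr''2 z hzE.1 ?_⟩
    have h2 := hB1 hzB
    rw [mem_ball_zero_iff] at h2
    exact h2.le
  set W1 : Set (V n) := {w | (Fb S1 Y w).Nonempty} with hW1
  have hW1vol : volume W1 < volume B / 2 := by
    refine lt_of_le_of_lt ?_ hS1lt
    rw [hN1]
    have hsubW : W1 ⊆ {w | (1:ℝ≥0∞) ≤ ∑' _ : Fb S1 Y w, (1 : ℝ≥0∞)} := by
      intro w hw
      show (1:ℝ≥0∞) ≤ ∑' _ : Fb S1 Y w, (1 : ℝ≥0∞)
      rw [ENNReal.tsum_set_one]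
      have h1 : (1 : ℕ∞) ≤ (Fb S1 Y w).encard := Set.one_le_encard_iff_nonempty.2 hw
      have h2 := ENat.toENNReal_le.2 h1
      simpa using h2
    have h3 := mul_meas_ge_le_lintegral (μ := volume) hN1m 1
    rw [one_mul] at h3
    exact (measure_mono hsubW).trans h3
  have hcrit := (hA n O S1 Y (fun _ => 1) hOo hYd hS1m hS1O measurable_const).2.2
  set N2 : Set (V n) := Y '' {z ∈ S1 | (jac Y z).det = 0} with hN2
  have hae' : ∀ᵐ w ∂(volume.restrict B), (fb w).Finite ∧ (fb w).encard ≤ D₀ ∧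
      u w = ∑ᶠ z ∈ fb w, g z := ae_restrict_of_ae_restrict_of_subset hB1 hae
  set S0 : Set (V n) := {w | w ∈ B ∧ w ∉ W1 ∧ w ∉ N2 ∧ (fb w).Finite ∧ (fb w).encard ≤ D₀ ∧
      u w = ∑ᶠ z ∈ fb w, g z} with hS0
  have hS0vol : volume S0 ≠ 0 := by
    intro h0
    have hN3 : volume {w | w ∈ B ∧ ¬ ((fb w).Finite ∧ (fb w).encard ≤ D₀ ∧
        u w = ∑ᶠ z ∈ fb w, g z)} = 0 := by
      have h1 := ae_iff.1 ((ae_restrict_iff' hBm).1 hae')
      refine measure_mono_null ?_ h1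
      rintro w ⟨h2, h3⟩
      exact fun h4 => h3 (h4 h2)
    have hcov : B ⊆ W1 ∪ (S0 ∪ (N2 ∪ {w | w ∈ B ∧ ¬ ((fb w).Finite ∧ (fb w).encard ≤ D₀ ∧
        u w = ∑ᶠ z ∈ fb w, g z)})) := by
      intro w hw
      by_cases h1 : w ∈ W1
      · exact Or.inl h1
      by_cases h2 : w ∈ N2
      · exact Or.inr (Or.inr (Or.inl h2))
      by_cases h3 : (fb w).Finite ∧ (fb w).encard ≤ D₀ ∧ u w = ∑ᶠ z ∈ fb w, g z
      · exact Or.inr (Or.inl ⟨hw, h1, h2, h3⟩)
      · exact Or.inr (Or.inr (Or.inr ⟨hw, h3⟩))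
    have hnull : volume (S0 ∪ (N2 ∪ {w | w ∈ B ∧ ¬ ((fb w).Finite ∧ (fb w).encard ≤ D₀ ∧
        u w = ∑ᶠ z ∈ fb w, g z)})) = 0 :=
      measure_union_null h0 (measure_union_null hcrit hN3)
    have h4 := (measure_mono (μ := volume) hcov).trans (measure_union_le _ _)
    rw [hnull, add_zero] at h4
    have h5 : volume B < volume B / 2 := lt_of_le_of_lt h4 hW1vol
    exact absurd h5 (not_lt.2 ENNReal.half_le_self)
  have hD0 : (0:ℝ) ≤ D₀ := Nat.cast_nonneg _
  set M : ℝ := (Aa + 1) * D₀ * d with hMdef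
  have hM0 : 0 ≤ M := by rw [hMdef]; positivity
  have hcardle : ∀ w, ∀ h : (fb w).Finite, (fb w).encard ≤ D₀ → (h.toFinset.card : ℝ) ≤ D₀ := by
    intro w h1 h2
    rw [h1.encard_eq_coe_toFinset_card] at h2
    have h3 : h1.toFinset.card ≤ D₀ := by exact_mod_cast h2
    exact_mod_cast h3
  have hlow : ∀ w ∈ S0, -M ≤ u w := by
    rintro w ⟨hwB, hwW, hwN, hfin, hcard, huw⟩
    rw [huw, finsum_mem_eq_finite_toFinset_sum _ hfin]
    have h1 : ∀ z ∈ hfin.toFinset, -(Aa * d) ≤ g z := by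
      intro z hz
      rw [Set.Finite.mem_toFinset] at hz
      by_contra hcon
      push Not at hcon
      have hzS : z ∈ S1 := ⟨⟨hz.1, hcon⟩, by rw [hz.2]; exact hwB⟩
      by_cases hdet : (jac Y z).det = 0
      · exact hwN ⟨z, ⟨hzS, hdet⟩, hz.2⟩
      · exact hwW ⟨z, hzS, hz.2, hdet⟩
    have h2 := Finset.card_nsmul_le_sum hfin.toFinset g (-(Aa * d)) h1
    rw [nsmul_eq_mul] at h2
    have h3 := hcardle w hfin hcard
    have h4 : (hfin.toFinset.card : ℝ) * (Aa * d) ≤ D₀ * (Aa * d) :=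
      mul_le_mul_of_nonneg_right h3 (by positivity)
    rw [hMdef]
    have h5 : 0 ≤ (D₀:ℝ) * d := by positivity
    nlinarith
  -- (g) upper bound
  have hup : ∀ᵐ w ∂(volume.restrict (Metric.ball (0 : V n) δ₁)), u w ≤ M := by
    filter_upwards [hae] with w hw
    obtain ⟨hfin, hcard, huw⟩ := hw
    rw [huw, finsum_mem_eq_finite_toFinset_sum _ hfin]
    have h1 : ∀ z ∈ hfin.toFinset, g z ≤ 1 := by
      intro z hz
      rw [Set.Finite.mem_toFinset] at hz
      exact hg1 z hz.1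
    have h2 := Finset.sum_le_card_nsmul hfin.toFinset g 1 h1
    rw [nsmul_eq_mul, mul_one] at h2
    have h3 := hcardle w hfin hcard
    rw [hMdef]
    have h4 : (D₀ : ℝ) ≤ (Aa + 1) * D₀ * d := by
      have h5 : (1:ℝ) ≤ (Aa + 1) * d := by nlinarith
      nlinarith
    linarith
  -- (h) the L¹ bound
  have hL1 := hSBM δ₁ M u S0 hδ1 hM0 hui husub hup (fun w hw => hw.1) hS0vol hlow
  -- (i) the area formula backwards
  set S2 : Set (V n) := {z | z ∈ O ∧ Y z ∈ B} with hS2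
  have hS2m : MeasurableSet S2 := hYpre O (fun z hz => hz) hOo.measurableSet
  have hS2O : S2 ⊆ O := fun z hz => hz.1
  obtain ⟨-, hN2'⟩ := are' hA hOo hYd hS2m hS2O (fun z => ENNReal.ofReal |g z|)
    (ENNReal.continuous_ofReal.comp hgc.abs).measurable
  rw [hN2']
  have hbound : ∀ᵐ w : V n, ∑' z : Fb S2 Y w, ENNReal.ofReal |g z| ≤
      B.indicator (fun w => ENNReal.ofReal (2 * D₀ - u w)) w := by
    have h1 := (ae_restrict_iff' hBm).1 hae'
    filter_upwards [h1] with w hw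
    by_cases hwB : w ∈ B
    · obtain ⟨hfin, hcard, huw⟩ := hw hwB
      rw [indicator_of_mem hwB]
      have hsubf : Fb S2 Y w ⊆ fb w := fun z hz => ⟨hz.1.1, hz.2.1⟩
      calc ∑' z : Fb S2 Y w, ENNReal.ofReal |g z|
          ≤ ∑' z : fb w, ENNReal.ofReal |g z| :=
            ENNReal.tsum_mono_subtype (fun z => ENNReal.ofReal |g z|) hsubf
        _ = ∑ z ∈ hfin.toFinset, ENNReal.ofReal |g z| := by
            have : Fintype (fb w) := hfin.fintype
            rw [tsum_fintype]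
            symm
            exact Finset.sum_subtype _ (fun x => by simp) (fun z => ENNReal.ofReal |g z|)
        _ = ENNReal.ofReal (∑ z ∈ hfin.toFinset, |g z|) :=
            (ENNReal.ofReal_sum_of_nonneg fun z _ => abs_nonneg _).symm
        _ ≤ ENNReal.ofReal (2 * D₀ - u w) := by
            refine ENNReal.ofReal_le_ofReal ?_
            rw [huw, finsum_mem_eq_finite_toFinset_sum _ hfin]
            have h2 : ∀ z ∈ hfin.toFinset, |g z| ≤ 2 - g z := by
              intro z hz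
              rw [Set.Finite.mem_toFinset] at hz
              have h3 := hg1 z hz.1
              rw [abs_le]
              constructor <;> linarith
            have h4 := Finset.sum_le_sum h2
            rw [Finset.sum_sub_distrib, Finset.sum_const, nsmul_eq_mul] at h4
            have h5 := hcardle w hfin hcard
            linarith
    · rw [indicator_of_notMem hwB]
      have hemp : IsEmpty (Fb S2 Y w) := by
        refine ⟨fun z => hwB ?_⟩
        rw [← z.2.2.1]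
        exact z.2.1.2
      simp
  have huB : IntegrableOn u B := hui.mono_set hB1
  calc ∫⁻ w, ∑' z : Fb S2 Y w, ENNReal.ofReal |g z|
      ≤ ∫⁻ w, B.indicator (fun w => ENNReal.ofReal (2 * D₀ - u w)) w := lintegral_mono_ae hbound
    _ = ∫⁻ w in B, ENNReal.ofReal (2 * D₀ - u w) := lintegral_indicator hBm _
    _ ≤ ∫⁻ w in B, ENNReal.ofReal (2 * D₀ + |u w|) := by
        refine lintegral_mono fun w => ENNReal.ofReal_le_ofReal ?_
        have := neg_le_abs (u w)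
        linarith
    _ = ENNReal.ofReal (∫ w in B, (2 * D₀ + |u w|)) := by
        rw [ofReal_integral_eq_lintegral_ofReal]
        · exact (integrableOn_const hvBfin.ne).add huB.abs
        · exact Filter.Eventually.of_forall fun w => by positivity
    _ ≤ ENNReal.ofReal (CC * d) := by
        refine ENNReal.ofReal_le_ofReal ?_
        have hi : IntegrableOn (fun _ : V n => (2 * D₀ : ℝ)) B := integrableOn_const hvBfin.ne
        rw [integral_add hi huB.abs, setIntegral_const, smul_eq_mul]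
        have h1 : volume.real B = (volume B).toReal := rfl
        rw [h1]
        have h2 : (volume B).toReal * (2 * D₀) ≤ 2 * D₀ * (volume B).toReal * d := by
          have h3 : 0 ≤ 2 * D₀ * (volume B).toReal := by positivity
          nlinarith
        have h4 : CC * d = 2 * D₀ * (volume B).toReal * d +
            Cs * δ₁ ^ (2 * n) * ((Aa + 1) * D₀ * d) := by rw [hCC]; ring
        rw [h4]
        exact add_le_add h2 hL1

theorem out (hSMO : T_SMO) (hA : T_ARE) (hMOP : T_MOP) (hJAC : T_JAC) (hVDM : T_VDM)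
    (hYMX : T_YMX) (hS1M : T_S1M) (hLGI : T_LGI) (hLGP : T_LGP) (hLSB : T_LSB)
    (hSBM : T_SBM) : T_OUT := by
  intro n X _ _ ι _ A f I hn hM a z₀ y₀ r m G l hy₀ hG r' ε₀ δ₁ D₀ hF
  obtain ⟨c, Cs, hc0, hc1, hCs, hsbm⟩ := hSBM n hn
  have hF' := hF
  obtain ⟨⟨hr'0, hr'r, hε0, hε1, hδ1⟩, hprp, hcnt⟩ := hF'
  set Pt : V (n + n) := Fin.append z₀ y₀ with hPt
  set F := FF A f a with hFdef
  obtain ⟨hop, -, hUg, -⟩ := hMOP n X ι A f I (Dp n) hM
  -- choice of `j₀`
  obtain ⟨j₀, hj₀⟩ : ∃ j₀ : ℕ, ∀ j, j₀ ≤ j → ej j ≤ ε₀ := by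
    obtain ⟨N, hN⟩ := exists_nat_gt (1 / ε₀)
    refine ⟨N, fun j hj => ?_⟩
    unfold ej
    rw [div_le_iff₀ (by positivity)]
    have h1 : (N : ℝ) ≤ j := by exact_mod_cast hj
    have h2 : 1 < ε₀ * N := by
      rw [div_lt_iff₀ hε0] at hN
      linarith
    nlinarith
  set e : Fin (n + 1) → ℝ := fun i => ej (j₀ + i) with he
  have heinj : Function.Injective e := by
    intro i i' h
    simp only [he, ej] at h
    have h1 : ((j₀ + (i : ℕ) : ℕ) : ℝ) + 1 = ((j₀ + (i' : ℕ) : ℕ) : ℝ) + 1 := by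
      have h2 : (0:ℝ) < ((j₀ + (i : ℕ) : ℕ) : ℝ) + 1 := by positivity
      have h3 : (0:ℝ) < ((j₀ + (i' : ℕ) : ℕ) : ℝ) + 1 := by positivity
      field_simp at h
      linarith
    have h4 : (j₀ + (i : ℕ) : ℕ) = j₀ + (i' : ℕ) := by
      have : ((j₀ + (i : ℕ) : ℕ) : ℝ) = ((j₀ + (i' : ℕ) : ℕ) : ℝ) := by linarith
      exact_mod_cast this
    exact Fin.ext (by omega)
  obtain ⟨CV, hCV0, hCV⟩ := hVDM n e heinj
  -- constants for every projection
  have hone := fun (Φ : Fin n → Fin n ⊕ Fin n) (i : Fin (n + 1)) =>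
    out_one hSMO hA hMOP hJAC hYMX hS1M hLGI hLGP hLSB hc0 hc1 hCs hsbm hn hM hy₀ hG hF Φ
      (j₀ + i) (hj₀ _ (Nat.le_add_right _ _))
  choose C1 hC10 hC1 using hone
  -- the radius
  obtain ⟨ρ, hρ0, hρ1, hρ2⟩ : ∃ ρ : ℝ, 0 < ρ ∧ ρ < r' ∧ ∀ Z ∈ Metric.ball Pt ρ,
      ‖l Z‖ + ‖Z - Pt‖ < c * δ₁ := by
    have hcδ : 0 < c * δ₁ := by positivity
    have hrpos := hG.rpos
    have hlc : ContinuousAt l Pt :=
      hG.lhol.continuousOn.continuousAt (Metric.ball_mem_nhds _ hrpos)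
    have h1 : ContinuousAt (fun Z => ‖l Z‖ + ‖Z - Pt‖) Pt :=
      hlc.norm.add ((continuous_id.sub continuous_const).norm.continuousAt)
    have h2 : ‖l Pt‖ + ‖Pt - Pt‖ < c * δ₁ := by
      rw [hG.l0, sub_self, norm_zero, norm_zero, add_zero]; exact hcδ
    have h3 : ∀ᶠ Z in 𝓝 Pt, ‖l Z‖ + ‖Z - Pt‖ < c * δ₁ := h1.eventually (gt_mem_nhds h2)
    obtain ⟨ρ', hρ', h4⟩ := Metric.eventually_nhds_iff_ball.1 h3
    refine ⟨min ρ' (r' / 2), lt_min hρ' (by linarith), ?_, fun Z hZ => h4 Z ?_⟩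
    · exact lt_of_le_of_lt (min_le_right _ _) (by linarith)
    · exact Metric.ball_subset_ball (min_le_left _ _) hZ
  refine ⟨ρ, CV * ∑ Φ, ∑ i, C1 Φ i, hρ0, hρ1, ?_⟩
  intro d P δ hd hPd hPn hδ0 hδle
  set g := lgd P δ with hg
  obtain ⟨hgs, -⟩ := hLGP n P δ hδ0
  rw [← hg] at hgs
  have hgc : Continuous g := hgs.continuous
  set O := Ug A f I (Dp n) a Pt ρ with hOdef
  have hOo : IsOpen O := hUg a Pt ρ
  have hFd : DifferentiableOn ℂ F O := (hM.hol a).mono fun z hz => ⟨hz.1, hz.2.1⟩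
  have hFat : ∀ z ∈ O, DifferentiableAt ℂ F z := fun z hz =>
    (hFd z hz).differentiableAt (hOo.mem_nhds hz)
  set YY' : (Fin n → Fin n ⊕ Fin n) → Fin (n + 1) → V n → V n := fun Φ i x =>
    YY l Pt Φ (ej (j₀ + i)) (Zf F x) with hYY'
  have hpt : ∀ z ∈ O, ENNReal.ofReal (|g z| * Dm F z) ≤ ENNReal.ofReal CV *
      ∑ Φ, ∑ i, (ENNReal.ofReal |g z| * ENNReal.ofReal (Dj (YY' Φ i) z)) := by
    intro z hz
    have h1 : Dm F z ≤ CV * ∑ Φ, ∑ i, Dj (YY' Φ i) z := by
      unfold Dm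
      rw [Finset.mul_sum]
      refine Finset.sum_le_sum fun Φ _ => ?_
      have h2 := hCV (jac (fun x => l (Zf F x)) z) (jac (mix Φ F) z)
      refine h2.trans (le_of_eq ?_)
      congr 1
      refine Finset.sum_congr rfl fun i _ => ?_
      unfold Dj
      have h3 := (hJAC n F z Pt r l (hFat z hz) hG.lhol
        (Metric.ball_subset_ball (by linarith) hz.2.2) Φ (ej (j₀ + i))).2
      simp only [hYY']
      rw [h3]
    have hDj0 : ∀ Φ i, 0 ≤ Dj (YY' Φ i) z := fun Φ i => Dj_nonneg _ _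
    calc ENNReal.ofReal (|g z| * Dm F z)
        ≤ ENNReal.ofReal (|g z| * (CV * ∑ Φ, ∑ i, Dj (YY' Φ i) z)) :=
          ENNReal.ofReal_le_ofReal (mul_le_mul_of_nonneg_left h1 (abs_nonneg _))
      _ = ENNReal.ofReal (CV * ∑ Φ, ∑ i, |g z| * Dj (YY' Φ i) z) := by
          congr 1
          have : ∑ Φ, ∑ i, |g z| * Dj (YY' Φ i) z = |g z| * ∑ Φ, ∑ i, Dj (YY' Φ i) z := by
            rw [Finset.mul_sum]
            exact Finset.sum_congr rfl fun Φ _ => (Finset.mul_sum _ _ _).symm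
          rw [this]
          ring
      _ = ENNReal.ofReal CV * ∑ Φ, ∑ i, (ENNReal.ofReal |g z| *
          ENNReal.ofReal (Dj (YY' Φ i) z)) := by
          rw [ENNReal.ofReal_mul hCV0.le]
          congr 1
          rw [ENNReal.ofReal_sum_of_nonneg fun Φ _ => Finset.sum_nonneg fun i _ =>
            mul_nonneg (abs_nonneg _) (hDj0 Φ i)]
          refine Finset.sum_congr rfl fun Φ _ => ?_
          rw [ENNReal.ofReal_sum_of_nonneg fun i _ => mul_nonneg (abs_nonneg _) (hDj0 Φ i)]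
          exact Finset.sum_congr rfl fun i _ => ENNReal.ofReal_mul (abs_nonneg _)
  have hmeas : ∀ Φ i, Measurable (fun z => ENNReal.ofReal |g z| *
      ENNReal.ofReal (Dj (YY' Φ i) z)) := fun Φ i =>
    (ENNReal.continuous_ofReal.comp hgc.abs).measurable.mul
      (ENNReal.measurable_ofReal.comp (measurable_Dj _))
  calc ∫⁻ z in O, ENNReal.ofReal (|g z| * Dm F z)
      ≤ ∫⁻ z in O, ENNReal.ofReal CV *
        ∑ Φ, ∑ i, (ENNReal.ofReal |g z| * ENNReal.ofReal (Dj (YY' Φ i) z)) :=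
        setLIntegral_mono' hOo.measurableSet hpt
    _ = ENNReal.ofReal CV * ∑ Φ, ∑ i, ∫⁻ z in O, (ENNReal.ofReal |g z| *
        ENNReal.ofReal (Dj (YY' Φ i) z)) := by
        rw [lintegral_const_mul' _ _ ENNReal.ofReal_ne_top]
        congr 1
        rw [lintegral_finsetSum _ fun Φ _ => Finset.measurable_fun_sum _ fun i _ => hmeas Φ i]
        exact Finset.sum_congr rfl fun Φ _ => lintegral_finsetSum _ fun i _ => hmeas Φ i
    _ ≤ ENNReal.ofReal CV * ∑ Φ, ∑ i, ENNReal.ofReal (C1 Φ i * d) := by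
        refine mul_le_mul_right ?_ _
        refine Finset.sum_le_sum fun Φ _ => Finset.sum_le_sum fun i _ => ?_
        refine le_trans (lintegral_mono_set ?_) (hC1 Φ i d P δ hd hPd hPn hδ0 hδle)
        intro z hz
        refine ⟨⟨hz.1, hz.2.1, Metric.ball_subset_ball hρ1.le hz.2.2⟩, ?_⟩
        rw [mem_ball_zero_iff]
        exact lt_of_le_of_lt (norm_YY_le Φ (ej_pos _).le (ej_le_one _)) (hρ2 _ hz.2.2)
    _ = ENNReal.ofReal (CV * (∑ Φ, ∑ i, C1 Φ i) * d) := by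
        have h1 : ∑ Φ, ∑ i, ENNReal.ofReal (C1 Φ i * d) =
            ENNReal.ofReal (∑ Φ, ∑ i, C1 Φ i * d) := by
          rw [ENNReal.ofReal_sum_of_nonneg fun Φ _ => Finset.sum_nonneg fun i _ =>
            mul_nonneg (hC10 Φ i) (Nat.cast_nonneg _)]
          refine Finset.sum_congr rfl fun Φ _ => ?_
          rw [ENNReal.ofReal_sum_of_nonneg fun i _ => mul_nonneg (hC10 Φ i) (Nat.cast_nonneg _)]
        rw [h1, ← ENNReal.ofReal_mul hCV0.le]
        congr 1
        rw [mul_assoc, Finset.sum_mul]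
        congr 1
        exact Finset.sum_congr rfl fun Φ _ => (Finset.sum_mul _ _ _).symm

end Pool.Agent.H15.VG
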